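import Mathlib

set_option autoImplicit false

/-!
Area inequalities.
-/

open MeasureTheory Set Metric Complex
open scoped Real Topology ComplexConjugate ENNReal

namespace Pool.Agent.H71UF

lemma lintegral_exp_change (g : ℝ → ℝ≥0∞) :
    ∫⁻ r in Ioi (0:ℝ), ENNReal.ofReal (1 / r) * g (Real.log r) = ∫⁻ t, g t := by
  have h := lintegral_image_eq_lintegral_abs_deriv_mul (s := univ) MeasurableSet.univ
    (f := Real.exp) (f' := Real.exp) (fun x _ => (Real.hasDerivAt_exp x).hasDerivWithinAt)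
    (Real.exp_injective.injOn) (fun r => ENNReal.ofReal (1 / r) * g (Real.log r))
  rw [image_univ, Real.range_exp] at h
  rw [h, setLIntegral_univ]
  congr 1
  funext t
  rw [Real.log_exp, ← mul_assoc, ← ENNReal.ofReal_mul (abs_nonneg _), abs_of_pos (Real.exp_pos t),
    mul_one_div_cancel (Real.exp_pos t).ne', ENNReal.ofReal_one, one_mul]

lemma lintegral_log_norm (g : ℝ → ℝ≥0∞) (hg : Measurable g) :
    ∫⁻ w : ℂ, ENNReal.ofReal (1 / ‖w‖ ^ 2) * g (Real.log ‖w‖)
      = ENNReal.ofReal (2 * π) * ∫⁻ t, g t := by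
  rw [← Complex.lintegral_comp_polarCoord_symm, polarCoord_target, Measure.volume_eq_prod]
  have hT : MeasurableSet (Ioi (0:ℝ) ×ˢ Ioo (-π) π) := measurableSet_Ioi.prod measurableSet_Ioo
  have e1 : ∫⁻ p in Ioi (0:ℝ) ×ˢ Ioo (-π) π, ENNReal.ofReal p.1 •
      (ENNReal.ofReal (1 / ‖Complex.polarCoord.symm p‖ ^ 2) *
        g (Real.log ‖Complex.polarCoord.symm p‖)) ∂((volume : Measure ℝ).prod (volume : Measure ℝ))
      = ∫⁻ p in Ioi (0:ℝ) ×ˢ Ioo (-π) π, (ENNReal.ofReal (1 / p.1) * g (Real.log p.1)) * 1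
        ∂((volume : Measure ℝ).prod (volume : Measure ℝ)) := by
    refine setLIntegral_congr_fun hT ?_
    intro p hp
    have hp1 : 0 < p.1 := hp.1
    simp only [Complex.norm_polarCoord_symm, abs_of_pos hp1, smul_eq_mul, mul_one]
    rw [← mul_assoc, ← ENNReal.ofReal_mul hp1.le]
    congr 2
    field_simp
  rw [e1, ← Measure.prod_restrict, lintegral_prod_mul (g := fun _ : ℝ => (1 : ℝ≥0∞))
    (f := fun r : ℝ => ENNReal.ofReal (1 / r) * g (Real.log r))]
  · rw [lintegral_exp_change]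
    simp only [lintegral_const, one_mul, Measure.restrict_apply MeasurableSet.univ, univ_inter,
      Real.volume_Ioo]
    rw [mul_comm]
    congr 2
    ring
  · refine (Measurable.mul ?_ (hg.comp Real.measurable_log)).aemeasurable
    exact (measurable_const.div measurable_id).ennreal_ofReal
  · exact aemeasurable_const

lemma det_smulRight_one (w : ℂ) :
    ((ContinuousLinearMap.toSpanSingleton ℂ w).restrictScalars ℝ).det = ‖w‖ ^ 2 := by
  simp [ContinuousLinearMap.det, LinearMap.det_restrictScalars,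
    Algebra.norm_complex_eq, Complex.normSq_eq_norm_sq]

/-- the area inequality for univalent `exp ∘ L` -/
theorem area_univ {L : ℂ → ℂ} {U : Set ℂ} (hU : IsOpen U) (hL : DifferentiableOn ℂ L U)
    (hinj : InjOn (fun z => Complex.exp (L z)) U) (g : ℝ → ℝ≥0∞) (hg : Measurable g) :
    ∫⁻ z in U, ENNReal.ofReal (‖deriv L z‖ ^ 2) * g (L z).re
      ≤ ENNReal.ofReal (2 * π) * ∫⁻ t, g t := by
  have hd : ∀ z ∈ U, HasDerivAt L (deriv L z) z := fun z hz =>
    ((hL z hz).differentiableAt (hU.mem_nhds hz)).hasDerivAt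
  have hfd : ∀ z ∈ U, HasFDerivWithinAt (fun z => Complex.exp (L z))
      ((ContinuousLinearMap.toSpanSingleton ℂ
        (Complex.exp (L z) * deriv L z)).restrictScalars ℝ) U z := by
    intro z hz
    have := (hd z hz).cexp.hasFDerivAt.restrictScalars ℝ
    exact this.hasFDerivWithinAt
  have h := lintegral_image_eq_lintegral_abs_det_fderiv_mul volume hU.measurableSet hfd hinj
    (fun w : ℂ => ENNReal.ofReal (1 / ‖w‖ ^ 2) * g (Real.log ‖w‖))
  rw [← lintegral_log_norm g hg]
  refine le_trans (le_of_eq ?_) (setLIntegral_le_lintegral ((fun z => Complex.exp (L z)) '' U) _)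
  rw [h]
  refine setLIntegral_congr_fun hU.measurableSet ?_
  intro z hz
  simp only [det_smulRight_one]
  rw [Complex.norm_exp, Real.log_exp, ← mul_assoc, ← ENNReal.ofReal_mul (abs_nonneg _), norm_mul,
    Complex.norm_exp]
  congr 2
  have : 0 < Real.exp (L z).re := Real.exp_pos _
  rw [abs_of_nonneg (by positivity)]
  field_simp


/-- the real-linear map `v ↦ Re (a v) + i Im (b v)` -/
noncomputable def mixD (a b : ℂ) : ℂ →L[ℝ] ℂ :=
  Complex.ofRealCLM.comp (Complex.reCLM.comp (a • ContinuousLinearMap.id ℝ ℂ)) +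
    I • Complex.ofRealCLM.comp (Complex.imCLM.comp (b • ContinuousLinearMap.id ℝ ℂ))

lemma mixD_apply (a b v : ℂ) : mixD a b v = ((a * v).re : ℂ) + I * ((b * v).im : ℂ) := by
  simp [mixD]

lemma det_mixD (a b : ℂ) : (mixD a b).det = (a * conj b).re := by
  rw [ContinuousLinearMap.det, ← LinearMap.det_toMatrix Complex.basisOneI, Matrix.det_fin_two]
  simp [LinearMap.toMatrix_apply, mixD_apply]

lemma abs_det_mixD_le (a b : ℂ) : |(mixD a b).det| ≤ ‖a‖ * ‖b‖ := by
  rw [det_mixD]
  calc |(a * conj b).re| ≤ ‖a * conj b‖ := Complex.abs_re_le_norm _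
    _ = ‖a‖ * ‖b‖ := by rw [norm_mul, Complex.norm_conj]

/-- the image of the closed disc under `(Re L, Im Φ)` -/
def ZZ (L Φ : ℂ → ℂ) : Set (ℝ × ℝ) := (fun z => ((L z).re, (Φ z).im)) '' closedBall (0:ℂ) 1

lemma volume_ZZ_le {L Φ : ℂ → ℂ} {R : ℝ} (hR : 1 < R) (hL : DifferentiableOn ℂ L (ball 0 R))
    (hΦ : DifferentiableOn ℂ Φ (ball 0 R)) :
    volume (ZZ L Φ) ≤ ∫⁻ z in ball (0:ℂ) 1, ENNReal.ofReal (‖deriv L z‖ * ‖deriv Φ z‖) := by
  have hsub : closedBall (0:ℂ) 1 ⊆ ball 0 R := closedBall_subset_ball hR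
  set Ψ : ℂ → ℂ := fun z => ((L z).re : ℂ) + I * ((Φ z).im : ℂ) with hΨ
  have hd : ∀ z ∈ closedBall (0:ℂ) 1, HasFDerivWithinAt Ψ (mixD (deriv L z) (deriv Φ z))
      (closedBall (0:ℂ) 1) z := by
    intro z hz
    have h1 : HasDerivAt L (deriv L z) z :=
      ((hL z (hsub hz)).differentiableAt (isOpen_ball.mem_nhds (hsub hz))).hasDerivAt
    have h2 : HasDerivAt Φ (deriv Φ z) z :=
      ((hΦ z (hsub hz)).differentiableAt (isOpen_ball.mem_nhds (hsub hz))).hasDerivAt
    have h3 := (Complex.ofRealCLM.comp Complex.reCLM).hasFDerivAt.comp z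
      (h1.hasFDerivAt.restrictScalars ℝ)
    have h4 := (I • Complex.ofRealCLM.comp Complex.imCLM).hasFDerivAt.comp z
      (h2.hasFDerivAt.restrictScalars ℝ)
    refine ((h3.add h4).congr_fderiv ?_).hasFDerivWithinAt
    apply ContinuousLinearMap.ext
    intro v
    rw [mixD_apply]
    simp [mul_comm]
  have h := addHaar_image_le_lintegral_abs_det_fderiv volume measurableSet_closedBall hd
  have e1 : volume (ZZ L Φ) = volume (Ψ '' closedBall (0:ℂ) 1) := by
    have hmp := Complex.volume_preserving_equiv_real_prod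
    rw [← hmp.measure_preimage_equiv]
    congr 1
    ext w
    constructor
    · rintro ⟨z, hz, hzw⟩
      refine ⟨z, hz, ?_⟩
      simp only [Complex.measurableEquivRealProd_apply, Prod.mk.injEq] at hzw
      apply Complex.ext
      · simp [hΨ, hzw.1]
      · simp [hΨ, hzw.2]
    · rintro ⟨z, hz, rfl⟩
      refine ⟨z, hz, ?_⟩
      simp [hΨ, Complex.measurableEquivRealProd_apply]
  rw [e1]
  refine h.trans ?_
  have hae : (closedBall (0:ℂ) 1 : Set ℂ) =ᵐ[volume] ball (0:ℂ) 1 := by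
    rw [← ball_union_sphere]
    exact union_ae_eq_left_of_ae_eq_empty
      (ae_eq_empty.2 (Measure.addHaar_sphere_of_ne_zero volume 0 one_ne_zero))
  rw [setLIntegral_congr hae]
  refine lintegral_mono fun z => ENNReal.ofReal_le_ofReal (abs_det_mixD_le _ _)

end Pool.Agent.H71UF
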