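import Mathlib

set_option autoImplicit false

/-!
Counting function (an inequality form of Banach's indicatrix theorem).
-/

open MeasureTheory Set Metric Filter
open scoped Real Topology ENNReal

namespace Pool.Agent.H71UF

section
variable {g g' : ℝ → ℝ} {a b : ℝ}

/-- partition points -/
noncomputable def nod (a b : ℝ) (n j : ℕ) : ℝ := a + (b - a) * (j / (n + 1))

/-- arcs -/
noncomputable def arc (a b : ℝ) (n j : ℕ) : Set ℝ := Icc (nod a b n j) (nod a b n (j + 1))

lemma nod_mono (hab : a ≤ b) (n : ℕ) {i j : ℕ} (hij : i ≤ j) : nod a b n i ≤ nod a b n j := by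
  unfold nod
  have : (i : ℝ) ≤ j := by exact_mod_cast hij
  have h2 : 0 ≤ b - a := by linarith
  gcongr

lemma nod_zero (n : ℕ) : nod a b n 0 = a := by simp [nod]

lemma nod_last (n : ℕ) : nod a b n (n + 1) = b := by
  unfold nod
  have : ((n + 1 : ℕ) : ℝ) / ((n : ℝ) + 1) = 1 := by
    push_cast; exact div_self (by positivity)
  rw [this]; ring

lemma nod_diff (n j : ℕ) : nod a b n (j + 1) - nod a b n j = (b - a) / (n + 1) := by
  unfold nod; push_cast; field_simp; ring

lemma exists_arc (n : ℕ) {θ : ℝ} (hθ : θ ∈ Icc a b) :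
    ∃ j ∈ Finset.range (n + 1), θ ∈ arc a b n j := by
  -- the least j with θ ≤ nod (j+1)
  have hex : ∃ j, θ ≤ nod a b n (j + 1) := ⟨n, by rw [nod_last]; exact hθ.2⟩
  classical
  set j := Nat.find hex with hj
  have h1 : θ ≤ nod a b n (j + 1) := Nat.find_spec hex
  have h2 : j ≤ n := Nat.find_min' hex (by rw [nod_last]; exact hθ.2)
  refine ⟨j, Finset.mem_range.2 (by omega), ?_, h1⟩
  rcases Nat.eq_zero_or_pos j with h0 | h0
  · rw [h0, nod_zero]; exact hθ.1
  · have := Nat.find_min hex (m := j - 1) (by omega)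
    rw [not_le, Nat.sub_add_cancel h0] at this
    exact this.le

/-- number of arcs whose image contains `c` -/
noncomputable def Nn (g : ℝ → ℝ) (a b : ℝ) (n : ℕ) (c : ℝ) : ℝ≥0∞ :=
  ∑ j ∈ Finset.range (n + 1), (g '' arc a b n j).indicator 1 c

/-- counting function -/
noncomputable def NN (g : ℝ → ℝ) (a b : ℝ) (c : ℝ) : ℝ≥0∞ :=
  liminf (fun n => Nn g a b n c) atTop

lemma measurable_Nn (hg : Continuous g) (n : ℕ) : Measurable (Nn g a b n) := by
  unfold Nn
  refine Finset.measurable_sum _ fun j _ => ?_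
  refine measurable_one.indicator ?_
  exact (isCompact_Icc.image hg).measurableSet

lemma measurable_NN (hg : Continuous g) : Measurable (NN g a b) := by
  unfold NN
  exact Measurable.liminf fun n => measurable_Nn hg n

lemma lintegral_Nn_le (hab : a ≤ b) (hd : ∀ t, HasDerivAt g (g' t) t) (hg' : Continuous g')
    (n : ℕ) : ∫⁻ c, Nn g a b n c ≤ ENNReal.ofReal (∫ t in a..b, |g' t|) := by
  have hg : Continuous g := continuous_iff_continuousAt.2 fun t => (hd t).continuousAt
  unfold Nn
  rw [lintegral_finsetSum]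
  swap
  · intro j _
    exact measurable_one.indicator (isCompact_Icc.image hg).measurableSet
  have h1 : ∀ j ∈ Finset.range (n + 1),
      ∫⁻ c, (g '' arc a b n j).indicator 1 c ≤
        ENNReal.ofReal (∫ t in (nod a b n j)..(nod a b n (j + 1)), |g' t|) := by
    intro j _
    have hm : MeasurableSet (g '' arc a b n j) := (isCompact_Icc.image hg).measurableSet
    rw [lintegral_indicator_one hm]
    have h2 := addHaar_image_le_lintegral_abs_det_fderiv (μ := (volume : Measure ℝ))
      (s := arc a b n j) (f := g) (f' := fun t => ContinuousLinearMap.toSpanSingleton ℝ (g' t))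
      measurableSet_Icc (fun t _ => (hd t).hasFDerivAt.hasFDerivWithinAt)
    refine h2.trans ?_
    simp only [ContinuousLinearMap.det_toSpanSingleton]
    rw [intervalIntegral.integral_of_le (nod_mono hab n (Nat.le_succ j)),
      ← integral_Icc_eq_integral_Ioc, ofReal_integral_eq_lintegral_ofReal
      (hg'.abs.continuousOn.integrableOn_Icc) (Filter.Eventually.of_forall fun _ => abs_nonneg _)]
    exact le_rfl
  refine (Finset.sum_le_sum h1).trans ?_
  rw [← ENNReal.ofReal_sum_of_nonneg]
  · rw [intervalIntegral.sum_integral_adjacent_intervals (a := nod a b n)]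
    · rw [nod_zero, nod_last]
    · intro j _
      exact hg'.abs.intervalIntegrable _ _
  · intro j _
    exact intervalIntegral.integral_nonneg (nod_mono hab n (Nat.le_succ j)) fun _ _ => abs_nonneg _

lemma lintegral_NN_le (hab : a ≤ b) (hd : ∀ t, HasDerivAt g (g' t) t) (hg' : Continuous g') :
    ∫⁻ c, NN g a b c ≤ ENNReal.ofReal (∫ t in a..b, |g' t|) := by
  have hg : Continuous g := continuous_iff_continuousAt.2 fun t => (hd t).continuousAt
  unfold NN
  refine (lintegral_liminf_le fun n => measurable_Nn hg n).trans ?_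
  refine liminf_le_of_frequently_le' ?_
  exact Frequently.of_forall fun n => lintegral_Nn_le hab hd hg' n

lemma card_le_NN {c : ℝ} (F : Finset ℝ) (hF : ∀ θ ∈ F, θ ∈ Icc a b ∧ g θ = c) :
    (F.card : ℝ≥0∞) ≤ NN g a b c := by
  classical
  unfold NN
  refine le_liminf_of_le (by isBoundedDefault) ?_
  have hev : ∀ᶠ n : ℕ in atTop, ∀ θ ∈ F, ∀ θ' ∈ F, θ ≠ θ' → (b - a) / ((n : ℝ) + 1) < |θ - θ'| := by
    rw [Finset.eventually_all]
    intro θ _
    rw [Finset.eventually_all]
    intro θ' _
    by_cases h : θ = θ'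
    · exact Eventually.of_forall fun n hn => absurd h hn
    · have hpos : 0 < |θ - θ'| := abs_pos.2 (sub_ne_zero.2 h)
      have ht : Tendsto (fun n : ℕ => (b - a) / ((n : ℝ) + 1)) atTop (𝓝 0) := by
        have := tendsto_one_div_add_atTop_nhds_zero_nat (𝕜 := ℝ)
        have h2 := this.const_mul (b - a)
        simpa [div_eq_mul_inv] using h2
      filter_upwards [ht.eventually (gt_mem_nhds hpos)] with n hn _
      exact hn
  filter_upwards [hev] with n hn
  choose! J hJ using fun (θ : ℝ) (hθ : θ ∈ Icc a b) => exists_arc n hθ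
  have hcard : Nn g a b n c =
      ((Finset.range (n + 1)).filter (fun j => c ∈ g '' arc a b n j)).card := by
    unfold Nn
    simp only [indicator_apply, Pi.one_apply]
    rw [Finset.sum_ite]
    simp
  rw [hcard]
  have : F.card ≤ ((Finset.range (n + 1)).filter (fun j => c ∈ g '' arc a b n j)).card := by
    refine Finset.card_le_card_of_injOn J ?_ ?_
    · intro θ hθ
      have h1 := hF θ hθ
      have h2 := hJ θ h1.1
      exact Finset.mem_coe.2 (Finset.mem_filter.2 ⟨h2.1, ⟨θ, h2.2, h1.2⟩⟩)
    · intro θ hθ θ' hθ' heq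
      by_contra hne
      have h1 := (hJ θ (hF θ hθ).1).2
      have h2 := (hJ θ' (hF θ' hθ').1).2
      rw [← heq] at h2
      have h3 := hn θ hθ θ' hθ' hne
      have h4 := nod_diff (a := a) (b := b) n (J θ)
      have h5 : |θ - θ'| ≤ (b - a) / (n + 1) := by
        rw [← h4]
        exact abs_le.2 ⟨by linarith [h1.1, h1.2, h2.1, h2.2], by linarith [h1.1, h1.2, h2.1, h2.2]⟩
      linarith
  exact_mod_cast this

/-- level set on the interval -/
def lev (g : ℝ → ℝ) (a b c : ℝ) : Set ℝ := {θ | θ ∈ Icc a b ∧ g θ = c}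

lemma lev_finite {c : ℝ} (h : NN g a b c ≠ ∞) : (lev g a b c).Finite := by
  by_contra hinf
  have hinf' : (lev g a b c).Infinite := hinf
  apply h
  refine ENNReal.eq_top_of_forall_nnreal_le fun r => ?_
  obtain ⟨n, hn⟩ := exists_nat_gt r
  obtain ⟨F, hF, hcard⟩ := hinf'.exists_subset_card_eq n
  have h1 := card_le_NN F (c := c) (g := g) (fun θ hθ => hF hθ)
  rw [hcard] at h1
  refine le_trans ?_ h1
  exact_mod_cast hn.le

end

end Pool.Agent.H71UF
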