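import Mathlib
import Pool.Agent.H71UF.Area
import Pool.Agent.H71UF.Count

set_option autoImplicit false

/-!
Component lemma: every component of a horizontal slice of `ZZ L Φ` is reached from the unit circle.
-/

open MeasureTheory Set Metric Complex Filter
open scoped Real Topology ENNReal

namespace Pool.Agent.H71UF

/-- boundary values of `Im Φ` -/
noncomputable def bdv (Φ : ℂ → ℂ) (θ : ℝ) : ℝ := (Φ (Complex.exp (θ * I))).im

theorem comp_lemma {L Φ : ℂ → ℂ} {R : ℝ} (hR : 1 < R) (hL : DifferentiableOn ℂ L (ball 0 R))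
    (hΦ : DifferentiableOn ℂ Φ (ball 0 R)) (hnc : ¬ ∀ z ∈ ball (0:ℂ) R, Φ z = Φ 0)
    {w : ℂ} (hw : w ∈ closedBall (0:ℂ) 1) {c : ℝ} (hc : (Φ w).im = c)
    (hfin : (lev (bdv Φ) (-π) π c).Finite) :
    ∃ θ ∈ lev (bdv Φ) (-π) π c,
      ∀ q ∈ uIcc (L w).re (L (Complex.exp (θ * I))).re, (q, c) ∈ ZZ L Φ := by
  by_contra H
  push Not at H
  choose! q hq1 hq2 using H
  have hsub : closedBall (0:ℂ) 1 ⊆ ball 0 R := closedBall_subset_ball hR
  have hwZ : ((L w).re, c) ∈ ZZ L Φ := ⟨w, hw, by rw [← hc]⟩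
  set Q : Set ℝ := q '' lev (bdv Φ) (-π) π c with hQ
  have hQfin : Q.Finite := hfin.image q
  have hQZ : ∀ p ∈ Q, (p, c) ∉ ZZ L Φ := by
    rintro p ⟨θ, hθ, rfl⟩
    exact hq2 θ hθ
  set T : Set (ℂ × ℂ) := {u | u.2.im = c ∧ ∀ p ∈ Q, ((L w).re < p → u.1.re ≤ p) ∧
    (p < (L w).re → p ≤ u.1.re)} with hT
  have hTc : IsClosed T := by
    rw [hT]
    refine IsClosed.and ?_ ?_
    · exact isClosed_eq (by fun_prop) continuous_const
    · simp only [ofPred_forall]
      refine isClosed_iInter fun p => isClosed_iInter fun _ => ?_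
      refine IsClosed.and ?_ ?_
      · by_cases h : (L w).re < p
        · simp only [h, true_imp_iff]
          exact isClosed_le (by fun_prop) continuous_const
        · simp only [h, false_imp_iff]
          exact isClosed_univ
      · by_cases h : p < (L w).re
        · simp only [h, true_imp_iff]
          exact isClosed_le continuous_const (by fun_prop)
        · simp only [h, false_imp_iff]
          exact isClosed_univ
  have hpair : ContinuousOn (fun z => (L z, Φ z)) (closedBall (0:ℂ) 1) :=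
    (hL.continuousOn.mono hsub).prodMk (hΦ.continuousOn.mono hsub)
  set Zs : Set ℂ := closedBall (0:ℂ) 1 ∩ (fun z => (L z, Φ z)) ⁻¹' T with hZs
  have hZsclosed : IsClosed Zs := hpair.preimage_isClosed_of_isClosed isClosed_closedBall hTc
  have hZsc : IsCompact Zs := (isCompact_closedBall (0:ℂ) 1).of_isClosed_subset hZsclosed
    inter_subset_left
  have hne : Zs.Nonempty := by
    refine ⟨w, hw, hc, fun p _ => ⟨fun h => h.le, fun h => h.le⟩⟩
  obtain ⟨z, hz, hmax⟩ := hZsc.exists_isMaxOn hne (f := fun z => (Φ z).re)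
    ((Complex.continuous_re.comp_continuousOn (hΦ.continuousOn.mono hsub)).mono inter_subset_left)
  have hzb : z ∈ closedBall (0:ℂ) 1 := hz.1
  have hzc : (Φ z).im = c := hz.2.1
  have hzQ := hz.2.2
  -- z is in the open ball
  have hzo : z ∈ ball (0:ℂ) 1 := by
    rw [mem_ball_zero_iff]
    rw [mem_closedBall_zero_iff] at hzb
    refine lt_of_le_of_ne hzb fun hn => ?_
    have hza : z = Complex.exp (arg z * I) := by
      conv_lhs => rw [← Complex.norm_mul_exp_arg_mul_I z]
      rw [hn]; simp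
    have hθ : arg z ∈ lev (bdv Φ) (-π) π c := by
      refine ⟨⟨(Complex.neg_pi_lt_arg z).le, Complex.arg_le_pi z⟩, ?_⟩
      rw [bdv, ← hza]; exact hzc
    have h1 := hq1 _ hθ
    have h2 := hq2 _ hθ
    rw [← hza] at h1
    have h3 := hzQ (q (arg z)) ⟨_, hθ, rfl⟩
    have hne1 : q (arg z) ≠ (L w).re := by
      intro h; rw [h] at h2; exact h2 hwZ
    have hne2 : q (arg z) ≠ (L z).re := by
      intro h; rw [h] at h2
      exact h2 ⟨z, hz.1, by rw [← hzc]⟩
    rcases lt_or_gt_of_ne hne1 with h | h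
    · have h4 := h3.2 h
      have h5 : q (arg z) < (L z).re := lt_of_le_of_ne h4 hne2
      rw [mem_uIcc] at h1
      rcases h1 with h1 | h1 <;> linarith [h1.1, h1.2]
    · have h4 := h3.1 h
      have h5 : (L z).re < q (arg z) := lt_of_le_of_ne h4 hne2.symm
      rw [mem_uIcc] at h1
      rcases h1 with h1 | h1 <;> linarith [h1.1, h1.2]
  have hzR : z ∈ ball (0:ℂ) R := hsub hz.1
  have hΦan : AnalyticOnNhd ℂ Φ (ball 0 R) := hΦ.analyticOnNhd isOpen_ball
  rcases (hΦan z hzR).eventually_constant_or_nhds_le_map_nhds with hconst | hopen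
  · apply hnc
    have h1 : EqOn Φ (fun _ => Φ z) (ball 0 R) :=
      hΦan.eqOn_of_preconnected_of_eventuallyEq analyticOnNhd_const
        (convex_ball (0:ℂ) R).isPreconnected hzR hconst
    intro u hu
    rw [h1 hu, h1 (mem_ball_self (by linarith))]
  · have hLcont : ContinuousAt L z := (hL.continuousOn).continuousAt (isOpen_ball.mem_nhds hzR)
    have hre : ContinuousAt (fun z => (L z).re) z := Complex.continuous_re.continuousAt.comp hLcont
    have hP : ∀ᶠ u in 𝓝 z, u ∈ ball (0:ℂ) 1 ∧ ∀ p ∈ Q, ((L w).re < p → (L u).re < p) ∧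
        (p < (L w).re → p < (L u).re) := by
      have hb : ∀ᶠ u in 𝓝 z, u ∈ ball (0:ℂ) 1 := isOpen_ball.mem_nhds hzo
      refine hb.and ?_
      rw [Filter.eventually_all_finite hQfin]
      intro p hp
      have hne : (L z).re ≠ p := by
        intro h
        exact hQZ p hp ⟨z, hz.1, by rw [← h, ← hzc]⟩
      have h3 := hzQ p hp
      rcases lt_or_gt_of_ne hne with h | h
      · filter_upwards [hre.eventually (gt_mem_nhds h)] with u hu
        refine ⟨fun _ => hu, fun h5 => ?_⟩
        have := h3.2 h5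
        simp only at this
        linarith
      · filter_upwards [hre.eventually (lt_mem_nhds h)] with u hu
        refine ⟨fun h5 => ?_, fun _ => hu⟩
        have := h3.1 h5
        simp only at this
        linarith
    have hP2 : ∀ᶠ v in 𝓝 (Φ z), ∃ u, (u ∈ ball (0:ℂ) 1 ∧ ∀ p ∈ Q, ((L w).re < p → (L u).re < p) ∧
        (p < (L w).re → p < (L u).re)) ∧ Φ u = v := by
      apply hopen
      rw [mem_map]
      filter_upwards [hP] with u hu
      exact ⟨u, hu, rfl⟩
    have ht : Tendsto (fun ε : ℝ => Φ z + ε) (𝓝[>] 0) (𝓝 (Φ z)) := by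
      have : Tendsto (fun ε : ℝ => Φ z + ε) (𝓝 0) (𝓝 (Φ z + (0:ℝ))) := by
        have : Continuous (fun ε : ℝ => Φ z + ε) := by fun_prop
        exact this.tendsto 0
      simp only [Complex.ofReal_zero, add_zero] at this
      exact this.mono_left nhdsWithin_le_nhds
    obtain ⟨ε, ⟨u, ⟨hu1, hu2⟩, hu3⟩, hε⟩ := ((ht.eventually hP2).and
      (self_mem_nhdsWithin : ∀ᶠ ε : ℝ in 𝓝[>] 0, ε ∈ Ioi (0:ℝ))).exists
    have hε' : 0 < ε := hε
    have huZ : u ∈ Zs := by
      refine ⟨ball_subset_closedBall hu1, ?_, fun p hp => ?_⟩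
      · simp only [hu3]
        simp [hzc]
      · exact ⟨fun h => ((hu2 p hp).1 h).le, fun h => ((hu2 p hp).2 h).le⟩
    have := hmax huZ
    simp only [mem_ofPred_eq, hu3] at this
    simp at this
    linarith

end Pool.Agent.H71UF
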