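import Mathlib

set_option autoImplicit false

/-!
Construction of the weights.
-/

open MeasureTheory Set Metric
open scoped Real Topology ENNReal

namespace Pool.Agent.H71UF

/-- anisotropic distance to `Z` -/
noncomputable def rho (τ : ℝ) (k : ℕ) (Z : Set (ℝ × ℝ)) (t c : ℝ) : ℝ :=
  infDist (t / τ, (k : ℝ) * c) ((fun p : ℝ × ℝ => (p.1 / τ, (k : ℝ) * p.2)) '' Z)

section
variable {τ : ℝ} {k : ℕ} {Z : Set (ℝ × ℝ)}

lemma rho_nonneg (t c : ℝ) : 0 ≤ rho τ k Z t c := infDist_nonneg

lemma rho_le (hτ : 0 < τ) {p : ℝ × ℝ} (hp : p ∈ Z) (t c : ℝ) :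
    rho τ k Z t c ≤ max (|t - p.1| / τ) (k * |c - p.2|) := by
  refine (infDist_le_dist_of_mem (mem_image_of_mem _ hp)).trans (le_of_eq ?_)
  rw [Prod.dist_eq, Real.dist_eq, Real.dist_eq]
  congr 1
  · rw [← sub_div, abs_div, abs_of_pos hτ]
  · simp only
    rw [← mul_sub, abs_mul, Nat.abs_cast]

lemma continuous_rho : Continuous (Function.uncurry (rho τ k Z)) := by
  have : Function.uncurry (rho τ k Z) = fun p : ℝ × ℝ => infDist (p.1 / τ, (k : ℝ) * p.2)
      ((fun p : ℝ × ℝ => (p.1 / τ, (k : ℝ) * p.2)) '' Z) := rfl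
  rw [this]
  exact (continuous_infDist_pt _).comp (by fun_prop)

lemma rho_lip (hτ : 0 < τ) (t s c : ℝ) : rho τ k Z t c ≤ rho τ k Z s c + |t - s| / τ := by
  unfold rho
  refine (infDist_le_infDist_add_dist (y := (s / τ, (k : ℝ) * c))).trans (le_of_eq ?_)
  rw [Prod.dist_eq, Real.dist_eq, Real.dist_eq]
  simp only [sub_self, abs_zero]
  rw [← sub_div, abs_div, abs_of_pos hτ, max_eq_left (by positivity)]

lemma exists_rho_eq (hτ : 0 < τ) (hZ : IsCompact Z) (hne : Z.Nonempty) (t c : ℝ) :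
    ∃ p ∈ Z, |t - p.1| / τ ≤ rho τ k Z t c ∧ k * |c - p.2| ≤ rho τ k Z t c := by
  have hc : Continuous (fun p : ℝ × ℝ => (p.1 / τ, (k : ℝ) * p.2)) := by fun_prop
  obtain ⟨q, ⟨p, hp, rfl⟩, hq⟩ := (hZ.image hc).exists_infDist_eq_dist (hne.image _)
    (t / τ, (k : ℝ) * c)
  refine ⟨p, hp, ?_⟩
  have : rho τ k Z t c = max (|t - p.1| / τ) (k * |c - p.2|) := by
    unfold rho
    rw [hq, Prod.dist_eq, Real.dist_eq, Real.dist_eq]
    congr 1
    · rw [← sub_div, abs_div, abs_of_pos hτ]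
    · simp only
      rw [← mul_sub, abs_mul, Nat.abs_cast]
  rw [this]
  exact ⟨le_max_left _ _, le_max_right _ _⟩

/-- truncated exponential -/
noncomputable def om1 (τ δ : ℝ) (k : ℕ) (Z : Set (ℝ × ℝ)) (s c : ℝ) : ℝ :=
  Real.exp (-max (rho τ k Z s c - δ / τ) 0)

variable {δ : ℝ}

lemma continuous_om1 : Continuous (Function.uncurry (om1 τ δ k Z)) := by
  have : Function.uncurry (om1 τ δ k Z) = fun p : ℝ × ℝ =>
    Real.exp (-max (Function.uncurry (rho τ k Z) p - δ / τ) 0) := rfl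
  rw [this]
  have := continuous_rho (τ := τ) (k := k) (Z := Z)
  fun_prop

lemma om1_pos (s c : ℝ) : 0 < om1 τ δ k Z s c := Real.exp_pos _

lemma om1_le_one (s c : ℝ) : om1 τ δ k Z s c ≤ 1 := by
  unfold om1
  rw [Real.exp_le_one_iff]
  have := le_max_right (rho τ k Z s c - δ / τ) 0
  linarith

lemma om1_eq_one (hτ : 0 < τ) {p : ℝ × ℝ} (hp : p ∈ Z) {s : ℝ} (hs : |s - p.1| ≤ δ) :
    om1 τ δ k Z s p.2 = 1 := by
  unfold om1
  have h1 := rho_le hτ hp s p.2 (k := k)
  rw [sub_self, abs_zero, mul_zero, max_eq_left (by positivity)] at h1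
  have h2 : |s - p.1| / τ ≤ δ / τ := by gcongr
  rw [max_eq_right (by linarith)]
  simp

lemma om1_le_exp_mul (hτ : 0 < τ) (s s' c : ℝ) :
    om1 τ δ k Z s c ≤ Real.exp (|s - s'| / τ) * om1 τ δ k Z s' c := by
  unfold om1
  rw [← Real.exp_add, Real.exp_le_exp]
  have h := rho_lip hτ s' s c (k := k) (Z := Z)
  rw [abs_sub_comm] at h
  have h0 : 0 ≤ |s - s'| / τ := by positivity
  have : max (rho τ k Z s' c - δ / τ) 0 ≤ max (rho τ k Z s c - δ / τ) 0 + |s - s'| / τ := by
    apply max_le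
    · have := le_max_left (rho τ k Z s c - δ / τ) 0
      linarith
    · have := le_max_right (rho τ k Z s c - δ / τ) 0
      linarith
  linarith

lemma om1_le_rho (s c : ℝ) :
    om1 τ δ k Z s c ≤ Real.exp (δ / τ) * Real.exp (- rho τ k Z s c) := by
  unfold om1
  rw [← Real.exp_add, Real.exp_le_exp]
  have := le_max_left (rho τ k Z s c - δ / τ) 0
  linarith

end

/-- window average -/
noncomputable def win (v : ℝ → ℝ → ℝ) (δ t c : ℝ) : ℝ :=
  1 / (2 * δ) * ∫ s in (t - δ)..(t + δ), v s c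

/-- its derivative -/
noncomputable def win' (v : ℝ → ℝ → ℝ) (δ t c : ℝ) : ℝ :=
  1 / (2 * δ) * (v (t + δ) c - v (t - δ) c)

section
variable {v : ℝ → ℝ → ℝ} {δ τ : ℝ} {Z : Set (ℝ × ℝ)}

lemma continuous_slice (hv : Continuous (Function.uncurry v)) (c : ℝ) :
    Continuous fun s => v s c :=
  hv.comp (by fun_prop : Continuous fun s : ℝ => (s, c))

lemma hasDerivAt_win (hv : Continuous (Function.uncurry v)) (t c : ℝ) :
    HasDerivAt (fun t => win v δ t c) (win' v δ t c) t := by
  unfold win win'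
  have hc := continuous_slice hv c
  have h1 : ∀ b, HasDerivAt (fun u => ∫ s in (0:ℝ)..u, v s c) (v b c) b :=
    fun b => intervalIntegral.integral_hasDerivAt_right (hc.intervalIntegrable _ _)
        (hc.stronglyMeasurableAtFilter _ _) hc.continuousAt
  have h2 : HasDerivAt (fun t => ∫ s in (0:ℝ)..(t + δ), v s c)
      (v (t + δ) c) t := (h1 (t + δ)).comp_add_const t δ
  have h3 : HasDerivAt (fun t => ∫ s in (0:ℝ)..(t - δ), v s c)
      (v (t - δ) c) t := (h1 (t - δ)).comp_sub_const t δ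
  have h4 := (h2.sub h3).const_mul (1 / (2 * δ))
  refine h4.congr_of_eventuallyEq ?_
  filter_upwards with u
  simp only [Pi.sub_apply]
  congr 1
  exact (intervalIntegral.integral_interval_sub_left (hc.intervalIntegrable _ _)
    (hc.intervalIntegrable _ _)).symm

lemma continuous_win (hv : Continuous (Function.uncurry v)) :
    Continuous (Function.uncurry (win v δ)) := by
  have e : Function.uncurry (win v δ) = fun p : ℝ × ℝ => 1 / (2 * δ) *
      ((∫ s in (0:ℝ)..(p.1 + δ), v s p.2) - ∫ s in (0:ℝ)..(p.1 - δ), v s p.2) := by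
    funext p
    have hc := continuous_slice hv p.2
    simp only [Function.uncurry, win]
    congr 1
    exact (intervalIntegral.integral_interval_sub_left (hc.intervalIntegrable _ _)
      (hc.intervalIntegrable _ _)).symm
  rw [e]
  have h1 : ∀ a : ℝ, Continuous fun p : ℝ × ℝ => ∫ s in (0:ℝ)..(p.1 + a), v s p.2 := by
    intro a
    exact intervalIntegral.continuous_parametric_intervalIntegral_of_continuous
      (X := ℝ × ℝ) (f := fun p s => v s p.2) (s := fun p => p.1 + a)
      (hv.comp (by fun_prop : Continuous fun q : (ℝ × ℝ) × ℝ => (q.2, q.1.2)))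
      (by fun_prop)
  have h2 := h1 δ
  have h3 := h1 (-δ)
  simp only [← sub_eq_add_neg] at h3
  exact continuous_const.mul (h2.sub h3)

lemma continuous_win' (hv : Continuous (Function.uncurry v)) :
    Continuous (Function.uncurry (win' v δ)) := by
  have e : Function.uncurry (win' v δ) = fun p : ℝ × ℝ => 1 / (2 * δ) *
      (Function.uncurry v (p.1 + δ, p.2) - Function.uncurry v (p.1 - δ, p.2)) := rfl
  rw [e]
  fun_prop

lemma win_eq_one (hδ : 0 < δ) (hone : ∀ p ∈ Z, ∀ s, |s - p.1| ≤ δ → v s p.2 = 1)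
    {p : ℝ × ℝ} (hp : p ∈ Z) : win v δ p.1 p.2 = 1 := by
  unfold win
  have : ∫ s in (p.1 - δ)..(p.1 + δ), v s p.2 = ∫ s in (p.1 - δ)..(p.1 + δ), (1:ℝ) := by
    apply intervalIntegral.integral_congr
    intro s hs
    rw [uIcc_of_le (by linarith)] at hs
    exact hone p hp s (abs_le.2 ⟨by linarith [hs.1], by linarith [hs.2]⟩)
  rw [this, intervalIntegral.integral_const]
  simp
  field_simp
  ring

lemma win'_eq_zero (hδ : 0 < δ) (hone : ∀ p ∈ Z, ∀ s, |s - p.1| ≤ δ → v s p.2 = 1)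
    {p : ℝ × ℝ} (hp : p ∈ Z) : win' v δ p.1 p.2 = 0 := by
  unfold win'
  rw [hone p hp _ (by simp [abs_of_pos hδ]), hone p hp _ (by simp [abs_of_pos hδ])]
  simp

lemma win_ge (hv : Continuous (Function.uncurry v)) (hτ : 0 < τ) (hδ : 0 < δ)
    (hpos : ∀ s c, 0 < v s c)
    (hlip : ∀ s s' c, v s c ≤ Real.exp (|s - s'| / τ) * v s' c)
    {t c s' : ℝ} (hs' : s' ∈ Icc (t - δ) (t + δ)) :
    Real.exp (-(2 * δ / τ)) * v s' c ≤ win v δ t c := by
  unfold win
  have hc := continuous_slice hv c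
  have h1 : ∫ s in (t - δ)..(t + δ), Real.exp (-(2 * δ / τ)) * v s' c ≤
      ∫ s in (t - δ)..(t + δ), v s c := by
    refine intervalIntegral.integral_mono_on (by linarith) intervalIntegrable_const
      (hc.intervalIntegrable _ _) ?_
    intro s hs
    have h2 := hlip s' s c
    have h3 : |s' - s| ≤ 2 * δ := abs_le.2 ⟨by linarith [hs.1, hs.2, hs'.1, hs'.2],
      by linarith [hs.1, hs.2, hs'.1, hs'.2]⟩
    have h4 : Real.exp (|s' - s| / τ) ≤ Real.exp (2 * δ / τ) := by
      rw [Real.exp_le_exp]; gcongr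
    have h5 := hpos s c
    calc Real.exp (-(2 * δ / τ)) * v s' c
        ≤ Real.exp (-(2 * δ / τ)) * (Real.exp (2 * δ / τ) * v s c) := by
          gcongr
          exact h2.trans (by gcongr)
      _ = v s c := by
          rw [← mul_assoc, ← Real.exp_add]; simp
  rw [intervalIntegral.integral_const, smul_eq_mul] at h1
  have h2 : t + δ - (t - δ) = 2 * δ := by ring
  rw [h2] at h1
  have h3 : 0 < 1 / (2 * δ) := by positivity
  have := mul_le_mul_of_nonneg_left h1 h3.le
  calc _ = 1 / (2 * δ) * (2 * δ * (Real.exp (-(2 * δ / τ)) * v s' c)) := by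
        field_simp
    _ ≤ _ := this

lemma win_pos (hv : Continuous (Function.uncurry v)) (hτ : 0 < τ) (hδ : 0 < δ)
    (hpos : ∀ s c, 0 < v s c)
    (hlip : ∀ s s' c, v s c ≤ Real.exp (|s - s'| / τ) * v s' c) (t c : ℝ) : 0 < win v δ t c := by
  have h := win_ge hv hτ hδ hpos hlip (t := t) (c := c) (s' := t)
    ⟨by linarith, by linarith⟩
  exact lt_of_lt_of_le (mul_pos (Real.exp_pos _) (hpos _ _)) h

lemma win_le (hv : Continuous (Function.uncurry v)) (hτ : 0 < τ) (hδ : 0 < δ)
    (hpos : ∀ s c, 0 < v s c)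
    (hlip : ∀ s s' c, v s c ≤ Real.exp (|s - s'| / τ) * v s' c) (t c : ℝ) :
    win v δ t c ≤ Real.exp (δ / τ) * v t c := by
  unfold win
  have hc := continuous_slice hv c
  have h1 : ∫ s in (t - δ)..(t + δ), v s c ≤ ∫ s in (t - δ)..(t + δ),
      Real.exp (δ / τ) * v t c := by
    refine intervalIntegral.integral_mono_on (by linarith) (hc.intervalIntegrable _ _)
      intervalIntegrable_const ?_
    intro s hs
    have h2 := hlip s t c
    have h3 : |s - t| ≤ δ := abs_le.2 ⟨by linarith [hs.1, hs.2], by linarith [hs.1, hs.2]⟩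
    have h5 := hpos t c
    calc v s c ≤ Real.exp (|s - t| / τ) * v t c := h2
      _ ≤ Real.exp (δ / τ) * v t c := by gcongr
  rw [intervalIntegral.integral_const, smul_eq_mul] at h1
  have h2 : t + δ - (t - δ) = 2 * δ := by ring
  rw [h2] at h1
  have h3 : 0 < 1 / (2 * δ) := by positivity
  have := mul_le_mul_of_nonneg_left h1 h3.le
  calc _ ≤ 1 / (2 * δ) * (2 * δ * (Real.exp (δ / τ) * v t c)) := this
    _ = _ := by field_simp

lemma abs_win'_le (hv : Continuous (Function.uncurry v)) (hτ : 0 < τ) (hδ : 0 < δ)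
    (hpos : ∀ s c, 0 < v s c)
    (hlip : ∀ s s' c, v s c ≤ Real.exp (|s - s'| / τ) * v s' c)
    (hone : ∀ p ∈ Z, ∀ s, |s - p.1| ≤ δ → v s p.2 = 1)
    (hδτ : Real.exp (2 * δ / τ) ≤ 2) (t c : ℝ) :
    |win' v δ t c| ≤ 2 / τ * (win v δ t c - Z.indicator 1 (t, c)) := by
  by_cases hZ : (t, c) ∈ Z
  · rw [win'_eq_zero hδ hone hZ, win_eq_one hδ hone hZ, indicator_of_mem hZ]
    simp
  · rw [indicator_of_notMem hZ, sub_zero]
    set a := v (t + δ) c with ha
    set b := v (t - δ) c with hb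
    have ha0 : 0 < a := hpos _ _
    have hb0 : 0 < b := hpos _ _
    have hω : Real.exp (-(2 * δ / τ)) * max a b ≤ win v δ t c := by
      rcases le_total a b with h | h
      · rw [max_eq_right h]; exact win_ge hv hτ hδ hpos hlip ⟨le_rfl, by linarith⟩
      · rw [max_eq_left h]; exact win_ge hv hτ hδ hpos hlip ⟨by linarith, le_rfl⟩
    have hab : |a - b| ≤ 2 * δ / τ * max a b := by
      have key : ∀ x y : ℝ, 0 < y → x ≤ Real.exp (2 * δ / τ) * y → y ≤ x →
          x - y ≤ 2 * δ / τ * x := by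
        intro x y hy hxy _
        have hx : 0 < x := by linarith
        have h1 : Real.exp (-(2 * δ / τ)) * x ≤ y := by
          rw [Real.exp_neg, inv_mul_le_iff₀ (Real.exp_pos _)]
          exact hxy
        have h2 : 1 - 2 * δ / τ ≤ Real.exp (-(2 * δ / τ)) := by
          have := Real.add_one_le_exp (-(2 * δ / τ))
          linarith
        nlinarith
      have e1 : |t + δ - (t - δ)| / τ = 2 * δ / τ := by
        rw [show t + δ - (t - δ) = 2 * δ by ring, abs_of_pos (by linarith)]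
      have e2 : |t - δ - (t + δ)| / τ = 2 * δ / τ := by
        rw [show t - δ - (t + δ) = -(2 * δ) by ring, abs_neg, abs_of_pos (by linarith)]
      have h1 := hlip (t + δ) (t - δ) c
      have h2 := hlip (t - δ) (t + δ) c
      rw [e1] at h1
      rw [e2] at h2
      rcases le_total a b with h | h
      · rw [max_eq_right h, abs_sub_comm, abs_of_nonneg (by linarith)]
        exact key b a ha0 h2 h
      · rw [max_eq_left h, abs_of_nonneg (by linarith)]
        exact key a b hb0 h1 h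
    have hmax : max a b ≤ Real.exp (2 * δ / τ) * win v δ t c := by
      rw [Real.exp_neg, inv_mul_le_iff₀ (Real.exp_pos _)] at hω
      exact hω
    have hom := win_pos hv hτ hδ hpos hlip t c
    have : win' v δ t c = 1 / (2 * δ) * (a - b) := rfl
    rw [this, abs_mul, abs_of_pos (by positivity : 0 < 1 / (2 * δ))]
    calc 1 / (2 * δ) * |a - b| ≤ 1 / (2 * δ) * (2 * δ / τ * max a b) := by gcongr
      _ = 1 / τ * max a b := by field_simp
      _ ≤ 1 / τ * (2 * win v δ t c) := by
          gcongr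
          exact hmax.trans (by gcongr)
      _ = 2 / τ * win v δ t c := by ring

end

end Pool.Agent.H71UF
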