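import Mathlib
import Pool.Agent.H71UF.Comp
import Pool.Agent.H71UF.Omega

set_option autoImplicit false

/-!
Bound of the limit weight by the counting function.
-/

open MeasureTheory Set Metric Filter
open scoped Real Topology ENNReal

namespace Pool.Agent.H71UF

/-- exponentials outside an interval -/
noncomputable def gapf (τ α β t : ℝ) : ℝ≥0∞ :=
  (Ici β).indicator (fun t => ENNReal.ofReal (Real.exp (-((t - β) / τ)))) t +
    (Iic α).indicator (fun t => ENNReal.ofReal (Real.exp (-((α - t) / τ)))) t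

lemma measurable_gapf (τ α β : ℝ) : Measurable (gapf τ α β) := by
  unfold gapf
  refine Measurable.add ?_ ?_
  · exact Measurable.indicator (by fun_prop) measurableSet_Ici
  · exact Measurable.indicator (by fun_prop) measurableSet_Iic

lemma lintegral_gapf {τ : ℝ} (hτ : 0 < τ) (α β : ℝ) :
    ∫⁻ t, gapf τ α β t = ENNReal.ofReal (2 * τ) := by
  unfold gapf
  rw [lintegral_add_left (Measurable.indicator (by fun_prop) measurableSet_Ici),
    lintegral_indicator measurableSet_Ici, lintegral_indicator measurableSet_Iic]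
  have h1 : ∫⁻ t in Ici β, ENNReal.ofReal (Real.exp (-((t - β) / τ))) = ENNReal.ofReal τ := by
    rw [← setLIntegral_congr (Ioi_ae_eq_Ici (μ := volume) (a := β))]
    have hneg : (-1 / τ) < 0 := by
      rw [neg_div]; simp [hτ]
    have e : ∀ t : ℝ, Real.exp (-((t - β) / τ)) = Real.exp (β / τ) * Real.exp (-1 / τ * t) := by
      intro t; rw [← Real.exp_add]; congr 1; ring
    simp only [e]
    rw [← ofReal_integral_eq_lintegral_ofReal]
    · rw [integral_const_mul, integral_exp_mul_Ioi hneg]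
      congr 1
      have : Real.exp (β / τ) * Real.exp (-1 / τ * β) = 1 := by
        rw [← Real.exp_add, show β / τ + -1 / τ * β = 0 by ring, Real.exp_zero]
      have h3 : Real.exp (β / τ) * (-Real.exp (-1 / τ * β) / (-1 / τ)) =
        (Real.exp (β / τ) * Real.exp (-1 / τ * β)) * τ := by
        field_simp
      rw [h3, this, one_mul]
    · exact (integrableOn_exp_mul_Ioi hneg β).const_mul _
    · exact Filter.Eventually.of_forall fun t => by positivity
  have h2 : ∫⁻ t in Iic α, ENNReal.ofReal (Real.exp (-((α - t) / τ))) = ENNReal.ofReal τ := by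
    have hpos : 0 < (1 / τ) := by positivity
    have e : ∀ t : ℝ, Real.exp (-((α - t) / τ)) = Real.exp (-(α / τ)) * Real.exp (1 / τ * t) := by
      intro t; rw [← Real.exp_add]; congr 1; ring
    simp only [e]
    rw [← ofReal_integral_eq_lintegral_ofReal]
    · rw [integral_const_mul, integral_exp_mul_Iic hpos]
      congr 1
      have : Real.exp (-(α / τ)) * Real.exp (1 / τ * α) = 1 := by
        rw [← Real.exp_add, show -(α / τ) + 1 / τ * α = 0 by ring, Real.exp_zero]
      have h3 : Real.exp (-(α / τ)) * (Real.exp (1 / τ * α) / (1 / τ)) =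
        (Real.exp (-(α / τ)) * Real.exp (1 / τ * α)) * τ := by
        field_simp
      rw [h3, this, one_mul]
    · exact (integrableOn_exp_mul_Iic hpos α).const_mul _
    · exact Filter.Eventually.of_forall fun t => by positivity
  rw [h1, h2, ← ENNReal.ofReal_add hτ.le hτ.le]
  congr 1; ring

/-- right end of the component of `x` -/
noncomputable def rend (K : Set ℝ) (x : ℝ) : ℝ := sSup {b | x ≤ b ∧ Icc x b ⊆ K}

/-- left end of the component of `x` -/
noncomputable def lend (K : Set ℝ) (x : ℝ) : ℝ := sInf {a | a ≤ x ∧ Icc a x ⊆ K}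

lemma gap_pointwise {K : Set ℝ} (hK1 : BddAbove K) (hK2 : BddBelow K) {τ x w0 t : ℝ}
    (hτ : 0 < τ) (hw0 : uIcc w0 x ⊆ K) (ht : t ∉ K) :
    ENNReal.ofReal (Real.exp (-(|t - w0| / τ))) ≤ gapf τ (lend K x) (rend K x) t := by
  have hxK : x ∈ K := hw0 right_mem_uIcc
  have hwK : w0 ∈ K := hw0 left_mem_uIcc
  have hne : t ≠ w0 := fun h => ht (h ▸ hwK)
  unfold gapf
  rcases lt_or_gt_of_ne hne with h | h
  · -- t < w0
    have hbdd : BddBelow {a | a ≤ x ∧ Icc a x ⊆ K} :=
      hK2.mono fun a ha => ha.2 ⟨le_rfl, ha.1⟩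
    have hx : x ∈ {a | a ≤ x ∧ Icc a x ⊆ K} := ⟨le_rfl, by simpa using hxK⟩
    have h1 : t ≤ lend K x := by
      refine le_csInf ⟨x, hx⟩ ?_
      rintro a ⟨ha1, ha2⟩
      by_contra hlt
      rw [not_le] at hlt
      rcases le_total t x with h2 | h2
      · exact ht (ha2 ⟨hlt.le, h2⟩)
      · exact ht (hw0 (mem_uIcc.2 (Or.inr ⟨h2, h.le⟩)))
    have h2 : lend K x ≤ w0 := by
      rcases le_total x w0 with h2 | h2
      · exact (csInf_le hbdd hx).trans h2
      · refine csInf_le hbdd ⟨h2, ?_⟩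
        rwa [uIcc_of_le h2] at hw0
    rw [indicator_of_mem (show t ∈ Iic (lend K x) from h1)]
    refine le_trans ?_ le_add_self
    apply ENNReal.ofReal_le_ofReal
    rw [Real.exp_le_exp, abs_of_neg (by linarith)]
    have : (lend K x - t) / τ ≤ -(t - w0) / τ := by
      gcongr; linarith
    linarith
  · have hbdd : BddAbove {b | x ≤ b ∧ Icc x b ⊆ K} :=
      hK1.mono fun a ha => ha.2 ⟨ha.1, le_rfl⟩
    have hx : x ∈ {b | x ≤ b ∧ Icc x b ⊆ K} := ⟨le_rfl, by simpa using hxK⟩
    have h1 : rend K x ≤ t := by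
      refine csSup_le ⟨x, hx⟩ ?_
      rintro b ⟨hb1, hb2⟩
      by_contra hlt
      rw [not_le] at hlt
      rcases le_total x t with h2 | h2
      · exact ht (hb2 ⟨h2, hlt.le⟩)
      · exact ht (hw0 (mem_uIcc.2 (Or.inl ⟨h.le, h2⟩)))
    have h2 : w0 ≤ rend K x := by
      rcases le_total w0 x with h2 | h2
      · exact h2.trans (le_csSup hbdd hx)
      · refine le_csSup hbdd ⟨h2, ?_⟩
        rwa [uIcc_comm, uIcc_of_le h2] at hw0
    rw [indicator_of_mem (show t ∈ Ici (rend K x) from h1)]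
    refine le_trans ?_ le_self_add
    apply ENNReal.ofReal_le_ofReal
    rw [Real.exp_le_exp, abs_of_pos (by linarith)]
    have : (t - rend K x) / τ ≤ (t - w0) / τ := by
      gcongr
    linarith

/-- exponential of minus the anisotropic distance -/
noncomputable def FF (τ : ℝ) (Z : Set (ℝ × ℝ)) (k : ℕ) (p : ℝ × ℝ) : ℝ≥0∞ :=
  ENNReal.ofReal (Real.exp (-rho τ k Z p.1 p.2))

/-- the limit -/
noncomputable def UU (τ : ℝ) (Z : Set (ℝ × ℝ)) (p : ℝ × ℝ) : ℝ≥0∞ := ⨅ k, FF τ Z k p

section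
variable {τ : ℝ} {Z : Set (ℝ × ℝ)}

lemma measurable_FF (k : ℕ) : Measurable (FF τ Z k) := by
  have h : Continuous fun p : ℝ × ℝ => rho τ k Z p.1 p.2 := continuous_rho
  unfold FF
  exact (Real.continuous_exp.comp h.neg).measurable.ennreal_ofReal

lemma measurable_UU : Measurable (UU τ Z) := by
  unfold UU
  exact Measurable.iInf fun k => measurable_FF k

lemma rho_mono (hτ : 0 < τ) (hZ : IsCompact Z) (hne : Z.Nonempty) {k l : ℕ} (hkl : k ≤ l)
    (t c : ℝ) : rho τ k Z t c ≤ rho τ l Z t c := by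
  obtain ⟨p, hp, h1, h2⟩ := exists_rho_eq hτ hZ hne t c (k := l)
  refine (rho_le hτ hp t c).trans (max_le h1 (le_trans ?_ h2))
  have : (k : ℝ) ≤ l := by exact_mod_cast hkl
  gcongr

lemma antitone_FF (hτ : 0 < τ) (hZ : IsCompact Z) (hne : Z.Nonempty) : Antitone (FF τ Z) := by
  intro k l hkl p
  unfold FF
  apply ENNReal.ofReal_le_ofReal
  rw [Real.exp_le_exp]
  linarith [rho_mono hτ hZ hne hkl p.1 p.2]

lemma FF_le_one (k : ℕ) (p : ℝ × ℝ) : FF τ Z k p ≤ 1 := by
  unfold FF
  rw [← ENNReal.ofReal_one]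
  apply ENNReal.ofReal_le_ofReal
  rw [Real.exp_le_one_iff]
  linarith [rho_nonneg (τ := τ) (k := k) (Z := Z) p.1 p.2]

lemma UU_le_one (p : ℝ × ℝ) : UU τ Z p ≤ 1 := (iInf_le _ 0).trans (FF_le_one 0 p)

lemma UU_bound (hτ : 0 < τ) (hZ : IsCompact Z) (hne : Z.Nonempty) (t c : ℝ) :
    UU τ Z (t, c) = 0 ∨ ∃ w0, (w0, c) ∈ Z ∧
      UU τ Z (t, c) ≤ ENNReal.ofReal (Real.exp (-(|t - w0| / τ))) := by
  by_cases h0 : UU τ Z (t, c) = 0
  · exact Or.inl h0
  right
  have htop : UU τ Z (t, c) ≠ ∞ := ne_top_of_le_ne_top ENNReal.one_ne_top (UU_le_one _)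
  set u := (UU τ Z (t, c)).toReal with hu
  have hu0 : 0 < u := ENNReal.toReal_pos h0 htop
  set M := -Real.log u with hM
  have hrho : ∀ k, rho τ k Z t c ≤ M := by
    intro k
    have h1 : UU τ Z (t, c) ≤ FF τ Z k (t, c) := iInf_le _ k
    have h2 : u ≤ Real.exp (-rho τ k Z t c) := by
      have e : FF τ Z k (t, c) = ENNReal.ofReal (Real.exp (-rho τ k Z t c)) := rfl
      rw [e] at h1
      have := ENNReal.toReal_mono ENNReal.ofReal_ne_top h1
      rwa [ENNReal.toReal_ofReal (Real.exp_pos _).le] at this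
    have h3 := Real.log_le_log hu0 h2
    rw [Real.log_exp] at h3
    linarith
  have hnonempty : (⋂ k : ℕ, (Z ∩ {p : ℝ × ℝ | |t - p.1| / τ ≤ M ∧ k * |c - p.2| ≤ M})).Nonempty := by
    have hcl : ∀ k : ℕ, IsClosed {p : ℝ × ℝ | |t - p.1| / τ ≤ M ∧ k * |c - p.2| ≤ M} := by
      intro k
      exact (isClosed_le (by fun_prop) continuous_const).and
        (isClosed_le (by fun_prop) continuous_const)
    refine IsCompact.nonempty_iInter_of_sequence_nonempty_isCompact_isClosed _ ?_ ?_ ?_ ?_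
    · rintro k p ⟨hp, h1, h2⟩
      refine ⟨hp, h1, le_trans ?_ h2⟩
      have : (k : ℝ) ≤ (k + 1 : ℕ) := by push_cast; linarith
      gcongr
    · intro k
      obtain ⟨p, hp, h1, h2⟩ := exists_rho_eq hτ hZ hne t c (k := k)
      exact ⟨p, hp, h1.trans (hrho k), h2.trans (hrho k)⟩
    · exact hZ.inter_right (hcl 0)
    · intro k
      exact hZ.isClosed.inter (hcl k)
  obtain ⟨p, hp⟩ := hnonempty
  rw [mem_iInter] at hp
  have hpc : p.2 = c := by
    by_contra hne2
    have hpos : 0 < |c - p.2| := abs_pos.2 (sub_ne_zero.2 (Ne.symm hne2))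
    obtain ⟨k, hk⟩ := exists_nat_gt (M / |c - p.2|)
    have h1 := (hp k).2.2
    rw [div_lt_iff₀ hpos] at hk
    linarith
  refine ⟨p.1, by rw [← hpc]; exact (hp 0).1, ?_⟩
  have h1 : |t - p.1| / τ ≤ M := (hp 0).2.1
  have h2 : u ≤ Real.exp (-(|t - p.1| / τ)) := by
    calc u = Real.exp (Real.log u) := (Real.exp_log hu0).symm
      _ ≤ _ := by rw [Real.exp_le_exp]; linarith
  calc UU τ Z (t, c) = ENNReal.ofReal u := (ENNReal.ofReal_toReal htop).symm
    _ ≤ _ := ENNReal.ofReal_le_ofReal h2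

end

end Pool.Agent.H71UF
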