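import Mathlib

set_option autoImplicit false

/-!
Green's theorem on the unit disc, for the form `S dξ`, `ξ = Re Φ`, `Φ` holomorphic.
-/

open MeasureTheory Set Metric Complex intervalIntegral
open scoped Real Topology ComplexConjugate

namespace Pool.Agent.H71UF

/-- the point `r e^{iθ}` -/
noncomputable def pt (p : ℝ × ℝ) : ℂ := p.1 * Complex.exp (p.2 * I)

lemma continuous_pt : Continuous pt := by
  unfold pt; fun_prop

lemma norm_pt (p : ℝ × ℝ) : ‖pt p‖ = |p.1| := by
  unfold pt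
  rw [norm_mul, Complex.norm_exp_ofReal_mul_I, mul_one, Complex.norm_real, Real.norm_eq_abs]

/-- derivative of `pt` -/
noncomputable def ptD (p : ℝ × ℝ) : ℝ × ℝ →L[ℝ] ℂ :=
  (ContinuousLinearMap.fst ℝ ℝ ℝ).smulRight (Complex.exp (p.2 * I)) +
    (ContinuousLinearMap.snd ℝ ℝ ℝ).smulRight (I * pt p)

lemma ptD_apply (p q : ℝ × ℝ) : ptD p q = q.1 * Complex.exp (p.2 * I) + q.2 * (I * pt p) := by
  simp [ptD]

lemma hasFDerivAt_expI (p : ℝ × ℝ) :
    HasFDerivAt (fun q : ℝ × ℝ => Complex.exp (q.2 * I))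
      ((ContinuousLinearMap.snd ℝ ℝ ℝ).smulRight (I * Complex.exp (p.2 * I))) p := by
  have h2 : HasFDerivAt (fun q : ℝ × ℝ => ((q.2 : ℝ) : ℂ))
      (Complex.ofRealCLM.comp (ContinuousLinearMap.snd ℝ ℝ ℝ)) p :=
    (Complex.ofRealCLM.hasFDerivAt).comp p hasFDerivAt_snd
  have h3 := (h2.mul_const I).cexp
  refine h3.congr_fderiv ?_
  apply ContinuousLinearMap.ext
  intro q
  simp
  ring

lemma hasFDerivAt_pt (p : ℝ × ℝ) : HasFDerivAt pt (ptD p) p := by
  have h1 : HasFDerivAt (fun q : ℝ × ℝ => ((q.1 : ℝ) : ℂ))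
      (Complex.ofRealCLM.comp (ContinuousLinearMap.fst ℝ ℝ ℝ)) p :=
    (Complex.ofRealCLM.hasFDerivAt).comp p hasFDerivAt_fst
  have h4 := h1.mul (hasFDerivAt_expI p)
  refine h4.congr_fderiv ?_
  apply ContinuousLinearMap.ext
  intro q
  rw [ptD_apply]
  simp [pt]
  ring


lemma hasFDerivAt_comp_pt {W : ℂ → ℂ} {w' : ℂ} {p : ℝ × ℝ} (h : HasDerivAt W w' (pt p)) :
    HasFDerivAt (fun q => W (pt q)) (w' • ptD p) p := by
  have h1 := (h.hasFDerivAt.restrictScalars ℝ).comp p (hasFDerivAt_pt p)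
  refine h1.congr_fderiv ?_
  apply ContinuousLinearMap.ext
  intro q
  simp [mul_comm]

lemma hasFDerivAt_F1 {S : ℂ → ℝ} {S' : ℂ →L[ℝ] ℝ} {W : ℂ → ℂ} {w' : ℂ} {p : ℝ × ℝ}
    (hS : HasFDerivAt S S' (pt p)) (h : HasDerivAt W w' (pt p)) :
    HasFDerivAt (fun q => S (pt q) * (I * pt q * W (pt q)).re)
      (S (pt p) • (Complex.reCLM.comp ((I * pt p) • (w' • ptD p) + (W (pt p)) • (I • ptD p)))
        + ((I * pt p * W (pt p)).re) • (S'.comp (ptD p))) p := by
  have h1 := hasFDerivAt_comp_pt h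
  have h2 : HasFDerivAt (fun q => I * pt q) (I • ptD p) p := (hasFDerivAt_pt p).const_mul I
  have h3 := h2.mul h1
  have h4 : HasFDerivAt (fun q => (I * pt q * W (pt q)).re)
      (Complex.reCLM.comp ((I * pt p) • (w' • ptD p) + (W (pt p)) • (I • ptD p))) p :=
    (Complex.reCLM.hasFDerivAt).comp p h3
  have h5 : HasFDerivAt (fun q => S (pt q)) (S'.comp (ptD p)) p := hS.comp p (hasFDerivAt_pt p)
  exact h5.mul h4

lemma hasFDerivAt_F2 {S : ℂ → ℝ} {S' : ℂ →L[ℝ] ℝ} {W : ℂ → ℂ} {w' : ℂ} {p : ℝ × ℝ}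
    (hS : HasFDerivAt S S' (pt p)) (h : HasDerivAt W w' (pt p)) :
    HasFDerivAt (fun q : ℝ × ℝ => S (pt q) * (Complex.exp (q.2 * I) * W (pt q)).re)
      (S (pt p) • (Complex.reCLM.comp ((Complex.exp (p.2 * I)) • (w' • ptD p) + (W (pt p)) •
        ((ContinuousLinearMap.snd ℝ ℝ ℝ).smulRight (I * Complex.exp (p.2 * I)))))
        + ((Complex.exp (p.2 * I) * W (pt p)).re) • (S'.comp (ptD p))) p := by
  have h1 := hasFDerivAt_comp_pt h
  have h3 := (hasFDerivAt_expI p).mul h1
  have h4 : HasFDerivAt (fun q : ℝ × ℝ => (Complex.exp (q.2 * I) * W (pt q)).re)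
      (Complex.reCLM.comp ((Complex.exp (p.2 * I)) • (w' • ptD p) + (W (pt p)) •
        ((ContinuousLinearMap.snd ℝ ℝ ℝ).smulRight (I * Complex.exp (p.2 * I))))) p :=
    (Complex.reCLM.hasFDerivAt).comp p h3
  have h5 : HasFDerivAt (fun q => S (pt q)) (S'.comp (ptD p)) p := hS.comp p (hasFDerivAt_pt p)
  exact h5.mul h4

lemma key_identity (S0 : ℝ) (S' : ℂ →L[ℝ] ℝ) (w w' : ℂ) (p : ℝ × ℝ) :
    (S0 • (Complex.reCLM.comp ((I * pt p) • (w' • ptD p) + w • (I • ptD p)))
        + ((I * pt p * w).re) • (S'.comp (ptD p))) (1, 0)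
    - (S0 • (Complex.reCLM.comp ((Complex.exp (p.2 * I)) • (w' • ptD p) + w •
        ((ContinuousLinearMap.snd ℝ ℝ ℝ).smulRight (I * Complex.exp (p.2 * I)))))
        + ((Complex.exp (p.2 * I) * w).re) • (S'.comp (ptD p))) (0, 1)
    = - (p.1 * S' (I * conj w)) := by
  set u := Complex.exp (p.2 * I) with hu
  have hpt : pt p = p.1 * u := rfl
  have hnu : u * conj u = 1 := by
    rw [Complex.mul_conj, Complex.normSq_eq_norm_sq, hu, Complex.norm_exp_ofReal_mul_I]; simp
  have e1 : ptD p (1, 0) = u := by simp [ptD_apply, hu]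
  have e2 : ptD p (0, 1) = I * (p.1 * u) := by simp [ptD_apply, hpt]
  simp only [add_apply, smul_apply,
    ContinuousLinearMap.comp_apply, e1, e2, hpt, ContinuousLinearMap.smulRight_apply,
    ContinuousLinearMap.coe_snd', smul_eq_mul, Complex.reCLM_apply, one_smul]
  have key : (I * (p.1 * u) * w).re * S' u - (u * w).re * S' (I * (p.1 * u)) =
      - (p.1 * S' (I * conj w)) := by
    have h1 : I * conj w = -(((I * u * w).re : ℂ) * u - ((u * w).re : ℂ) * (I * u)) := by
      have h2 : I * conj w = I * (conj (u * w)) * u := by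
        rw [map_mul]
        calc I * conj w = I * conj w * (u * conj u) := by rw [hnu, mul_one]
          _ = _ := by ring
      rw [h2]
      have h3 : conj (u * w) = ((u*w).re : ℂ) - ((u*w).im : ℂ) * I := by
        apply Complex.ext
        · simp
        · simp; ring
      have h4 : (I * u * w).re = - (u*w).im := by
        simp; ring
      rw [h3, h4]
      push_cast
      linear_combination (- (((u*w).im : ℂ)) * u) * Complex.I_sq
    have h5 : S' (I * conj w) = -((I * u * w).re * S' u - (u * w).re * S' (I * u)) := by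
      rw [h1, map_neg, map_sub]
      congr 2
      · rw [← Complex.real_smul, map_smul, smul_eq_mul]
      · rw [← Complex.real_smul, map_smul, smul_eq_mul]
    rw [h5]
    have h6 : S' (I * (p.1 * u)) = p.1 * S' (I * u) := by
      rw [show I * (p.1 * u) = (p.1 : ℝ) • (I * u) by rw [Complex.real_smul]; ring, map_smul,
        smul_eq_mul]
    have h7 : (I * (p.1 * u) * w).re = p.1 * (I * u * w).re := by
      rw [show I * (p.1 * u) * w = (p.1 : ℝ) * (I * u * w) by ring, Complex.re_ofReal_mul]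
    rw [h6, h7]; ring
  have key2 : (I * (↑p.1 * u) * (w' * u) + w * (I * u)).re =
    (u * (w' * (I * (↑p.1 * u))) + w * (I * u)).re := by
    congr 1; ring
  rw [key2]
  linarith [key]

/-- Green's theorem on the closed unit disc. -/
theorem green {Φ : ℂ → ℂ} {R : ℝ} (hR : 1 < R) (hΦ : DifferentiableOn ℂ Φ (ball 0 R))
    {S : ℂ → ℝ} {S' : ℂ → ℂ →L[ℝ] ℝ}
    (hS : ∀ z ∈ ball (0:ℂ) R, HasFDerivAt S (S' z) z) (hS' : ContinuousOn S' (ball 0 R)) :
    ∫ θ in (-π)..π, S (Complex.exp (θ * I)) * (I * Complex.exp (θ * I) *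
        deriv Φ (Complex.exp (θ * I))).re
      = - ∫ z in ball (0:ℂ) 1, S' z (I * conj (deriv Φ z)) := by
  set W := deriv Φ with hW
  have hWd : DifferentiableOn ℂ W (ball 0 R) := hΦ.deriv isOpen_ball
  have hWat : ∀ z ∈ ball (0:ℂ) R, HasDerivAt W (deriv W z) z := fun z hz =>
    ((hWd z hz).differentiableAt (isOpen_ball.mem_nhds hz)).hasDerivAt
  have hmem : ∀ p : ℝ × ℝ, p ∈ uIcc (0:ℝ) 1 ×ˢ uIcc (-π) π → pt p ∈ ball (0:ℂ) R := by
    intro p hp
    rw [mem_ball_zero_iff, norm_pt]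
    have := hp.1
    rw [uIcc_of_le zero_le_one] at this
    rw [abs_of_nonneg this.1]; linarith [this.2]
  have hmaps : MapsTo pt (uIcc (0:ℝ) 1 ×ˢ uIcc (-π) π) (ball (0:ℂ) R) := hmem
  have hWc : ContinuousOn W (ball 0 R) := hWd.continuousOn
  have hSc : ContinuousOn S (ball 0 R) := fun z hz => (hS z hz).continuousAt.continuousWithinAt
  have hWpt : ContinuousOn (fun p => W (pt p)) (uIcc (0:ℝ) 1 ×ˢ uIcc (-π) π) :=
    hWc.comp continuous_pt.continuousOn hmaps
  have hSpt : ContinuousOn (fun p => S (pt p)) (uIcc (0:ℝ) 1 ×ˢ uIcc (-π) π) :=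
    hSc.comp continuous_pt.continuousOn hmaps
  have hS'pt : ContinuousOn (fun p => S' (pt p)) (uIcc (0:ℝ) 1 ×ˢ uIcc (-π) π) :=
    hS'.comp continuous_pt.continuousOn hmaps
  have hexp : Continuous (fun p : ℝ × ℝ => Complex.exp (p.2 * I)) := by fun_prop
  have hint : ContinuousOn (fun p : ℝ × ℝ => - (p.1 * S' (pt p) (I * conj (W (pt p)))))
      (uIcc (0:ℝ) 1 ×ˢ uIcc (-π) π) := by
    refine (continuousOn_fst.mul (hS'pt.clm_apply ?_)).neg
    exact continuousOn_const.mul (Complex.continuous_conj.comp_continuousOn hWpt)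
  set f : ℝ × ℝ → ℝ := fun q => S (pt q) * (I * pt q * W (pt q)).re with hf
  set g : ℝ × ℝ → ℝ := fun q => -(S (pt q) * (Complex.exp (q.2 * I) * W (pt q)).re) with hg
  set f' : ℝ × ℝ → ℝ × ℝ →L[ℝ] ℝ := fun p =>
    (S (pt p) • (Complex.reCLM.comp ((I * pt p) • (deriv W (pt p) • ptD p) + (W (pt p)) • (I • ptD p)))
        + ((I * pt p * W (pt p)).re) • ((S' (pt p)).comp (ptD p))) with hf'
  set g' : ℝ × ℝ → ℝ × ℝ →L[ℝ] ℝ := fun p =>
    -(S (pt p) • (Complex.reCLM.comp ((Complex.exp (p.2 * I)) • (deriv W (pt p) • ptD p) + (W (pt p)) •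
        ((ContinuousLinearMap.snd ℝ ℝ ℝ).smulRight (I * Complex.exp (p.2 * I)))))
        + ((Complex.exp (p.2 * I) * W (pt p)).re) • ((S' (pt p)).comp (ptD p))) with hg'
  have hsum : ∀ p : ℝ × ℝ, f' p (1, 0) + g' p (0, 1) = - (p.1 * S' (pt p) (I * conj (W (pt p)))) := by
    intro p
    have := key_identity (S (pt p)) (S' (pt p)) (W (pt p)) (deriv W (pt p)) p
    rw [← this, hf', hg']
    simp only [neg_apply]
    ring
  have div := MeasureTheory.integral2_divergence_prod_of_hasFDerivAt_off_countable f g f' g'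
    0 (-π) 1 π ∅ countable_empty
    (by
      refine hSpt.mul (Complex.continuous_re.comp_continuousOn ?_)
      exact (continuousOn_const.mul continuous_pt.continuousOn).mul hWpt)
    (by
      refine (hSpt.mul (Complex.continuous_re.comp_continuousOn ?_)).neg
      exact hexp.continuousOn.mul hWpt)
    (by
      intro p hp
      have hp' : p ∈ uIcc (0:ℝ) 1 ×ˢ uIcc (-π) π :=
        ⟨Ioo_subset_Icc_self hp.1.1, Ioo_subset_Icc_self hp.1.2⟩
      exact hasFDerivAt_F1 (hS _ (hmem p hp')) (hWat _ (hmem p hp')))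
    (by
      intro p hp
      have hp' : p ∈ uIcc (0:ℝ) 1 ×ˢ uIcc (-π) π :=
        ⟨Ioo_subset_Icc_self hp.1.1, Ioo_subset_Icc_self hp.1.2⟩
      exact (hasFDerivAt_F2 (hS _ (hmem p hp')) (hWat _ (hmem p hp'))).neg)
    (by
      have : (fun p : ℝ × ℝ => f' p (1, 0) + g' p (0, 1)) =
        fun p => - (p.1 * S' (pt p) (I * conj (W (pt p)))) := funext hsum
      rw [this]
      exact hint.integrableOn_compact (isCompact_uIcc.prod isCompact_uIcc))
  have hpi : Complex.exp ((π : ℝ) * I) = Complex.exp (((-π : ℝ) : ℂ) * I) := by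
    rw [Complex.ofReal_neg, neg_mul, Complex.exp_neg, Complex.exp_pi_mul_I]; norm_num
  have hgper : ∀ x : ℝ, g (x, π) = g (x, -π) := by
    intro x
    simp only [hg, pt]
    rw [hpi]
  have hfzero : ∀ y : ℝ, f (0, y) = 0 := by
    intro y
    simp [hf, pt]
  have hfone : ∀ y : ℝ, f (1, y) = S (Complex.exp (y * I)) * (I * Complex.exp (y * I) *
        W (Complex.exp (y * I))).re := by
    intro y
    simp [hf, pt]
  simp only [hgper, hfzero, hfone, sub_self, zero_add, intervalIntegral.integral_zero, sub_zero]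
    at div
  rw [← div]
  simp only [hsum]
  -- polar coordinates
  have hpolar := Complex.integral_comp_polarCoord_symm
    (fun z => (ball (0:ℂ) 1).indicator (fun z => S' z (I * conj (W z))) z)
  rw [MeasureTheory.integral_indicator measurableSet_ball] at hpolar
  rw [← hpolar]
  have hT : MeasurableSet (polarCoord.target) := polarCoord.open_target.measurableSet
  have hP : MeasurableSet (Ioo (0:ℝ) 1 ×ˢ Ioo (-π) π) := measurableSet_Ioo.prod measurableSet_Ioo
  have e1 : ∫ p in polarCoord.target, p.1 • (ball (0:ℂ) 1).indicator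
      (fun z => S' z (I * conj (W z))) (Complex.polarCoord.symm p)
      = ∫ p in Ioo (0:ℝ) 1 ×ˢ Ioo (-π) π, p.1 * S' (pt p) (I * conj (W (pt p))) := by
    have hpt : ∀ p, Complex.polarCoord.symm p = pt p := by
      intro p
      rw [Complex.polarCoord_symm_apply, pt, Complex.exp_mul_I]
      push_cast
      ring
    simp only [hpt]
    rw [← MeasureTheory.integral_indicator hT, ← MeasureTheory.integral_indicator hP]
    congr 1
    funext p
    by_cases h1 : p ∈ polarCoord.target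
    · rw [indicator_of_mem h1]
      have h1' : 0 < p.1 ∧ -π < p.2 ∧ p.2 < π := by
        rw [polarCoord_target] at h1
        exact ⟨h1.1, h1.2.1, h1.2.2⟩
      by_cases h2 : p.1 < 1
      · rw [indicator_of_mem, indicator_of_mem, smul_eq_mul]
        · exact ⟨⟨h1'.1, h2⟩, h1'.2.1, h1'.2.2⟩
        · rw [mem_ball_zero_iff, norm_pt, abs_of_pos h1'.1]; exact h2
      · rw [indicator_of_notMem, indicator_of_notMem, smul_zero]
        · intro h3; exact h2 h3.1.2
        · rw [mem_ball_zero_iff, norm_pt, abs_of_pos h1'.1]; exact h2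
    · rw [indicator_of_notMem h1, indicator_of_notMem]
      intro h3
      apply h1
      rw [polarCoord_target]
      exact ⟨h3.1.1, h3.2⟩
  rw [e1]
  have hint2 : IntegrableOn (fun p : ℝ × ℝ => p.1 * S' (pt p) (I * conj (W (pt p))))
      (Ioo (0:ℝ) 1 ×ˢ Ioo (-π) π) (volume.prod volume) := by
    have := (hint.integrableOn_compact (μ := volume) (isCompact_uIcc.prod isCompact_uIcc)).neg
    refine IntegrableOn.mono_set (t := uIcc (0:ℝ) 1 ×ˢ uIcc (-π) π) ?_ ?_
    · refine this.congr ?_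
      filter_upwards with p
      simp
    · rw [uIcc_of_le zero_le_one, uIcc_of_le (by linarith [Real.pi_pos])]
      exact prod_mono Ioo_subset_Icc_self Ioo_subset_Icc_self
  rw [Measure.volume_eq_prod, setIntegral_prod _ hint2]
  rw [intervalIntegral.integral_of_le zero_le_one, integral_Ioc_eq_integral_Ioo,
    ← MeasureTheory.integral_neg]
  congr 1
  funext x
  rw [intervalIntegral.integral_of_le (by linarith [Real.pi_pos]), integral_Ioc_eq_integral_Ioo,
    ← MeasureTheory.integral_neg]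

end Pool.Agent.H71UF
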