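import Mathlib

set_option autoImplicit false

/-!
The potential `s = 2 P / M - 1`, `P(t,e) = ∫_{c0}^e ω(t,c) dc`, `M(t) = P(t,c1)`.
-/

open MeasureTheory Set Metric intervalIntegral
open scoped Real Topology

namespace Pool.Agent.H71UF

section
variable {w w' : ℝ → ℝ → ℝ} {c0 c1 : ℝ}

lemma hasDerivAt_param (hw : Continuous (Function.uncurry w)) (hw' : Continuous (Function.uncurry w'))
    (hd : ∀ t c, HasDerivAt (fun t => w t c) (w' t c) t) (a b t : ℝ) :
    HasDerivAt (fun t => ∫ c in a..b, w t c) (∫ c in a..b, w' t c) t := by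
  -- a bound for `w'` on the compact set `[t-1,t+1] × [a,b]`
  have hcomp : IsCompact (closedBall t 1 ×ˢ uIcc a b) := (isCompact_closedBall t 1).prod isCompact_uIcc
  obtain ⟨C, hC⟩ := hcomp.exists_bound_of_continuousOn hw'.continuousOn
  have key := hasDerivAt_integral_of_dominated_loc_of_deriv_le (𝕜 := ℝ) (μ := volume)
    (F := w) (F' := w') (x₀ := t) (a := a) (b := b) (s := ball t 1) (bound := fun _ => C)
    (ball_mem_nhds t one_pos)
    (by
      filter_upwards with x
      exact (hw.comp (by fun_prop : Continuous fun c : ℝ => (x, c))).aestronglyMeasurable)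
    ((hw.comp (by fun_prop : Continuous fun c : ℝ => (t, c))).intervalIntegrable a b)
    ((hw'.comp (by fun_prop : Continuous fun c : ℝ => (t, c))).aestronglyMeasurable)
    (by
      filter_upwards with c hc x hx
      exact hC (x, c) ⟨ball_subset_closedBall hx, uIoc_subset_uIcc hc⟩)
    intervalIntegrable_const
    (by
      filter_upwards with c hc x hx
      exact hd x c)
  exact key.2


/-- `P(t,e) = ∫_{c0}^e w(t,c) dc` -/
noncomputable def PP (w : ℝ → ℝ → ℝ) (c0 : ℝ) (t e : ℝ) : ℝ := ∫ c in c0..e, w t c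

lemma continuous_PP (hw : Continuous (Function.uncurry w)) :
    Continuous (Function.uncurry (PP w c0)) := by
  unfold PP
  exact intervalIntegral.continuous_parametric_intervalIntegral_of_continuous
    (X := ℝ × ℝ) (f := fun p c => w p.1 c) (s := fun p => p.2)
    (hw.comp (by fun_prop : Continuous fun q : (ℝ × ℝ) × ℝ => (q.1.1, q.2))) continuous_snd

/-- the potential -/
noncomputable def ss (w : ℝ → ℝ → ℝ) (c0 c1 : ℝ) (p : ℝ × ℝ) : ℝ :=
  2 * PP w c0 p.1 p.2 / PP w c0 p.1 c1 - 1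

/-- its `t`-derivative -/
noncomputable def ss1 (w w' : ℝ → ℝ → ℝ) (c0 c1 : ℝ) (p : ℝ × ℝ) : ℝ :=
  2 * (PP w' c0 p.1 p.2 * PP w c0 p.1 c1 - PP w c0 p.1 p.2 * PP w' c0 p.1 c1)
    / (PP w c0 p.1 c1) ^ 2

/-- its `e`-derivative -/
noncomputable def ss2 (w : ℝ → ℝ → ℝ) (c0 c1 : ℝ) (p : ℝ × ℝ) : ℝ :=
  2 * w p.1 p.2 / PP w c0 p.1 c1

lemma PP_pos (hw : Continuous (Function.uncurry w)) (hpos : ∀ t c, 0 < w t c) (hc : c0 < c1)
    (t : ℝ) : 0 < PP w c0 t c1 := by
  unfold PP
  exact intervalIntegral_pos_of_pos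
    ((hw.comp (by fun_prop : Continuous fun c : ℝ => (t, c))).intervalIntegrable _ _)
    (fun c => hpos t c) hc

lemma continuous_ss1 (hw : Continuous (Function.uncurry w)) (hw' : Continuous (Function.uncurry w'))
    (hpos : ∀ t c, 0 < w t c) (hc : c0 < c1) : Continuous (ss1 w w' c0 c1) := by
  unfold ss1
  have h1 : Continuous fun p : ℝ × ℝ => PP w c0 p.1 p.2 := continuous_PP hw
  have h2 : Continuous fun p : ℝ × ℝ => PP w' c0 p.1 p.2 := continuous_PP hw'
  have h3 : Continuous fun p : ℝ × ℝ => PP w c0 p.1 c1 :=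
    h1.comp (by fun_prop : Continuous fun p : ℝ × ℝ => (p.1, c1))
  have h4 : Continuous fun p : ℝ × ℝ => PP w' c0 p.1 c1 :=
    h2.comp (by fun_prop : Continuous fun p : ℝ × ℝ => (p.1, c1))
  refine Continuous.div (by fun_prop) (by fun_prop) ?_
  intro p
  exact pow_ne_zero 2 (PP_pos hw hpos hc p.1).ne'

lemma continuous_ss2 (hw : Continuous (Function.uncurry w))
    (hpos : ∀ t c, 0 < w t c) (hc : c0 < c1) : Continuous (ss2 w c0 c1) := by
  unfold ss2
  have h1 : Continuous fun p : ℝ × ℝ => PP w c0 p.1 p.2 := continuous_PP hw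
  have h3 : Continuous fun p : ℝ × ℝ => PP w c0 p.1 c1 :=
    h1.comp (by fun_prop : Continuous fun p : ℝ × ℝ => (p.1, c1))
  have h5 : Continuous fun p : ℝ × ℝ => w p.1 p.2 := hw
  refine Continuous.div (by fun_prop) (by fun_prop) ?_
  intro p
  exact (PP_pos hw hpos hc p.1).ne'

lemma hasFDerivAt_ss (hw : Continuous (Function.uncurry w)) (hw' : Continuous (Function.uncurry w'))
    (hd : ∀ t c, HasDerivAt (fun t => w t c) (w' t c) t)
    (hpos : ∀ t c, 0 < w t c) (hc : c0 < c1) (p : ℝ × ℝ) :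
    HasFDerivAt (ss w c0 c1) ((ss1 w w' c0 c1 p) • ContinuousLinearMap.fst ℝ ℝ ℝ +
      (ss2 w c0 c1 p) • ContinuousLinearMap.snd ℝ ℝ ℝ) p := by
  have h1 : ∀ t e, HasDerivAt (fun t => ss w c0 c1 (t, e)) (ss1 w w' c0 c1 (t, e)) t := by
    intro t e
    unfold ss ss1
    have a1 : HasDerivAt (fun t => PP w c0 t e) (PP w' c0 t e) t := hasDerivAt_param hw hw' hd c0 e t
    have a2 : HasDerivAt (fun t => PP w c0 t c1) (PP w' c0 t c1) t :=
      hasDerivAt_param hw hw' hd c0 c1 t
    have := ((a1.const_mul 2).div a2 (PP_pos hw hpos hc t).ne').sub_const 1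
    refine this.congr_deriv ?_
    ring
  have h2 : ∀ t e, HasDerivAt (fun e => ss w c0 c1 (t, e)) (ss2 w c0 c1 (t, e)) e := by
    intro t e
    unfold ss ss2
    have hwt : Continuous fun c : ℝ => w t c :=
      hw.comp (by fun_prop : Continuous fun c : ℝ => (t, c))
    have a1 : HasDerivAt (fun e => PP w c0 t e) (w t e) e :=
      intervalIntegral.integral_hasDerivAt_right (hwt.intervalIntegrable _ _)
        (hwt.stronglyMeasurableAtFilter _ _) hwt.continuousAt
    exact ((a1.const_mul 2).div_const (PP w c0 t c1)).sub_const 1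
  have key := hasStrictFDerivAt_uncurry_coprod (𝕜 := ℝ) (u := p)
    (f := fun t e => ss w c0 c1 (t, e))
    (f₁ := fun t e => (ss1 w w' c0 c1 (t, e)) • ContinuousLinearMap.id ℝ ℝ)
    (f₂ := fun t e => (ss2 w c0 c1 (t, e)) • ContinuousLinearMap.id ℝ ℝ)
    (by
      filter_upwards with v
      refine (h1 v.1 v.2).hasFDerivAt.congr_fderiv ?_
      ext
      simp [Function.HasUncurry.uncurry])
    (by
      filter_upwards with v
      refine (h2 v.1 v.2).hasFDerivAt.congr_fderiv ?_
      ext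
      simp [Function.HasUncurry.uncurry])
    (((continuous_ss1 hw hw' hpos hc).smul continuous_const).continuousAt)
    (((continuous_ss2 hw hpos hc).smul continuous_const).continuousAt)
  refine key.hasFDerivAt.congr_fderiv ?_
  ext <;> simp [Function.HasUncurry.uncurry]

/-- `A(t) = ∫_{c0}^{c1} |w'(t,c)| dc` -/
noncomputable def AA (w' : ℝ → ℝ → ℝ) (c0 c1 : ℝ) (t : ℝ) : ℝ := ∫ c in c0..c1, |w' t c|

lemma continuous_AA (hw' : Continuous (Function.uncurry w')) : Continuous (AA w' c0 c1) := by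
  unfold AA
  exact intervalIntegral.continuous_parametric_intervalIntegral_of_continuous'
    (f := fun t c => |w' t c|) (hw'.abs) c0 c1

lemma PP_nonneg_le (hw : Continuous (Function.uncurry w)) (hpos : ∀ t c, 0 < w t c)
    {t e : ℝ} (he : e ∈ Icc c0 c1) : 0 ≤ PP w c0 t e ∧ PP w c0 t e ≤ PP w c0 t c1 := by
  have hwt : Continuous fun c : ℝ => w t c :=
      hw.comp (by fun_prop : Continuous fun c : ℝ => (t, c))
  refine ⟨integral_nonneg he.1 (fun c _ => (hpos t c).le), ?_⟩
  have : PP w c0 t c1 = PP w c0 t e + ∫ c in e..c1, w t c :=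
    (integral_add_adjacent_intervals (hwt.intervalIntegrable _ _)
      (hwt.intervalIntegrable _ _)).symm
  have h2 : 0 ≤ ∫ c in e..c1, w t c := integral_nonneg he.2 (fun c _ => (hpos t c).le)
  linarith

lemma abs_ss_le (hw : Continuous (Function.uncurry w)) (hpos : ∀ t c, 0 < w t c) (hc : c0 < c1)
    {t e : ℝ} (he : e ∈ Icc c0 c1) : |ss w c0 c1 (t, e)| ≤ 1 := by
  obtain ⟨h1, h2⟩ := PP_nonneg_le hw hpos he (t := t)
  have hM := PP_pos hw hpos hc t
  unfold ss
  simp only
  rw [abs_le]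
  constructor
  · have : 0 ≤ 2 * PP w c0 t e / PP w c0 t c1 := by positivity
    linarith
  · have : 2 * PP w c0 t e / PP w c0 t c1 ≤ 2 := by
      rw [div_le_iff₀ hM]; linarith
    linarith

lemma abs_ss1_le (hw : Continuous (Function.uncurry w)) (hw' : Continuous (Function.uncurry w'))
    (hpos : ∀ t c, 0 < w t c) (hc : c0 < c1)
    {t e : ℝ} (he : e ∈ Icc c0 c1) :
    |ss1 w w' c0 c1 (t, e)| ≤ 2 * AA w' c0 c1 t / PP w c0 t c1 := by
  obtain ⟨h1, h2⟩ := PP_nonneg_le hw hpos he (t := t)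
  have hM := PP_pos hw hpos hc t
  have hwt : Continuous fun c : ℝ => w' t c :=
      hw'.comp (by fun_prop : Continuous fun c : ℝ => (t, c))
  set M := PP w c0 t c1 with hMdef
  set P := PP w c0 t e with hPdef
  have hsplit : PP w' c0 t c1 = PP w' c0 t e + ∫ c in e..c1, w' t c :=
    (integral_add_adjacent_intervals (hwt.intervalIntegrable _ _)
      (hwt.intervalIntegrable _ _)).symm
  have hsplitA : AA w' c0 c1 t = (∫ c in c0..e, |w' t c|) + ∫ c in e..c1, |w' t c| :=
    (integral_add_adjacent_intervals (hwt.abs.intervalIntegrable _ _)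
      (hwt.abs.intervalIntegrable _ _)).symm
  have b1 : |PP w' c0 t e| ≤ ∫ c in c0..e, |w' t c| := by
    unfold PP
    exact abs_integral_le_integral_abs he.1
  have b2 : |∫ c in e..c1, w' t c| ≤ ∫ c in e..c1, |w' t c| := abs_integral_le_integral_abs he.2
  unfold ss1
  simp only
  rw [← hMdef, ← hPdef, abs_div, abs_of_pos (pow_pos hM 2), abs_mul, abs_two]
  rw [div_le_div_iff₀ (pow_pos hM 2) hM]
  have b3 : |PP w' c0 t e * M - P * PP w' c0 t c1| ≤ AA w' c0 c1 t * M := by
    have : PP w' c0 t e * M - P * PP w' c0 t c1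
      = PP w' c0 t e * (M - P) - P * ∫ c in e..c1, w' t c := by rw [hsplit]; ring
    rw [this]
    calc |PP w' c0 t e * (M - P) - P * ∫ c in e..c1, w' t c|
        ≤ |PP w' c0 t e * (M - P)| + |P * ∫ c in e..c1, w' t c| := abs_sub _ _
      _ = |PP w' c0 t e| * (M - P) + P * |∫ c in e..c1, w' t c| := by
          rw [abs_mul, abs_mul, abs_of_nonneg h1, abs_of_nonneg (by linarith : 0 ≤ M - P)]
      _ ≤ (∫ c in c0..e, |w' t c|) * M + M * ∫ c in e..c1, |w' t c| := by
          have i1 : 0 ≤ |PP w' c0 t e| := abs_nonneg _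
          have i2 : 0 ≤ |∫ c in e..c1, w' t c| := abs_nonneg _
          gcongr
          all_goals linarith
      _ = AA w' c0 c1 t * M := by rw [hsplitA]; ring
  nlinarith [b3, hM]

end

end Pool.Agent.H71UF
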