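import Mathlib
import Pool.Agent.H71UF.Green
import Pool.Agent.H71UF.Area
import Pool.Agent.H71UF.Pot

set_option autoImplicit false

/-!
The main inequality.
-/

open MeasureTheory Set Metric Complex
open scoped Real Topology ComplexConjugate ENNReal

namespace Pool.Agent.H71UF

/-- pointwise algebra -/
lemma pointwise_alg {M A a b s1 r : ℝ} (hM : 0 < M) (hA : 0 ≤ A) (hAM : A ≤ M / (2 * π))
    (hr : |r| ≤ b * a) (hs1 : |s1| ≤ 2 * A / M) :
    (2 / π) * (b * a) - (1 / (2 * π) * (M / π + 5 / 2 * A)) * b ^ 2 ≤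
      s1 * r + 2 / M * a ^ 2 := by
  have hpi := Real.pi_pos
  have hba : 0 ≤ b * a := le_trans (abs_nonneg _) hr
  have h1 : -(2 * A / M * (b * a)) ≤ s1 * r := by
    have : |s1 * r| ≤ 2 * A / M * (b * a) := by
      rw [abs_mul]; exact mul_le_mul hs1 hr (abs_nonneg _) (by positivity)
    exact (abs_le.1 this).1
  set lam := M / (2 * π) + A / 2 with hlam
  have h2 : 0 ≤ 2 / M * (a - lam * b) ^ 2 := by positivity
  have h3 : 2 / M * (a - lam * b) ^ 2 = 2 / M * a ^ 2 - (4 * lam / M) * (b * a)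
      + (2 * lam ^ 2 / M) * b ^ 2 := by ring
  have h4 : 4 * lam / M = 2 / π + 2 * A / M := by
    rw [hlam]; field_simp; ring
  have h5 : 2 * lam ^ 2 / M ≤ 1 / (2 * π) * (M / π + 5 / 2 * A) := by
    rw [hlam]
    have : 2 * (M / (2 * π) + A / 2) ^ 2 / M = M / (2 * π ^ 2) + A / π + A * A / (2 * M) := by
      field_simp; ring
    rw [this]
    have h6 : A * A / (2 * M) ≤ A / (4 * π) := by
      rw [div_le_div_iff₀ (by positivity) (by positivity)]
      have : A * (2 * π) ≤ M := by
        rw [le_div_iff₀ (by positivity)] at hAM; exact hAM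
      nlinarith
    have h7 : 1 / (2 * π) * (M / π + 5 / 2 * A) = M / (2 * π ^ 2) + A / π + A / (4 * π) := by
      field_simp; ring
    rw [h7]; linarith
  have h8 : (2 * lam ^ 2 / M) * b ^ 2 ≤ 1 / (2 * π) * (M / π + 5 / 2 * A) * b ^ 2 :=
    mul_le_mul_of_nonneg_right h5 (sq_nonneg _)
  rw [h4] at h3
  nlinarith [h1, h2, h3, h8]

section
variable {L Φ : ℂ → ℂ} {R : ℝ}

lemma hasDerivAt_of_ball (hL : DifferentiableOn ℂ L (ball 0 R)) {z : ℂ} (hz : z ∈ ball (0:ℂ) R) :
    HasDerivAt L (deriv L z) z :=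
  ((hL z hz).differentiableAt (isOpen_ball.mem_nhds hz)).hasDerivAt

lemma continuousOn_deriv_of_ball (hL : DifferentiableOn ℂ L (ball 0 R)) :
    ContinuousOn (deriv L) (ball 0 R) := (hL.deriv isOpen_ball).continuousOn

lemma continuousOn_of_ball (hR : 1 < R) {E : Type*} [TopologicalSpace E] {f : ℂ → E}
    (hf : ContinuousOn f (ball 0 R)) : ContinuousOn f (closedBall 0 1) :=
  hf.mono (closedBall_subset_ball hR)

/-- integrability on the disc -/
lemma integrableOn_disc {f : ℂ → ℝ} (hf : ContinuousOn f (closedBall 0 1)) :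
    IntegrableOn f (ball (0:ℂ) 1) :=
  (hf.integrableOn_compact (isCompact_closedBall _ _)).mono_set ball_subset_closedBall

/-- the real-linear map `v ↦ Re (a v)` -/
noncomputable def reD (a : ℂ) : ℂ →L[ℝ] ℝ := Complex.reCLM.comp (a • ContinuousLinearMap.id ℝ ℂ)

/-- the real-linear map `v ↦ Im (a v)` -/
noncomputable def imD (a : ℂ) : ℂ →L[ℝ] ℝ := Complex.imCLM.comp (a • ContinuousLinearMap.id ℝ ℂ)

lemma reD_apply (a v : ℂ) : reD a v = (a * v).re := by simp [reD]
lemma imD_apply (a v : ℂ) : imD a v = (a * v).im := by simp [imD]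

lemma continuous_reD : Continuous reD := by
  unfold reD
  exact continuous_const.clm_comp (continuous_id.smul continuous_const)

lemma continuous_imD : Continuous imD := by
  unfold imD
  exact continuous_const.clm_comp (continuous_id.smul continuous_const)

lemma hasFDerivAt_re {z a : ℂ} (h : HasDerivAt L a z) :
    HasFDerivAt (fun z => (L z).re) (reD a) z := by
  have h3 := (Complex.reCLM).hasFDerivAt.comp z (h.hasFDerivAt.restrictScalars ℝ)
  refine h3.congr_fderiv ?_
  apply ContinuousLinearMap.ext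
  intro v
  rw [reD_apply]
  simp [mul_comm]

lemma hasFDerivAt_im {z a : ℂ} (h : HasDerivAt L a z) :
    HasFDerivAt (fun z => (L z).im) (imD a) z := by
  have h3 := (Complex.imCLM).hasFDerivAt.comp z (h.hasFDerivAt.restrictScalars ℝ)
  refine h3.congr_fderiv ?_
  apply ContinuousLinearMap.ext
  intro v
  rw [imD_apply]
  simp [mul_comm]

/-- Green for `x dη` -/
lemma green_x_eta (hR : 1 < R) (hL : DifferentiableOn ℂ L (ball 0 R))
    (hΦ : DifferentiableOn ℂ Φ (ball 0 R)) :
    ∫ θ in (-π)..π, (L (Complex.exp (θ * I))).re * (I * Complex.exp (θ * I) *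
        deriv Φ (Complex.exp (θ * I))).im
      = ∫ z in ball (0:ℂ) 1, (deriv L z * conj (deriv Φ z)).re := by
  have hd : deriv (fun z => -I * Φ z) = fun z => -I * deriv Φ z := by
    funext z; exact deriv_const_mul_field (-I)
  have h := green (Φ := fun z => -I * Φ z) (S := fun z => (L z).re)
    (S' := fun z => reD (deriv L z)) hR (hΦ.const_mul (-I))
    (fun z hz => hasFDerivAt_re (hasDerivAt_of_ball hL hz))
    (continuous_reD.comp_continuousOn (continuousOn_deriv_of_ball hL))
  rw [hd] at h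
  simp only [reD_apply] at h
  have e1 : ∀ w : ℂ, (I * w * (-I * deriv Φ w)).re = (I * w * deriv Φ w).im := by
    intro w
    have : I * w * (-I * deriv Φ w) = w * deriv Φ w := by
      linear_combination (- w * deriv Φ w) * Complex.I_sq
    rw [this]
    have : I * w * deriv Φ w = I * (w * deriv Φ w) := by ring
    rw [this]; simp
  have e2 : ∀ z : ℂ, (deriv L z * (I * conj (-I * deriv Φ z))).re
      = - (deriv L z * conj (deriv Φ z)).re := by
    intro z
    have : deriv L z * (I * conj (-I * deriv Φ z)) = - (deriv L z * conj (deriv Φ z)) := by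
      rw [map_mul, map_neg, Complex.conj_I]
      linear_combination (deriv L z * conj (deriv Φ z)) * Complex.I_sq
    rw [this]; simp
  simp only [e1, e2] at h
  rw [h, MeasureTheory.integral_neg, neg_neg]

end


section
variable {L Φ : ℂ → ℂ} {R : ℝ}

/-- `Y = ∫_D |L'| |Φ'|` -/
noncomputable def YY (L Φ : ℂ → ℂ) : ℝ := ∫ z in ball (0:ℂ) 1, ‖deriv L z‖ * ‖deriv Φ z‖

lemma integrable_YY (hR : 1 < R) (hL : DifferentiableOn ℂ L (ball 0 R))
    (hΦ : DifferentiableOn ℂ Φ (ball 0 R)) :
    IntegrableOn (fun z => ‖deriv L z‖ * ‖deriv Φ z‖) (ball (0:ℂ) 1) :=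
  integrableOn_disc (continuousOn_of_ball hR
    ((continuousOn_deriv_of_ball hL).norm.mul (continuousOn_deriv_of_ball hΦ).norm))

lemma abs_x_eta_le (hR : 1 < R) (hL : DifferentiableOn ℂ L (ball 0 R))
    (hΦ : DifferentiableOn ℂ Φ (ball 0 R)) :
    |∫ θ in (-π)..π, (L (Complex.exp (θ * I))).re * (I * Complex.exp (θ * I) *
        deriv Φ (Complex.exp (θ * I))).im| ≤ YY L Φ := by
  rw [green_x_eta hR hL hΦ]
  refine (abs_integral_le_integral_abs (μ := volume.restrict (ball (0:ℂ) 1))).trans ?_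
  refine setIntegral_mono_on ?_ (integrable_YY hR hL hΦ) measurableSet_ball ?_
  · refine (integrableOn_disc (continuousOn_of_ball hR ?_)).abs
    exact Complex.continuous_re.comp_continuousOn ((continuousOn_deriv_of_ball hL).mul
      (Complex.continuous_conj.comp_continuousOn (continuousOn_deriv_of_ball hΦ)))
  · intro z _
    calc |(deriv L z * conj (deriv Φ z)).re| ≤ ‖deriv L z * conj (deriv Φ z)‖ :=
          Complex.abs_re_le_norm _
      _ = _ := by rw [norm_mul, Complex.norm_conj]

lemma volume_ZZ_le_YY (hR : 1 < R) (hL : DifferentiableOn ℂ L (ball 0 R))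
    (hΦ : DifferentiableOn ℂ Φ (ball 0 R)) : (volume (ZZ L Φ)).toReal ≤ YY L Φ := by
  have h := volume_ZZ_le hR hL hΦ
  rw [← ofReal_integral_eq_lintegral_ofReal (integrable_YY hR hL hΦ)
    (Filter.Eventually.of_forall fun z => by positivity)] at h
  have h0 : 0 ≤ YY L Φ := integral_nonneg fun z => by positivity
  calc (volume (ZZ L Φ)).toReal ≤ (ENNReal.ofReal (YY L Φ)).toReal :=
        ENNReal.toReal_mono ENNReal.ofReal_ne_top h
    _ = YY L Φ := ENNReal.toReal_ofReal h0

/-- the area inequality in Bochner form -/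
lemma area_bochner (hR : 1 < R) (hL : DifferentiableOn ℂ L (ball 0 R))
    (hinj : InjOn (fun z => Complex.exp (L z)) (ball 0 1)) {t0 t1 : ℝ} (ht : t0 ≤ t1)
    (hx : ∀ z ∈ closedBall (0:ℂ) 1, (L z).re ∈ Icc t0 t1) {g : ℝ → ℝ} (hg : Continuous g)
    (hg0 : ∀ t, 0 ≤ g t) :
    ∫ z in ball (0:ℂ) 1, g (L z).re * ‖deriv L z‖ ^ 2 ≤ 2 * π * ∫ t in t0..t1, g t := by
  have hLc : ContinuousOn L (ball 0 R) := hL.continuousOn
  have h := area_univ (U := ball (0:ℂ) 1) isOpen_ball (hL.mono (ball_subset_ball hR.le)) hinj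
    ((Icc t0 t1).indicator (fun t => ENNReal.ofReal (g t)))
    ((hg.measurable.ennreal_ofReal).indicator measurableSet_Icc)
  rw [lintegral_indicator measurableSet_Icc] at h
  have hint1 : IntegrableOn (fun z => g (L z).re * ‖deriv L z‖ ^ 2) (ball (0:ℂ) 1) := by
    refine integrableOn_disc (continuousOn_of_ball hR ?_)
    exact (hg.comp_continuousOn (Complex.continuous_re.comp_continuousOn hLc)).mul
      ((continuousOn_deriv_of_ball hL).norm.pow 2)
  have hint2 : IntegrableOn g (Icc t0 t1) := hg.continuousOn.integrableOn_Icc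
  have e1 : ∫⁻ z in ball (0:ℂ) 1, ENNReal.ofReal (‖deriv L z‖ ^ 2) *
      (Icc t0 t1).indicator (fun t => ENNReal.ofReal (g t)) (L z).re
      = ENNReal.ofReal (∫ z in ball (0:ℂ) 1, g (L z).re * ‖deriv L z‖ ^ 2) := by
    rw [ofReal_integral_eq_lintegral_ofReal hint1
      (Filter.Eventually.of_forall fun z => mul_nonneg (hg0 _) (sq_nonneg _))]
    refine setLIntegral_congr_fun measurableSet_ball ?_
    intro z hz
    simp only
    rw [indicator_of_mem (hx z (ball_subset_closedBall hz)), ← ENNReal.ofReal_mul (sq_nonneg _),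
      mul_comm]
  have e2 : ENNReal.ofReal (2 * π) * ∫⁻ t in Icc t0 t1, ENNReal.ofReal (g t)
      = ENNReal.ofReal (2 * π * ∫ t in t0..t1, g t) := by
    rw [← ofReal_integral_eq_lintegral_ofReal hint2 (Filter.Eventually.of_forall fun z => hg0 _),
      ← ENNReal.ofReal_mul (by positivity), intervalIntegral.integral_of_le ht,
      integral_Icc_eq_integral_Ioc]
  rw [e1, e2] at h
  have h0 : 0 ≤ 2 * π * ∫ t in t0..t1, g t :=
    mul_nonneg (by positivity) (intervalIntegral.integral_nonneg ht fun t _ => hg0 t)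
  exact (ENNReal.ofReal_le_ofReal_iff h0).1 h

end

section
variable {w w' : ℝ → ℝ → ℝ} {c0 c1 t0 t1 : ℝ}

lemma iterated_eq_prod {f : ℝ → ℝ → ℝ} (hf : Continuous (Function.uncurry f)) (ht : t0 ≤ t1)
    (hc : c0 ≤ c1) : ∫ t in t0..t1, ∫ c in c0..c1, f t c =
      ∫ p in Icc t0 t1 ×ˢ Icc c0 c1, f p.1 p.2 := by
  have hint : IntegrableOn (fun p : ℝ × ℝ => f p.1 p.2) (Icc t0 t1 ×ˢ Icc c0 c1)
      ((volume : Measure ℝ).prod volume) :=
    ContinuousOn.integrableOn_compact (isCompact_Icc.prod isCompact_Icc) hf.continuousOn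
  rw [Measure.volume_eq_prod, setIntegral_prod _ hint, intervalIntegral.integral_of_le ht,
    integral_Icc_eq_integral_Ioc]
  congr 1
  funext t
  rw [intervalIntegral.integral_of_le hc, integral_Icc_eq_integral_Ioc]

lemma int_AA_le (hw : Continuous (Function.uncurry w)) (hw' : Continuous (Function.uncurry w'))
    (ht : t0 ≤ t1) (hc : c0 ≤ c1) {Z : Set (ℝ × ℝ)} (hZ : IsCompact Z)
    (hZs : Z ⊆ Icc t0 t1 ×ˢ Icc c0 c1) {k : ℝ}
    (hle : ∀ t c, |w' t c| ≤ k * (w t c - Z.indicator 1 (t, c))) :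
    ∫ t in t0..t1, AA w' c0 c1 t ≤
      k * ((∫ t in t0..t1, PP w c0 t c1) - (volume Z).toReal) := by
  have hQ : IsCompact (Icc t0 t1 ×ˢ Icc c0 c1) := isCompact_Icc.prod isCompact_Icc
  have hQm : MeasurableSet (Icc t0 t1 ×ˢ Icc c0 c1) := hQ.measurableSet
  have hi1 : IntegrableOn (fun p : ℝ × ℝ => |w' p.1 p.2|) (Icc t0 t1 ×ˢ Icc c0 c1) :=
    ContinuousOn.integrableOn_compact hQ (hw'.abs).continuousOn
  have hi2 : IntegrableOn (fun p : ℝ × ℝ => w p.1 p.2) (Icc t0 t1 ×ˢ Icc c0 c1) :=
    ContinuousOn.integrableOn_compact hQ hw.continuousOn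
  have hi3 : IntegrableOn (fun p : ℝ × ℝ => Z.indicator (1 : ℝ × ℝ → ℝ) p)
      (Icc t0 t1 ×ˢ Icc c0 c1) := by
    refine IntegrableOn.indicator ?_ hZ.measurableSet
    exact integrableOn_const (hQ.measure_lt_top.ne)
  unfold AA PP
  rw [iterated_eq_prod (f := fun t c => |w' t c|) hw'.abs ht hc, iterated_eq_prod hw ht hc]
  have e1 : (volume Z).toReal = ∫ p in Icc t0 t1 ×ˢ Icc c0 c1, Z.indicator (1 : ℝ × ℝ → ℝ) p := by
    rw [setIntegral_indicator hZ.measurableSet, inter_eq_self_of_subset_right hZs]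
    simp [Measure.real]
  rw [e1, ← integral_sub hi2 hi3, ← integral_const_mul]
  refine setIntegral_mono_on hi1 ((hi2.sub hi3).const_mul k) hQm ?_
  intro p _
  exact hle p.1 p.2

/-- The main inequality, for a given weight. -/
theorem main_ineq {L Φ : ℂ → ℂ} {R : ℝ} (hR : 1 < R) (hL : DifferentiableOn ℂ L (ball 0 R))
    (hΦ : DifferentiableOn ℂ Φ (ball 0 R))
    (hinj : InjOn (fun z => Complex.exp (L z)) (ball 0 1))
    (hw : Continuous (Function.uncurry w)) (hw' : Continuous (Function.uncurry w'))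
    (hd : ∀ t c, HasDerivAt (fun t => w t c) (w' t c) t)
    (hpos : ∀ t c, 0 < w t c) (hc : c0 < c1) (ht : t0 ≤ t1)
    (hη : ∀ z ∈ closedBall (0:ℂ) 1, (Φ z).im ∈ Icc c0 c1)
    (hx : ∀ z ∈ closedBall (0:ℂ) 1, (L z).re ∈ Icc t0 t1)
    (hw1 : ∀ p ∈ ZZ L Φ, w p.1 p.2 = 1)
    (hle : ∀ t c, |w' t c| ≤ (1 / (2 * π)) * (w t c - (ZZ L Φ).indicator 1 (t, c))) :
    |∫ θ in (-π)..π, (L (Complex.exp (θ * I))).re * (I * Complex.exp (θ * I) *
        deriv Φ (Complex.exp (θ * I))).im| ≤
      π * (∫ θ in (-π)..π, |(I * Complex.exp (θ * I) * deriv Φ (Complex.exp (θ * I))).re|)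
      + 9 / 4 * ((∫ t in t0..t1, PP w c0 t c1) - (volume (ZZ L Φ)).toReal) := by
  have hpi := Real.pi_pos
  have hZc : IsCompact (ZZ L Φ) := by
    refine (isCompact_closedBall (0:ℂ) 1).image_of_continuousOn ?_
    exact ((Complex.continuous_re.comp_continuousOn (continuousOn_of_ball hR hL.continuousOn))).prodMk
      (Complex.continuous_im.comp_continuousOn (continuousOn_of_ball hR hΦ.continuousOn))
  have hZs : ZZ L Φ ⊆ Icc t0 t1 ×ˢ Icc c0 c1 := by
    rintro p ⟨z, hz, rfl⟩
    exact ⟨hx z hz, hη z hz⟩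
  have hAA := int_AA_le hw hw' ht hc.le hZc hZs hle
  have hY1 := abs_x_eta_le hR hL hΦ
  have hY2 := volume_ZZ_le_YY hR hL hΦ
  -- the function g
  set g : ℝ → ℝ := fun t => 1 / (2 * π) * (PP w c0 t c1 / π + 5 / 2 * AA w' c0 c1 t) with hg
  have hPPc : Continuous fun t => PP w c0 t c1 :=
    (continuous_PP (c0 := c0) hw).comp (by fun_prop : Continuous fun t : ℝ => (t, c1))
  have hAAc : Continuous (AA w' c0 c1) := continuous_AA hw'
  have hgc : Continuous g := by rw [hg]; fun_prop
  have hAA0 : ∀ t, 0 ≤ AA w' c0 c1 t := fun t =>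
    intervalIntegral.integral_nonneg hc.le fun c _ => abs_nonneg _
  have hg0 : ∀ t, 0 ≤ g t := fun t => by
    have := PP_pos hw hpos hc t
    have := hAA0 t
    rw [hg]; positivity
  have harea := area_bochner hR hL hinj ht hx hgc hg0
  have hgint : ∫ t in t0..t1, g t = 1 / (2 * π) * ((∫ t in t0..t1, PP w c0 t c1) / π
      + 5 / 2 * ∫ t in t0..t1, AA w' c0 c1 t) := by
    rw [hg, intervalIntegral.integral_const_mul, intervalIntegral.integral_add,
      intervalIntegral.integral_div, intervalIntegral.integral_const_mul]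
    · exact (hPPc.div_const _).intervalIntegrable _ _
    · exact (hAAc.const_mul _).intervalIntegrable _ _
  -- A ≤ M / 2π
  have hAM : ∀ t, AA w' c0 c1 t ≤ PP w c0 t c1 / (2 * π) := by
    intro t
    have h1 : PP w c0 t c1 / (2 * π) = ∫ c in c0..c1, 1 / (2 * π) * w t c := by
      rw [intervalIntegral.integral_const_mul, PP]; ring
    rw [h1]
    unfold AA
    refine intervalIntegral.integral_mono_on hc.le ?_ ?_ ?_
    · exact ((hw'.abs).comp (by fun_prop : Continuous fun c : ℝ => (t, c))).intervalIntegrable _ _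
    · exact ((hw.const_mul _).comp
        (by fun_prop : Continuous fun c : ℝ => (t, c))).intervalIntegrable _ _
    · intro c _
      refine (hle t c).trans ?_
      have : 0 ≤ (ZZ L Φ).indicator (1 : ℝ × ℝ → ℝ) (t, c) :=
        indicator_nonneg (fun _ _ => zero_le_one) _
      have h2 : 0 ≤ 1 / (2 * π) := by positivity
      exact mul_le_mul_of_nonneg_left (by linarith) h2
  -- Green
  set S : ℂ → ℝ := fun z => ss w c0 c1 ((L z).re, (Φ z).im) with hS
  set S' : ℂ → ℂ →L[ℝ] ℝ := fun z => (ss1 w w' c0 c1 ((L z).re, (Φ z).im)) • reD (deriv L z)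
    + (ss2 w c0 c1 ((L z).re, (Φ z).im)) • imD (deriv Φ z) with hS'
  have hpair : ContinuousOn (fun z => ((L z).re, (Φ z).im)) (ball 0 R) :=
    (Complex.continuous_re.comp_continuousOn hL.continuousOn).prodMk
      (Complex.continuous_im.comp_continuousOn hΦ.continuousOn)
  have hs1c := continuous_ss1 (c0 := c0) (c1 := c1) hw hw' hpos hc
  have hs2c := continuous_ss2 (c0 := c0) (c1 := c1) hw hpos hc
  have hSd : ∀ z ∈ ball (0:ℂ) R, HasFDerivAt S (S' z) z := by
    intro z hz
    have h1 := hasFDerivAt_re (hasDerivAt_of_ball hL hz)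
    have h2 := hasFDerivAt_im (hasDerivAt_of_ball hΦ hz)
    have h3 := (hasFDerivAt_ss hw hw' hd hpos hc ((L z).re, (Φ z).im)).comp z (h1.prodMk h2)
    refine h3.congr_fderiv ?_
    apply ContinuousLinearMap.ext
    intro v
    simp [hS']
  have hgreen := green hR hΦ hSd (by
    rw [hS']
    exact ((hs1c.comp_continuousOn hpair).smul
      (continuous_reD.comp_continuousOn (continuousOn_deriv_of_ball hL))).add
      ((hs2c.comp_continuousOn hpair).smul
      (continuous_imD.comp_continuousOn (continuousOn_deriv_of_ball hΦ))))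
  -- left side
  have hcirc : ∀ θ : ℝ, Complex.exp (θ * I) ∈ closedBall (0:ℂ) 1 := by
    intro θ
    rw [mem_closedBall_zero_iff, Complex.norm_exp_ofReal_mul_I]
  have hcircR : ∀ θ : ℝ, Complex.exp (θ * I) ∈ ball (0:ℂ) R := fun θ =>
    closedBall_subset_ball hR (hcirc θ)
  have hexpc : Continuous fun θ : ℝ => Complex.exp (θ * I) := by fun_prop
  have hcomp : ∀ {E : Type} [TopologicalSpace E] {f : ℂ → E}, ContinuousOn f (ball 0 R) →
      Continuous fun θ : ℝ => f (Complex.exp (θ * I)) := by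
    intro E _ f hf
    exact hf.comp_continuous hexpc hcircR
  have hxi : Continuous fun θ : ℝ =>
      (I * Complex.exp (θ * I) * deriv Φ (Complex.exp (θ * I))).re :=
    Complex.continuous_re.comp ((continuous_const.mul hexpc).mul
      (hcomp (continuousOn_deriv_of_ball hΦ)))
  have hSc : Continuous fun θ : ℝ => S (Complex.exp (θ * I)) :=
    hcomp (fun z hz => (hSd z hz).continuousAt.continuousWithinAt)
  have hleft : -(∫ θ in (-π)..π, S (Complex.exp (θ * I)) * (I * Complex.exp (θ * I) *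
        deriv Φ (Complex.exp (θ * I))).re) ≤
      ∫ θ in (-π)..π, |(I * Complex.exp (θ * I) * deriv Φ (Complex.exp (θ * I))).re| := by
    rw [← intervalIntegral.integral_neg]
    refine intervalIntegral.integral_mono_on (by linarith) ?_ ?_ ?_
    · exact (hSc.mul hxi).neg.intervalIntegrable _ _
    · exact hxi.abs.intervalIntegrable _ _
    · intro θ _
      have h1 : |S (Complex.exp (θ * I))| ≤ 1 := abs_ss_le hw hpos hc (hη _ (hcirc θ))
      calc -(S (Complex.exp (θ * I)) * (I * Complex.exp (θ * I) *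
            deriv Φ (Complex.exp (θ * I))).re) ≤ |S (Complex.exp (θ * I)) *
            (I * Complex.exp (θ * I) * deriv Φ (Complex.exp (θ * I))).re| := neg_le_abs _
        _ ≤ _ := by
          rw [abs_mul]
          exact mul_le_of_le_one_left (abs_nonneg _) h1
  -- right side
  have hright : 2 / π * YY L Φ - ∫ z in ball (0:ℂ) 1, g (L z).re * ‖deriv L z‖ ^ 2 ≤
      ∫ z in ball (0:ℂ) 1, S' z (I * conj (deriv Φ z)) := by
    have hi1 : IntegrableOn (fun z => g (L z).re * ‖deriv L z‖ ^ 2) (ball (0:ℂ) 1) := by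
      refine integrableOn_disc (continuousOn_of_ball hR ?_)
      exact (hgc.comp_continuousOn (Complex.continuous_re.comp_continuousOn hL.continuousOn)).mul
        ((continuousOn_deriv_of_ball hL).norm.pow 2)
    rw [YY, ← integral_const_mul, ← integral_sub ((integrable_YY hR hL hΦ).const_mul _) hi1]
    refine setIntegral_mono_on (((integrable_YY hR hL hΦ).const_mul _).sub hi1) ?_
      measurableSet_ball ?_
    · refine integrableOn_disc (continuousOn_of_ball hR ?_)
      refine ContinuousOn.clm_apply ?_ ?_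
      · rw [hS']
        exact ((hs1c.comp_continuousOn hpair).smul
          (continuous_reD.comp_continuousOn (continuousOn_deriv_of_ball hL))).add
          ((hs2c.comp_continuousOn hpair).smul
          (continuous_imD.comp_continuousOn (continuousOn_deriv_of_ball hΦ)))
      · exact continuousOn_const.mul (Complex.continuous_conj.comp_continuousOn
          (continuousOn_deriv_of_ball hΦ))
    · intro z hz
      have hz' := ball_subset_closedBall hz
      have hp := hη z hz'
      have hZ : w (L z).re (Φ z).im = 1 := hw1 ((L z).re, (Φ z).im) ⟨z, hz', rfl⟩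
      have hr : |(deriv L z * (I * conj (deriv Φ z))).re| ≤ ‖deriv L z‖ * ‖deriv Φ z‖ := by
        calc |(deriv L z * (I * conj (deriv Φ z))).re| ≤ ‖deriv L z * (I * conj (deriv Φ z))‖ :=
              Complex.abs_re_le_norm _
          _ = _ := by rw [norm_mul, norm_mul, Complex.norm_conj, Complex.norm_I, one_mul]
      have h1 := pointwise_alg (PP_pos hw hpos hc (L z).re) (hAA0 (L z).re) (hAM (L z).re) hr
        (abs_ss1_le hw hw' hpos hc hp (t := (L z).re))
      have e1 : S' z (I * conj (deriv Φ z)) = ss1 w w' c0 c1 ((L z).re, (Φ z).im) *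
          (deriv L z * (I * conj (deriv Φ z))).re + 2 / PP w c0 (L z).re c1 * ‖deriv Φ z‖ ^ 2 := by
        simp only [hS', add_apply, smul_apply, reD_apply, imD_apply, smul_eq_mul]
        congr 1
        have : deriv Φ z * (I * conj (deriv Φ z)) = I * ((‖deriv Φ z‖ ^ 2 : ℝ) : ℂ) := by
          have := Complex.mul_conj (deriv Φ z)
          rw [Complex.normSq_eq_norm_sq] at this
          rw [← this]; ring
        rw [this]
        have e : (I * ((‖deriv Φ z‖ ^ 2 : ℝ) : ℂ)).im = ‖deriv Φ z‖ ^ 2 := by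
          rw [Complex.mul_im, Complex.ofReal_re, Complex.ofReal_im, Complex.I_re, Complex.I_im]
          ring
        rw [e]
        simp [ss2, hZ]
      rw [e1]
      exact h1
  -- combine
  rw [hgreen, neg_neg] at hleft
  set J := ∫ t in t0..t1, PP w c0 t c1 with hJ
  set V := (volume (ZZ L Φ)).toReal with hV
  set IA := ∫ t in t0..t1, AA w' c0 c1 t with hIA
  set Lam := ∫ θ in (-π)..π, |(I * Complex.exp (θ * I) * deriv Φ (Complex.exp (θ * I))).re|
    with hLam
  rw [hgint] at harea
  have h1 : 2 / π * YY L Φ - (J / π + 5 / 2 * IA) ≤ Lam := by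
    have : 2 * π * (1 / (2 * π) * (J / π + 5 / 2 * IA)) = J / π + 5 / 2 * IA := by
      field_simp
    linarith
  have h2 : 2 * YY L Φ - J - 5 / 2 * π * IA ≤ π * Lam := by
    have := mul_le_mul_of_nonneg_left h1 hpi.le
    have e : π * (2 / π * YY L Φ - (J / π + 5 / 2 * IA)) = 2 * YY L Φ - J - 5 / 2 * π * IA := by
      field_simp; ring
    linarith
  have h3 : 5 / 2 * π * IA ≤ 5 / 4 * (J - V) := by
    have := mul_le_mul_of_nonneg_left hAA (by positivity : 0 ≤ 5 / 2 * π)
    have e : 5 / 2 * π * (1 / (2 * π) * (J - V)) = 5 / 4 * (J - V) := by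
      field_simp; ring
    linarith
  linarith

end

end Pool.Agent.H71UF
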