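import Mathlib
import Pool.Agent.H71UF.Gap
import Pool.Agent.H71UF.MainIneq

set_option autoImplicit false

/-!
The key inequality on the unit circle.
-/

open MeasureTheory Set Metric Filter Complex
open scoped Real Topology ENNReal

namespace Pool.Agent.H71UF

section
variable {L Φ : ℂ → ℂ} {R : ℝ}

/-- derivative of the boundary values of `Im Φ` -/
noncomputable def bdv' (Φ : ℂ → ℂ) (θ : ℝ) : ℝ :=
  (I * Complex.exp (θ * I) * deriv Φ (Complex.exp (θ * I))).im

lemma exp_mem_closedBall (θ : ℝ) : Complex.exp (θ * I) ∈ closedBall (0:ℂ) 1 := by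
  rw [mem_closedBall_zero_iff, Complex.norm_exp_ofReal_mul_I]

lemma hasDerivAt_bdv (hR : 1 < R) (hΦ : DifferentiableOn ℂ Φ (ball 0 R)) (θ : ℝ) :
    HasDerivAt (bdv Φ) (bdv' Φ θ) θ := by
  have h1 : HasDerivAt (fun θ : ℝ => Complex.exp (θ * I)) (Complex.exp (θ * I) * I) θ := by
    have h0 : HasDerivAt (fun θ : ℝ => (θ : ℂ) * I) (1 * I) θ :=
      (Complex.ofRealCLM.hasDerivAt (x := θ)).mul_const I
    have := h0.cexp
    simpa using this
  have h2 := hasDerivAt_of_ball hΦ (closedBall_subset_ball hR (exp_mem_closedBall θ))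
  have h3 : HasDerivAt (fun θ : ℝ => Φ (Complex.exp (θ * I)))
      (deriv Φ (Complex.exp (θ * I)) * (Complex.exp (θ * I) * I)) θ := h2.comp_of_eq θ h1 rfl
  have h4 := (Complex.imCLM.hasFDerivAt (x := Φ (Complex.exp (θ * I)))).comp_hasDerivAt θ h3
  refine h4.congr_deriv ?_
  rw [bdv', Complex.imCLM_apply]
  congr 1
  ring

lemma continuous_bdv' (hR : 1 < R) (hΦ : DifferentiableOn ℂ Φ (ball 0 R)) :
    Continuous (bdv' Φ) := by
  unfold bdv'
  have hexpc : Continuous fun θ : ℝ => Complex.exp (θ * I) := by fun_prop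
  have h : Continuous fun θ : ℝ => deriv Φ (Complex.exp (θ * I)) :=
    (continuousOn_deriv_of_ball hΦ).comp_continuous hexpc
      (fun θ => closedBall_subset_ball hR (exp_mem_closedBall θ))
  exact Complex.continuous_im.comp ((continuous_const.mul hexpc).mul h)

lemma isCompact_ZZ (hR : 1 < R) (hL : DifferentiableOn ℂ L (ball 0 R))
    (hΦ : DifferentiableOn ℂ Φ (ball 0 R)) : IsCompact (ZZ L Φ) := by
  refine (isCompact_closedBall (0:ℂ) 1).image_of_continuousOn ?_
  exact ((Complex.continuous_re.comp_continuousOn (continuousOn_of_ball hR hL.continuousOn))).prodMk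
    (Complex.continuous_im.comp_continuousOn (continuousOn_of_ball hR hΦ.continuousOn))

lemma ZZ_nonempty : (ZZ L Φ).Nonempty := (nonempty_closedBall.2 zero_le_one).image _

lemma slice_bound (hR : 1 < R) (hL : DifferentiableOn ℂ L (ball 0 R))
    (hΦ : DifferentiableOn ℂ Φ (ball 0 R)) (hnc : ¬ ∀ z ∈ ball (0:ℂ) R, Φ z = Φ 0)
    {τ : ℝ} (hτ : 0 < τ) {c : ℝ} (hc : NN (bdv Φ) (-π) π c ≠ ∞) :
    ∫⁻ t, UU τ (ZZ L Φ) (t, c) ≤ volume ((fun t => (t, c)) ⁻¹' ZZ L Φ) +
      NN (bdv Φ) (-π) π c * ENNReal.ofReal (2 * τ) := by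
  have hfin := lev_finite hc
  have hZ := isCompact_ZZ hR hL hΦ
  set K : Set ℝ := (fun t => (t, c)) ⁻¹' ZZ L Φ with hK
  have hKm : MeasurableSet K := hZ.measurableSet.preimage (by fun_prop)
  have hKb : BddAbove K ∧ BddBelow K := by
    have h1 : IsCompact (Prod.fst '' ZZ L Φ) := hZ.image continuous_fst
    have h2 : K ⊆ Prod.fst '' ZZ L Φ := fun t ht => ⟨(t, c), ht, rfl⟩
    exact ⟨h1.bddAbove.mono h2, h1.bddBelow.mono h2⟩
  set G : ℝ → ℝ → ℝ≥0∞ := fun θ t => gapf τ (lend K (L (Complex.exp (θ * I))).re)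
    (rend K (L (Complex.exp (θ * I))).re) t with hG
  have hpt : ∀ t, UU τ (ZZ L Φ) (t, c) ≤ K.indicator 1 t + ∑ θ ∈ hfin.toFinset, G θ t := by
    intro t
    by_cases ht : t ∈ K
    · rw [indicator_of_mem ht]
      exact (UU_le_one _).trans le_self_add
    · rcases UU_bound hτ hZ ZZ_nonempty t c with h0 | ⟨w0, hw0, hle⟩
      · rw [h0]; exact zero_le
      · obtain ⟨z, hz, hzw⟩ := hw0
        rw [Prod.mk.injEq] at hzw
        obtain ⟨θ, hθ, hθ2⟩ := comp_lemma hR hL hΦ hnc hz hzw.2 hfin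
        have h1 := gap_pointwise hKb.1 hKb.2 hτ (K := K) (x := (L (Complex.exp (θ * I))).re)
          (w0 := w0) (t := t) (by rw [← hzw.1]; exact hθ2) ht
        refine hle.trans (h1.trans ?_)
        refine le_trans ?_ le_add_self
        exact Finset.single_le_sum (f := fun θ => G θ t) (fun _ _ => zero_le)
          (hfin.mem_toFinset.2 hθ)
  refine (lintegral_mono hpt).trans ?_
  rw [lintegral_add_left (measurable_one.indicator hKm), lintegral_indicator_one hKm,
    lintegral_finsetSum _ (fun θ _ => measurable_gapf _ _ _)]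
  gcongr
  simp only [lintegral_gapf hτ, Finset.sum_const, nsmul_eq_mul]
  gcongr
  exact card_le_NN _ (fun θ hθ => hfin.mem_toFinset.1 hθ)

lemma lintegral_UU_le (hR : 1 < R) (hL : DifferentiableOn ℂ L (ball 0 R))
    (hΦ : DifferentiableOn ℂ Φ (ball 0 R)) (hnc : ¬ ∀ z ∈ ball (0:ℂ) R, Φ z = Φ 0)
    {τ : ℝ} (hτ : 0 < τ) :
    ∫⁻ p, UU τ (ZZ L Φ) p ≤ volume (ZZ L Φ) +
      ENNReal.ofReal (∫ θ in (-π)..π, |bdv' Φ θ|) * ENNReal.ofReal (2 * τ) := by
  have hZ := isCompact_ZZ hR hL hΦ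
  have hg := hasDerivAt_bdv hR hΦ
  have hgc : Continuous (bdv Φ) := continuous_iff_continuousAt.2 fun t => (hg t).continuousAt
  have hN := lintegral_NN_le (a := -π) (b := π) (by linarith [Real.pi_pos]) hg
    (continuous_bdv' hR hΦ)
  have hNm : Measurable (NN (bdv Φ) (-π) π) := measurable_NN hgc
  have hNfin : ∀ᵐ c, NN (bdv Φ) (-π) π c < ∞ :=
    ae_lt_top hNm (ne_top_of_le_ne_top ENNReal.ofReal_ne_top hN)
  rw [Measure.volume_eq_prod, lintegral_prod_symm' _ measurable_UU,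
    Measure.prod_apply_symm hZ.measurableSet]
  calc ∫⁻ c, ∫⁻ t, UU τ (ZZ L Φ) (t, c)
      ≤ ∫⁻ c, (volume ((fun t => (t, c)) ⁻¹' ZZ L Φ) +
        NN (bdv Φ) (-π) π c * ENNReal.ofReal (2 * τ)) := by
        refine lintegral_mono_ae ?_
        filter_upwards [hNfin] with c hc
        exact slice_bound hR hL hΦ hnc hτ hc.ne
    _ = (∫⁻ c, volume ((fun t => (t, c)) ⁻¹' ZZ L Φ)) +
        (∫⁻ c, NN (bdv Φ) (-π) π c) * ENNReal.ofReal (2 * τ) := by
        rw [lintegral_add_right _ (hNm.mul_const _), lintegral_mul_const _ hNm]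
    _ ≤ _ := by gcongr

end


section
variable {L Φ : ℂ → ℂ} {R : ℝ}

lemma exists_k {τ t0 t1 c0 c1 B : ℝ} (hτ : 0 < τ) {Z : Set (ℝ × ℝ)} (hZ : IsCompact Z)
    (hne : Z.Nonempty) (hB : ∫⁻ p, UU τ Z p ≤ ENNReal.ofReal B) (hB0 : 0 ≤ B) {ε : ℝ}
    (hε : 0 < ε) : ∃ k, ∫ p in Icc t0 t1 ×ˢ Icc c0 c1, Real.exp (-rho τ k Z p.1 p.2) ≤ B + ε := by
  set Q := Icc t0 t1 ×ˢ Icc c0 c1 with hQ
  have hQc : IsCompact Q := isCompact_Icc.prod isCompact_Icc
  have h1 := lintegral_iInf (μ := volume.restrict Q) (measurable_FF (τ := τ) (Z := Z))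
    (antitone_FF hτ hZ hne) (by
      refine ne_top_of_le_ne_top (b := ∫⁻ _ in Q, 1) ?_ (lintegral_mono fun p => FF_le_one 0 p)
      rw [setLIntegral_one]
      exact hQc.measure_lt_top.ne)
  have h2 : ∫⁻ p in Q, UU τ Z p ≤ ENNReal.ofReal B := (setLIntegral_le_lintegral _ _).trans hB
  unfold UU at h2
  rw [h1] at h2
  have h3 : ⨅ n, ∫⁻ a in Q, FF τ Z n a < ENNReal.ofReal (B + ε) :=
    lt_of_le_of_lt h2 ((ENNReal.ofReal_lt_ofReal_iff (by linarith)).2 (by linarith))
  obtain ⟨k, hk⟩ := iInf_lt_iff.1 h3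
  refine ⟨k, ?_⟩
  have hcont : Continuous fun p : ℝ × ℝ => Real.exp (-rho τ k Z p.1 p.2) := by
    have h : Continuous fun p : ℝ × ℝ => rho τ k Z p.1 p.2 := continuous_rho
    exact Real.continuous_exp.comp h.neg
  have h4 : ∫⁻ a in Q, FF τ Z k a = ENNReal.ofReal (∫ p in Q, Real.exp (-rho τ k Z p.1 p.2)) := by
    rw [ofReal_integral_eq_lintegral_ofReal (hcont.continuousOn.integrableOn_compact hQc)
      (Filter.Eventually.of_forall fun p => (Real.exp_pos _).le)]
    rfl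
  rw [h4] at hk
  exact ((ENNReal.ofReal_lt_ofReal_iff (by linarith)).1 hk).le

theorem key_ineq (hR : 1 < R) (hL : DifferentiableOn ℂ L (ball 0 R))
    (hΦ : DifferentiableOn ℂ Φ (ball 0 R))
    (hinj : InjOn (fun z => Complex.exp (L z)) (ball 0 1)) :
    |∫ θ in (-π)..π, (L (Complex.exp (θ * I))).re * bdv' Φ θ| ≤
      π * (∫ θ in (-π)..π, |(I * Complex.exp (θ * I) * deriv Φ (Complex.exp (θ * I))).re|)
      + 18 * π * (∫ θ in (-π)..π, |bdv' Φ θ|) := by
  have hpi := Real.pi_pos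
  by_cases hnc : ∀ z ∈ ball (0:ℂ) R, Φ z = Φ 0
  · have hd0 : ∀ θ : ℝ, deriv Φ (Complex.exp (θ * I)) = 0 := by
      intro θ
      have hmem : Complex.exp (θ * I) ∈ ball (0:ℂ) R :=
        closedBall_subset_ball hR (exp_mem_closedBall θ)
      have hev : Φ =ᶠ[𝓝 (Complex.exp (θ * I))] fun _ => Φ 0 := by
        filter_upwards [isOpen_ball.mem_nhds hmem] with u hu
        exact hnc u hu
      rw [hev.deriv_eq]; simp
    have hb : ∀ θ, bdv' Φ θ = 0 := by
      intro θ; rw [bdv', hd0]; simp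
    simp [hb, hd0]
  -- nonconstant case
  set Z := ZZ L Φ with hZdef
  have hZ : IsCompact Z := isCompact_ZZ hR hL hΦ
  have hZne : Z.Nonempty := ZZ_nonempty
  set τ : ℝ := 4 * π with hτdef
  have hτ : 0 < τ := by positivity
  set V := ∫ θ in (-π)..π, |bdv' Φ θ| with hV
  have hV0 : 0 ≤ V := intervalIntegral.integral_nonneg (by linarith) fun _ _ => abs_nonneg _
  set vZ := (volume Z).toReal with hvZ
  have hvZ0 : 0 ≤ vZ := ENNReal.toReal_nonneg
  have hB : ∫⁻ p, UU τ Z p ≤ ENNReal.ofReal (vZ + 2 * τ * V) := by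
    refine (lintegral_UU_le hR hL hΦ hnc hτ).trans (le_of_eq ?_)
    rw [← ENNReal.ofReal_mul hV0, ENNReal.ofReal_add hvZ0 (by positivity), hvZ,
      ENNReal.ofReal_toReal hZ.measure_lt_top.ne]
    congr 2
    ring
  -- bounds
  obtain ⟨b1, hb1⟩ := (isCompact_closedBall (0:ℂ) 1).exists_bound_of_continuousOn
    (continuousOn_of_ball hR hΦ.continuousOn)
  obtain ⟨b2, hb2⟩ := (isCompact_closedBall (0:ℂ) 1).exists_bound_of_continuousOn
    (continuousOn_of_ball hR hL.continuousOn)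
  have hb1' : 0 ≤ b1 := (norm_nonneg _).trans (hb1 0 (mem_closedBall_self zero_le_one))
  have hb2' : 0 ≤ b2 := (norm_nonneg _).trans (hb2 0 (mem_closedBall_self zero_le_one))
  set c0 := -b1 - 1 with hc0
  set c1 := b1 + 1 with hc1
  have hc : c0 < c1 := by linarith
  have hη : ∀ z ∈ closedBall (0:ℂ) 1, (Φ z).im ∈ Icc c0 c1 := by
    intro z hz
    have := (Complex.abs_im_le_norm (Φ z)).trans (hb1 z hz)
    have := abs_le.1 this
    exact ⟨by linarith [this.1], by linarith [this.2]⟩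
  have hx : ∀ z ∈ closedBall (0:ℂ) 1, (L z).re ∈ Icc (-b2) b2 := by
    intro z hz
    have := (Complex.abs_re_le_norm (L z)).trans (hb2 z hz)
    exact abs_le.1 this
  have ht : -b2 ≤ b2 := by linarith
  set X := |∫ θ in (-π)..π, (L (Complex.exp (θ * I))).re * bdv' Φ θ| with hX
  set Lam := ∫ θ in (-π)..π, |(I * Complex.exp (θ * I) * deriv Φ (Complex.exp (θ * I))).re|
    with hLam
  -- the inequality for δ
  have main : ∀ δ : ℝ, 0 < δ → Real.exp (2 * δ / τ) ≤ 2 →
      X ≤ π * Lam + 9 / 4 * (Real.exp (2 * δ / τ) * (vZ + 2 * τ * V + δ) - vZ) := by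
    intro δ hδ hδ2
    obtain ⟨k, hk⟩ := exists_k (t0 := -b2) (t1 := b2) (c0 := c0) (c1 := c1) hτ hZ hZne hB
      (by positivity) hδ
    set v : ℝ → ℝ → ℝ := om1 τ δ k Z with hv
    have hvc : Continuous (Function.uncurry v) := continuous_om1
    have hvpos : ∀ s c, 0 < v s c := fun s c => om1_pos s c
    have hvlip : ∀ s s' c, v s c ≤ Real.exp (|s - s'| / τ) * v s' c :=
      fun s s' c => om1_le_exp_mul hτ s s' c
    have hvone : ∀ p ∈ Z, ∀ s, |s - p.1| ≤ δ → v s p.2 = 1 :=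
      fun p hp s hs => om1_eq_one hτ hp hs
    have hm := main_ineq (w := win v δ) (w' := win' v δ) hR hL hΦ hinj (continuous_win hvc)
      (continuous_win' hvc) (hasDerivAt_win hvc)
      (win_pos hvc hτ hδ hvpos hvlip) hc ht hη hx
      (fun p hp => win_eq_one hδ hvone hp)
      (fun t c => by
        have := abs_win'_le hvc hτ hδ hvpos hvlip hvone hδ2 t c
        have e : 2 / τ = 1 / (2 * π) := by rw [hτdef]; field_simp; norm_num
        rwa [e] at this)
    have hJ : ∫ t in (-b2)..b2, PP (win v δ) c0 t c1 ≤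
        Real.exp (2 * δ / τ) * (vZ + 2 * τ * V + δ) := by
      unfold PP
      rw [iterated_eq_prod (continuous_win hvc) ht hc.le]
      have hcont : Continuous fun p : ℝ × ℝ => Real.exp (-rho τ k Z p.1 p.2) := by
        have h : Continuous fun p : ℝ × ℝ => rho τ k Z p.1 p.2 := continuous_rho
        exact Real.continuous_exp.comp h.neg
      have hQc : IsCompact (Icc (-b2) b2 ×ˢ Icc c0 c1) := isCompact_Icc.prod isCompact_Icc
      calc ∫ p in Icc (-b2) b2 ×ˢ Icc c0 c1, win v δ p.1 p.2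
          ≤ ∫ p in Icc (-b2) b2 ×ˢ Icc c0 c1,
            Real.exp (2 * δ / τ) * Real.exp (-rho τ k Z p.1 p.2) := by
            refine setIntegral_mono_on
              ((continuous_win hvc).continuousOn.integrableOn_compact hQc)
              ((hcont.const_mul _).continuousOn.integrableOn_compact hQc) hQc.measurableSet ?_
            intro p _
            calc win v δ p.1 p.2 ≤ Real.exp (δ / τ) * v p.1 p.2 :=
                  win_le hvc hτ hδ hvpos hvlip p.1 p.2
              _ ≤ Real.exp (δ / τ) * (Real.exp (δ / τ) * Real.exp (-rho τ k Z p.1 p.2)) := by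
                  gcongr
                  exact om1_le_rho p.1 p.2
              _ = _ := by
                  rw [← mul_assoc, ← Real.exp_add]; congr 2; ring
        _ = Real.exp (2 * δ / τ) * ∫ p in Icc (-b2) b2 ×ˢ Icc c0 c1,
              Real.exp (-rho τ k Z p.1 p.2) := integral_const_mul _ _
        _ ≤ _ := by gcongr
    have hm' : X ≤ π * Lam + 9 / 4 * ((∫ t in (-b2)..b2, PP (win v δ) c0 t c1) - vZ) := hm
    linarith
  have hlim : Tendsto (fun δ : ℝ => π * Lam + 9 / 4 * (Real.exp (2 * δ / τ) *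
      (vZ + 2 * τ * V + δ) - vZ)) (𝓝[>] 0) (𝓝 (π * Lam + 18 * π * V)) := by
    have hcont : Continuous (fun δ : ℝ => π * Lam + 9 / 4 * (Real.exp (2 * δ / τ) *
      (vZ + 2 * τ * V + δ) - vZ)) := by fun_prop
    have h0 := hcont.tendsto 0
    have e : π * Lam + 9 / 4 * (Real.exp (2 * 0 / τ) * (vZ + 2 * τ * V + 0) - vZ)
        = π * Lam + 18 * π * V := by
      rw [mul_zero, zero_div, Real.exp_zero, hτdef]; ring
    rw [e] at h0
    exact h0.mono_left nhdsWithin_le_nhds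
  refine ge_of_tendsto hlim ?_
  have hexp : ∀ᶠ δ : ℝ in 𝓝[>] 0, Real.exp (2 * δ / τ) ≤ 2 := by
    have hcont : Continuous (fun δ : ℝ => Real.exp (2 * δ / τ)) := by fun_prop
    have h0 := (hcont.tendsto 0)
    have e : Real.exp (2 * 0 / τ) = 1 := by simp
    rw [e] at h0
    exact (h0.mono_left nhdsWithin_le_nhds).eventually (ge_mem_nhds (by norm_num : (1:ℝ) < 2))
  filter_upwards [hexp, self_mem_nhdsWithin] with δ h1 h2
  exact main δ h2 h1

end

end Pool.Agent.H71UF
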