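import Mathlib
import Pool.Agent.H71UF.KeyIneq

set_option autoImplicit false

/-!
Duality: from the key inequality to finitely many interpolation conditions.
-/

open MeasureTheory Set Metric Filter Complex
open scoped Real Topology ComplexConjugate

namespace Pool.Agent.H71UF

lemma circleAverage_eq_pi (f : ℂ → ℝ) :
    Real.circleAverage f 0 1 = (2 * π)⁻¹ * ∫ θ in (-π)..π, f (Complex.exp (θ * I)) := by
  rw [Real.circleAverage_def, smul_eq_mul]
  congr 1
  have hper : Function.Periodic (fun θ : ℝ => f (Complex.exp (θ * I))) (2 * π) := by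
    intro θ
    simp only
    congr 1
    push_cast
    rw [add_mul, Complex.exp_add, Complex.exp_two_pi_mul_I, mul_one]
  have h := hper.intervalIntegral_add_eq 0 (-π)
  rw [zero_add, show -π + 2 * π = π by ring] at h
  rw [← h]
  simp [circleMap]

/-- the kernel `(ζ + z) / (ζ - z)` -/
noncomputable def kern (z ζ : ℂ) : ℂ := herglotzRieszKernel 0 z ζ

lemma kern_def (z ζ : ℂ) : kern z ζ = (ζ + z) / (ζ - z) := by
  simp [kern, herglotzRieszKernel_def]

lemma continuousOn_kern {z : ℂ} (hz : z ∈ ball (0:ℂ) 1) : ContinuousOn (kern z) (sphere 0 1) := by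
  have := continuousOn_herglotzRieszKernel_sphere hz
  rwa [abs_one] at this

lemma sphere_of_exp (θ : ℝ) : Complex.exp (θ * I) ∈ sphere (0:ℂ) 1 := by
  rw [mem_sphere_zero_iff_norm, Complex.norm_exp_ofReal_mul_I]

lemma circleIntegrable_of_cont {E : Type*} [NormedAddCommGroup E] {f : ℂ → E}
    (hf : ContinuousOn f (sphere 0 1)) : CircleIntegrable f 0 1 :=
  hf.circleIntegrable zero_le_one

lemma avg_re_kern {z : ℂ} (hz : z ∈ ball (0:ℂ) 1) :
    Real.circleAverage (fun ζ => (kern z ζ).re) 0 1 = 1 := by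
  have h := DiffContOnCl.circleAverage_re_herglotzRieszKernel_smul (f := fun _ => (1:ℂ))
    (c := 0) (R := 1) (w := z) diffContOnCl_const hz
  have hi : CircleIntegrable ((Complex.re ∘ herglotzRieszKernel 0 z) • fun _ => (1:ℂ)) 0 1 := by
    apply circleIntegrable_of_cont
    exact (Complex.continuous_re.comp_continuousOn (continuousOn_kern hz)).smul continuousOn_const
  have h2 := (Complex.reCLM).circleAverage_comp_comm hi
  rw [h] at h2
  simp only [Complex.reCLM_apply, Complex.one_re] at h2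
  rw [← h2]
  congr 1
  funext ζ
  simp [kern]

lemma avg_re_kern_im {L : ℂ → ℂ} (hL : DiffContOnCl ℂ L (ball 0 1)) {z : ℂ}
    (hz : z ∈ ball (0:ℂ) 1) :
    Real.circleAverage (fun ζ => (kern z ζ).re * (L ζ).im) 0 1 = (L z).im := by
  have h := hL.circleAverage_re_herglotzRieszKernel_smul (w := z) hz
  have hLc : ContinuousOn L (sphere 0 1) := by
    refine hL.2.mono ?_
    rw [closure_ball (0:ℂ) one_ne_zero]
    exact sphere_subset_closedBall
  have hi : CircleIntegrable ((Complex.re ∘ herglotzRieszKernel 0 z) • L) 0 1 := by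
    apply circleIntegrable_of_cont
    exact (Complex.continuous_re.comp_continuousOn (continuousOn_kern hz)).smul hLc
  have h2 := (Complex.imCLM).circleAverage_comp_comm hi
  rw [h] at h2
  simp only [Complex.imCLM_apply] at h2
  rw [← h2]
  congr 1
  funext ζ
  simp [kern]

/-- adjoint kernel -/
noncomputable def kadj (z ζ : ℂ) : ℂ := (1 + conj z * ζ) / (1 - conj z * ζ)

lemma conj_kern {z ζ : ℂ} (hζ : ζ ∈ sphere (0:ℂ) 1) :
    conj (kern z ζ) = kadj z ζ := by
  rw [mem_sphere_zero_iff_norm] at hζ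
  have h1 : ζ * conj ζ = 1 := by
    rw [Complex.mul_conj, Complex.normSq_eq_norm_sq, hζ]; simp
  have hζ0 : ζ ≠ 0 := by
    intro h; rw [h, norm_zero] at hζ; exact zero_ne_one hζ
  rw [kern_def, kadj, map_div₀, map_add, map_sub]
  rw [← mul_div_mul_left _ _ hζ0, mul_add, mul_sub, h1, mul_comm ζ (conj z)]

section
variable {ι : Type*} [Fintype ι]

/-- combination of Poisson kernels -/
noncomputable def PPk (a : ι → ℝ) (z : ι → ℂ) (ζ : ℂ) : ℝ := ∑ j, a j * (kern (z j) ζ).re

/-- combination of conjugate kernels -/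
noncomputable def kk (a : ι → ℝ) (z : ι → ℂ) (ζ : ℂ) : ℝ := ∑ j, a j * (kern (z j) ζ).im

/-- holomorphic combination -/
noncomputable def hh (a : ι → ℝ) (z : ι → ℂ) (ζ : ℂ) : ℂ := ∑ j, (a j : ℂ) * kadj (z j) ζ

/-- primitive -/
noncomputable def Phi (a : ι → ℝ) (z : ι → ℂ) (ζ : ℂ) : ℂ :=
  ∑ j, 2 * I * (a j : ℂ) * Complex.log (1 - conj (z j) * ζ)

lemma hh_re {a : ι → ℝ} {z : ι → ℂ} {ζ : ℂ}
    (hζ : ζ ∈ sphere (0:ℂ) 1) : (hh a z ζ).re = PPk a z ζ := by
  unfold hh PPk
  rw [Complex.re_sum]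
  refine Finset.sum_congr rfl fun j _ => ?_
  rw [← conj_kern hζ, Complex.re_ofReal_mul, Complex.conj_re]

lemma hh_im {a : ι → ℝ} {z : ι → ℂ} {ζ : ℂ}
    (hζ : ζ ∈ sphere (0:ℂ) 1) : (hh a z ζ).im = - kk a z ζ := by
  unfold hh kk
  rw [Complex.im_sum, ← Finset.sum_neg_distrib]
  refine Finset.sum_congr rfl fun j _ => ?_
  rw [← conj_kern hζ, Complex.im_ofReal_mul, Complex.conj_im, mul_neg]

lemma hasDerivAt_Phi {a : ι → ℝ} {z : ι → ℂ} {ζ : ℂ} (hζ : ∀ j, ‖z j‖ * ‖ζ‖ < 1) :
    HasDerivAt (Phi a z) (∑ j, 2 * I * (a j : ℂ) * (-(conj (z j)) / (1 - conj (z j) * ζ))) ζ := by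
  unfold Phi
  refine HasDerivAt.fun_sum fun j _ => ?_
  refine HasDerivAt.const_mul _ ?_
  have h1 : HasDerivAt (fun ζ => 1 - conj (z j) * ζ) (-(conj (z j))) ζ := by
    have := ((hasDerivAt_id ζ).const_mul (conj (z j))).const_sub 1
    simpa using this
  refine h1.clog ?_
  rw [Complex.mem_slitPlane_iff]
  left
  have h2 : ‖conj (z j) * ζ‖ < 1 := by rw [norm_mul, Complex.norm_conj]; exact hζ j
  have h3 := (abs_le.1 (Complex.abs_re_le_norm (conj (z j) * ζ))).2
  simp only [Complex.sub_re, Complex.one_re]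
  linarith

lemma I_mul_deriv_Phi {a : ι → ℝ} {z : ι → ℂ} (ha : ∑ j, a j = 0) {ζ : ℂ}
    (hζ : ∀ j, ‖z j‖ * ‖ζ‖ < 1) : I * ζ * deriv (Phi a z) ζ = hh a z ζ := by
  rw [(hasDerivAt_Phi hζ).deriv, hh]
  have h0 : ∀ j, (1 - conj (z j) * ζ) ≠ 0 := by
    intro j h
    have h1 : conj (z j) * ζ = 1 := (sub_eq_zero.1 h).symm
    have h2 : ‖conj (z j) * ζ‖ < 1 := by rw [norm_mul, Complex.norm_conj]; exact hζ j
    rw [h1, norm_one] at h2
    exact lt_irrefl _ h2
  have h1 : ∀ j, (a j : ℂ) * kadj (z j) ζ = I * ζ * (2 * I * (a j : ℂ) *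
      (-(conj (z j)) / (1 - conj (z j) * ζ))) + a j := by
    intro j
    unfold kadj
    have := h0 j
    field_simp
    rw [Complex.I_sq]
    ring
  simp only [h1]
  rw [Finset.sum_add_distrib, ← Finset.mul_sum, ← Complex.ofReal_sum, ha]
  simp

lemma continuousOn_PPk {a : ι → ℝ} {z : ι → ℂ} (hz : ∀ j, z j ∈ ball (0:ℂ) 1) :
    ContinuousOn (PPk a z) (sphere 0 1) := by
  unfold PPk
  exact continuousOn_finsetSum _ fun j _ => continuousOn_const.mul
    (Complex.continuous_re.comp_continuousOn (continuousOn_kern (hz j)))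

lemma continuousOn_kk {a : ι → ℝ} {z : ι → ℂ} (hz : ∀ j, z j ∈ ball (0:ℂ) 1) :
    ContinuousOn (kk a z) (sphere 0 1) := by
  unfold kk
  exact continuousOn_finsetSum _ fun j _ => continuousOn_const.mul
    (Complex.continuous_im.comp_continuousOn (continuousOn_kern (hz j)))

end


section
variable {ι : Type*} [Fintype ι]

lemma exists_radius {R : ℝ} (hR : 1 < R) {z : ι → ℂ} (hz : ∀ j, z j ∈ ball (0:ℂ) 1) :
    ∃ R', 1 < R' ∧ R' ≤ R ∧ ∀ j, ‖z j‖ * R' < 1 := by
  have h1 : ∀ᶠ r : ℝ in 𝓝[>] 1, ∀ j, ‖z j‖ * r < 1 := by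
    rw [Filter.eventually_all]
    intro j
    have h2 : Tendsto (fun r : ℝ => ‖z j‖ * r) (𝓝 1) (𝓝 (‖z j‖ * 1)) :=
      (continuous_const.mul continuous_id).tendsto 1
    rw [mul_one] at h2
    exact (h2.mono_left nhdsWithin_le_nhds).eventually
      (gt_mem_nhds (mem_ball_zero_iff.1 (hz j)))
  have h2 : ∀ᶠ r : ℝ in 𝓝[>] 1, r ≤ R :=
    nhdsWithin_le_nhds (ge_mem_nhds hR)
  obtain ⟨r, ⟨h3, h4⟩, h5⟩ := ((h1.and h2).and (self_mem_nhdsWithin : ∀ᶠ r : ℝ in 𝓝[>] 1,
    r ∈ Ioi (1:ℝ))).exists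
  exact ⟨r, h5, h4, h3⟩

lemma kern_re_nonneg {z ζ : ℂ} (hz : z ∈ ball (0:ℂ) 1) (hζ : ζ ∈ sphere (0:ℂ) 1) :
    0 ≤ (kern z ζ).re := by
  have h : (kern z ζ).re = poissonKernel 0 z ζ := by
    rw [poissonKernel_eq_re_herglotzRieszKernel]; rfl
  rw [h, poissonKernel_def]
  rw [mem_sphere_zero_iff_norm] at hζ
  rw [mem_ball_zero_iff] at hz
  have : ‖z‖ ^ 2 ≤ 1 := by
    have := norm_nonneg z
    nlinarith
  refine div_nonneg ?_ (by positivity)
  simp only [sub_zero, hζ]
  linarith

lemma avg_abs_PPk_le {a : ι → ℝ} {z : ι → ℂ} (hz : ∀ j, z j ∈ ball (0:ℂ) 1) :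
    Real.circleAverage (fun ζ => |PPk a z ζ|) 0 1 ≤ ∑ j, |a j| := by
  have hc : ∀ j, ContinuousOn (fun ζ => |a j| * (kern (z j) ζ).re) (sphere (0:ℂ) 1) := fun j =>
    continuousOn_const.mul (Complex.continuous_re.comp_continuousOn (continuousOn_kern (hz j)))
  have h1 : Real.circleAverage (fun ζ => |PPk a z ζ|) 0 1 ≤
      Real.circleAverage (fun ζ => ∑ j, |a j| * (kern (z j) ζ).re) 0 1 := by
    refine Real.circleAverage_mono (circleIntegrable_of_cont (continuousOn_PPk hz).abs)
      (circleIntegrable_of_cont (continuousOn_finsetSum _ fun j _ => hc j)) ?_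
    intro ζ hζ
    rw [abs_one] at hζ
    unfold PPk
    refine (Finset.abs_sum_le_sum_abs _ _).trans (le_of_eq ?_)
    refine Finset.sum_congr rfl fun j _ => ?_
    rw [abs_mul, abs_of_nonneg (kern_re_nonneg (hz j) hζ)]
  refine h1.trans (le_of_eq ?_)
  rw [Real.circleAverage_fun_sum (fun j _ => circleIntegrable_of_cont (hc j))]
  refine Finset.sum_congr rfl fun j _ => ?_
  have := Real.circleAverage_fun_smul (a := |a j|) (f := fun ζ => (kern (z j) ζ).re) (c := 0) (R := 1)
  simp only [smul_eq_mul] at this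
  rw [this, avg_re_kern (hz j), mul_one]

lemma differentiableOn_hh {a : ι → ℝ} {z : ι → ℂ} {R' : ℝ} (hR' : ∀ j, ‖z j‖ * R' < 1) :
    DifferentiableOn ℂ (hh a z) (ball 0 R') := by
  unfold hh
  refine DifferentiableOn.fun_sum fun j _ => ?_
  refine DifferentiableOn.const_mul ?_ _
  unfold kadj
  refine DifferentiableOn.div (by fun_prop) (by fun_prop) ?_
  intro ζ hζ h
  have h1 : conj (z j) * ζ = 1 := (sub_eq_zero.1 h).symm
  have h2 : ‖conj (z j) * ζ‖ < 1 := by
    rw [norm_mul, Complex.norm_conj]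
    refine lt_of_le_of_lt ?_ (hR' j)
    have := (mem_ball_zero_iff.1 hζ).le
    gcongr
  rw [h1, norm_one] at h2
  exact lt_irrefl _ h2

lemma hh_zero {a : ι → ℝ} {z : ι → ℂ} (ha : ∑ j, a j = 0) : hh a z 0 = 0 := by
  unfold hh kadj
  simp only [mul_zero, add_zero, sub_zero, div_one, mul_one]
  rw [← Complex.ofReal_sum, ha, Complex.ofReal_zero]

theorem pairing {L : ℂ → ℂ} {R : ℝ} (hR : 1 < R) (hL : DifferentiableOn ℂ L (ball 0 R))
    (hinj : InjOn (fun z => Complex.exp (L z)) (ball 0 1))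
    {a : ι → ℝ} {z : ι → ℂ} (hz : ∀ j, z j ∈ ball (0:ℂ) 1) (ha : ∑ j, a j = 0) :
    -(∑ j, a j * (L (z j)).im) ≤ π * (∑ j, |a j|) +
      18 * π * Real.circleAverage (fun ζ => |kk a z ζ|) 0 1 := by
  have hpi := Real.pi_pos
  obtain ⟨R', hR'1, hR'R, hR'⟩ := exists_radius hR hz
  have hL' : DifferentiableOn ℂ L (ball 0 R') := hL.mono (ball_subset_ball hR'R)
  have hLcl : DiffContOnCl ℂ L (ball 0 1) := hL'.diffContOnCl_ball (closedBall_subset_ball hR'1)
  have hLs : ContinuousOn L (sphere 0 1) :=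
    hL'.continuousOn.mono (sphere_subset_closedBall.trans (closedBall_subset_ball hR'1))
  have hPc := continuousOn_PPk (a := a) hz
  have hkc := continuousOn_kk (a := a) hz
  have hre : ContinuousOn (fun ζ => (L ζ).re) (sphere 0 1) :=
    Complex.continuous_re.comp_continuousOn hLs
  have him : ContinuousOn (fun ζ => (L ζ).im) (sphere 0 1) :=
    Complex.continuous_im.comp_continuousOn hLs
  -- (i)
  have e1 : ∑ j, a j * (L (z j)).im = Real.circleAverage (fun ζ => PPk a z ζ * (L ζ).im) 0 1 := by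
    have h1 : (fun ζ => PPk a z ζ * (L ζ).im) =
        fun ζ => ∑ j, a j • ((kern (z j) ζ).re * (L ζ).im) := by
      funext ζ
      unfold PPk
      rw [Finset.sum_mul]
      refine Finset.sum_congr rfl fun j _ => ?_
      rw [smul_eq_mul]; ring
    have hci : ∀ j, ContinuousOn (fun ζ => a j • ((kern (z j) ζ).re * (L ζ).im)) (sphere 0 1) :=
      fun j => by
        have h0 : ContinuousOn (fun ζ => (kern (z j) ζ).re * (L ζ).im) (sphere 0 1) :=
          (Complex.continuous_re.comp_continuousOn (continuousOn_kern (hz j))).mul him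
        exact ContinuousOn.smul (continuousOn_const (c := a j)) h0
    rw [h1, Real.circleAverage_fun_sum (f := fun j ζ => a j • ((kern (z j) ζ).re * (L ζ).im))
      (fun j _ => circleIntegrable_of_cont (hci j))]
    refine Finset.sum_congr rfl fun j _ => ?_
    rw [Real.circleAverage_fun_smul, avg_re_kern_im hLcl (hz j), smul_eq_mul]
  -- (ii)
  have e2 : Real.circleAverage (fun ζ => PPk a z ζ * (L ζ).im) 0 1 =
      Real.circleAverage (fun ζ => (L ζ).re * kk a z ζ) 0 1 := by
    have hprod : DiffContOnCl ℂ (fun ζ => L ζ * hh a z ζ) (ball 0 1) :=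
      (hL'.mul (differentiableOn_hh hR')).diffContOnCl_ball (closedBall_subset_ball hR'1)
    have hprod' : DiffContOnCl ℂ (fun ζ => L ζ * hh a z ζ) (ball 0 |1|) := by
      rwa [abs_one]
    have h1 := hprod'.circleAverage
    rw [hh_zero ha, mul_zero] at h1
    have hhs : ContinuousOn (hh a z) (sphere 0 1) := (differentiableOn_hh hR').continuousOn.mono
      (sphere_subset_closedBall.trans (closedBall_subset_ball hR'1))
    have hi : CircleIntegrable (fun ζ => L ζ * hh a z ζ) 0 1 :=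
      circleIntegrable_of_cont (hLs.mul hhs)
    have h2 := (Complex.imCLM).circleAverage_comp_comm hi
    rw [h1] at h2
    simp only [Complex.imCLM_apply, Complex.zero_im] at h2
    have h3 : Real.circleAverage (Complex.imCLM ∘ fun ζ => L ζ * hh a z ζ) 0 1 =
        Real.circleAverage (fun ζ => PPk a z ζ * (L ζ).im - (L ζ).re * kk a z ζ) 0 1 := by
      refine Real.circleAverage_congr_sphere ?_
      intro ζ hζ
      rw [abs_one] at hζ
      simp only [Function.comp_apply, Complex.imCLM_apply]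
      rw [Complex.mul_im, hh_re hζ, hh_im hζ]
      ring
    rw [h3, Real.circleAverage_fun_sub (f₁ := fun ζ => PPk a z ζ * (L ζ).im)
      (f₂ := fun ζ => (L ζ).re * kk a z ζ) (circleIntegrable_of_cont (hPc.mul him))
      (circleIntegrable_of_cont (hre.mul hkc))] at h2
    linarith
  -- (iii)
  have hζR : ∀ ζ ∈ ball (0:ℂ) R', ∀ j, ‖z j‖ * ‖ζ‖ < 1 := by
    intro ζ hζ j
    refine lt_of_le_of_lt ?_ (hR' j)
    have := (mem_ball_zero_iff.1 hζ).le
    gcongr
  have hΦ : DifferentiableOn ℂ (Phi a z) (ball 0 R') := fun ζ hζ =>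
    (hasDerivAt_Phi (hζR ζ hζ)).differentiableAt.differentiableWithinAt
  have hkey := key_ineq hR'1 hL' hΦ hinj
  have hexpR : ∀ θ : ℝ, Complex.exp (θ * I) ∈ ball (0:ℂ) R' := fun θ =>
    closedBall_subset_ball hR'1 (exp_mem_closedBall θ)
  have e3 : ∀ θ : ℝ, I * Complex.exp (θ * I) * deriv (Phi a z) (Complex.exp (θ * I)) =
      hh a z (Complex.exp (θ * I)) := fun θ => I_mul_deriv_Phi ha (hζR _ (hexpR θ))
  have e4 : ∀ θ : ℝ, bdv' (Phi a z) θ = - kk a z (Complex.exp (θ * I)) := by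
    intro θ
    rw [bdv', e3, hh_im (sphere_of_exp θ)]
  simp only [e3, e4, hh_re (sphere_of_exp _), abs_neg] at hkey
  -- (iv)
  have hmul := mul_le_mul_of_nonneg_left hkey (by positivity : 0 ≤ (2 * π)⁻¹)
  have e5 : (2 * π)⁻¹ * (π * (∫ θ in (-π)..π, |PPk a z (Complex.exp (θ * I))|)
      + 18 * π * ∫ θ in (-π)..π, |kk a z (Complex.exp (θ * I))|)
      = π * Real.circleAverage (fun ζ => |PPk a z ζ|) 0 1 +
        18 * π * Real.circleAverage (fun ζ => |kk a z ζ|) 0 1 := by
    rw [circleAverage_eq_pi, circleAverage_eq_pi]; ring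
  rw [e5] at hmul
  have e6 : -(∑ j, a j * (L (z j)).im) ≤ (2 * π)⁻¹ *
      |∫ θ in (-π)..π, (L (Complex.exp (θ * I))).re * - kk a z (Complex.exp (θ * I))| := by
    rw [e1, e2, circleAverage_eq_pi, ← mul_neg, ← intervalIntegral.integral_neg]
    refine mul_le_mul_of_nonneg_left ?_ (by positivity)
    refine le_trans (le_of_eq ?_) (le_abs_self _)
    congr 1
    funext θ
    ring
  have e7 := mul_le_mul_of_nonneg_left (avg_abs_PPk_le (a := a) hz) hpi.le
  linarith

end

/-- analytic functions on the unit disc with real part bounded by `C` -/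
def Adm (C : ℝ) (b : ℂ → ℂ) : Prop :=
  DifferentiableOn ℂ b (ball 0 1) ∧ ∀ w ∈ ball (0:ℂ) 1, |(b w).re| ≤ C

lemma adm_const (C : ℝ) (hC : 0 ≤ C) (k : ℝ) : Adm C (fun _ => (k : ℂ) * I) := by
  refine ⟨differentiableOn_const _, fun w _ => ?_⟩
  simp [hC]

/-- the analytic completion of the Poisson integral -/
noncomputable def hint (β : ℂ → ℝ) (w : ℂ) : ℂ :=
  Real.circleAverage (fun ζ => herglotzRieszKernel 0 w ζ • ((β ζ : ℝ) : ℂ)) 0 1

lemma adm_hint {β : ℂ → ℝ} {C : ℝ} (hβ : ContinuousOn β (sphere 0 1))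
    (hC : ∀ ζ ∈ sphere (0:ℂ) 1, |β ζ| ≤ C) : Adm C (hint β) := by
  have hβc : ContinuousOn (fun ζ => ((β ζ : ℝ) : ℂ)) (sphere 0 1) :=
    Complex.continuous_ofReal.comp_continuousOn hβ
  refine ⟨differentiableOn_circleAverage_herglotzRieszKernel_smul
    (circleIntegrable_of_cont hβc), fun w hw => ?_⟩
  unfold hint
  rw [re_circleAverage_herglotzRieszKernel_smul (circleIntegrable_of_cont hβ) hw]
  have hre : ContinuousOn (fun ζ => (kern w ζ).re) (sphere (0:ℂ) 1) :=
    Complex.continuous_re.comp_continuousOn (continuousOn_kern hw)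
  have e1 : ((Complex.re ∘ herglotzRieszKernel 0 w) • β) = fun ζ => (kern w ζ).re * β ζ := by
    funext ζ; rfl
  rw [e1]
  refine Real.abs_circleAverage_le_circleAverage_abs.trans ?_
  have h1 : Real.circleAverage |fun ζ => (kern w ζ).re * β ζ| 0 1 ≤
      Real.circleAverage (fun ζ => C • (kern w ζ).re) 0 1 := by
    refine Real.circleAverage_mono (circleIntegrable_of_cont (hre.mul hβ).abs)
      (circleIntegrable_of_cont (ContinuousOn.smul (continuousOn_const (c := C)) hre)) ?_
    intro ζ hζ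
    rw [abs_one] at hζ
    rw [Pi.abs_apply, abs_mul, abs_of_nonneg (kern_re_nonneg hw hζ), smul_eq_mul, mul_comm]
    exact mul_le_mul_of_nonneg_right (hC ζ hζ) (kern_re_nonneg hw hζ)
  refine h1.trans (le_of_eq ?_)
  rw [Real.circleAverage_fun_smul, avg_re_kern hw, smul_eq_mul, mul_one]

lemma hint_im {β : ℂ → ℝ} (hβ : ContinuousOn β (sphere 0 1)) {w : ℂ} (hw : w ∈ ball (0:ℂ) 1) :
    (hint β w).im = Real.circleAverage (fun ζ => (kern w ζ).im * β ζ) 0 1 := by
  have hβc : ContinuousOn (fun ζ => ((β ζ : ℝ) : ℂ)) (sphere 0 1) :=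
    Complex.continuous_ofReal.comp_continuousOn hβ
  have hi : CircleIntegrable (fun ζ => herglotzRieszKernel 0 w ζ • ((β ζ : ℝ) : ℂ)) 0 1 :=
    circleIntegrable_of_cont (ContinuousOn.smul (continuousOn_kern hw) hβc)
  have h2 := (Complex.imCLM).circleAverage_comp_comm hi
  simp only [Complex.imCLM_apply] at h2
  unfold hint
  rw [← h2]
  congr 1
  funext ζ
  simp [kern]

section
variable {ι : Type*} [Fintype ι]

lemma sum_hint {β : ℂ → ℝ} (hβ : ContinuousOn β (sphere 0 1)) {a : ι → ℝ} {z : ι → ℂ}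
    (hz : ∀ j, z j ∈ ball (0:ℂ) 1) :
    ∑ j, a j * (hint β (z j)).im = Real.circleAverage (fun ζ => kk a z ζ * β ζ) 0 1 := by
  have h1 : (fun ζ => kk a z ζ * β ζ) =
      fun ζ => ∑ j, a j • ((kern (z j) ζ).im * β ζ) := by
    funext ζ
    unfold kk
    rw [Finset.sum_mul]
    refine Finset.sum_congr rfl fun j _ => ?_
    rw [smul_eq_mul]; ring
  have hci : ∀ j, ContinuousOn (fun ζ => a j • ((kern (z j) ζ).im * β ζ)) (sphere 0 1) :=
    fun j => by
      have h0 : ContinuousOn (fun ζ => (kern (z j) ζ).im * β ζ) (sphere 0 1) :=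
        (Complex.continuous_im.comp_continuousOn (continuousOn_kern (hz j))).mul hβ
      exact ContinuousOn.smul (continuousOn_const (c := a j)) h0
  rw [h1, Real.circleAverage_fun_sum (f := fun j ζ => a j • ((kern (z j) ζ).im * β ζ))
    (fun j _ => circleIntegrable_of_cont (hci j))]
  refine Finset.sum_congr rfl fun j _ => ?_
  rw [Real.circleAverage_fun_smul, hint_im hβ (hz j), smul_eq_mul]

theorem finite_dual {L : ℂ → ℂ} {R : ℝ} (hR : 1 < R) (hL : DifferentiableOn ℂ L (ball 0 R))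
    (hinj : InjOn (fun z => Complex.exp (L z)) (ball 0 1))
    {z : ι → ℂ} (hz : ∀ j, z j ∈ ball (0:ℂ) 1) {ε : ℝ} (hε : 0 < ε) :
    ∃ b, Adm (18 * π) b ∧ ∀ j, |(b (z j)).im - (L (z j)).im| < π + ε := by
  classical
  have hpi := Real.pi_pos
  set C : ℝ := 18 * π with hC
  have hC0 : 0 < C := by positivity
  by_contra hcon
  push Not at hcon
  set y : ι → ℝ := fun j => (L (z j)).im with hy
  set B : Set (ι → ℝ) := {v | ∃ b, Adm C b ∧ ∀ j, v j = (b (z j)).im} with hB
  have hBconv : Convex ℝ B := by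
    rintro v ⟨b, hb, hvb⟩ v' ⟨b', hb', hvb'⟩ s t hs ht hst
    refine ⟨fun w => (s : ℂ) * b w + (t : ℂ) * b' w, ⟨?_, ?_⟩, ?_⟩
    · exact (hb.1.const_mul _).add (hb'.1.const_mul _)
    · intro w hw
      have h1 := hb.2 w hw
      have h2 := hb'.2 w hw
      rw [Complex.add_re, Complex.re_ofReal_mul, Complex.re_ofReal_mul]
      calc |s * (b w).re + t * (b' w).re| ≤ |s * (b w).re| + |t * (b' w).re| := abs_add_le _ _
        _ = s * |(b w).re| + t * |(b' w).re| := by
            rw [abs_mul, abs_mul, abs_of_nonneg hs, abs_of_nonneg ht]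
        _ ≤ s * C + t * C := by gcongr
        _ = C := by rw [← add_mul, hst, one_mul]
    · intro j
      simp only [Pi.add_apply, Pi.smul_apply, smul_eq_mul, hvb j, hvb' j, Complex.add_im,
        Complex.im_ofReal_mul]
  have hdisj : Disjoint (ball y (π + ε)) B := by
    rw [Set.disjoint_left]
    rintro v hv ⟨b, hb, hvb⟩
    obtain ⟨j, hj⟩ := hcon b hb
    rw [mem_ball_iff_norm] at hv
    have h1 := norm_le_pi_norm (v - y) j
    rw [Pi.sub_apply, Real.norm_eq_abs, hvb j] at h1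
    simp only [hy] at h1 hv
    linarith
  obtain ⟨f, u, hf1, hf2⟩ := geometric_hahn_banach_open (convex_ball y (π + ε)) isOpen_ball
    hBconv hdisj
  set a : ι → ℝ := fun j => f (Pi.single j 1) with ha
  have hfa : ∀ v : ι → ℝ, f v = ∑ j, a j * v j := by
    intro v
    conv_lhs => rw [← Finset.univ_sum_single v]
    rw [map_sum]
    refine Finset.sum_congr rfl fun j _ => ?_
    have : Pi.single j (v j) = v j • (Pi.single j (1:ℝ) : ι → ℝ) := by
      rw [← Pi.single_smul, smul_eq_mul, mul_one]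
    rw [this, map_smul, smul_eq_mul, mul_comm]
  -- sum of coefficients vanishes
  have hsum : ∑ j, a j = 0 := by
    have h1 : ∀ k : ℝ, u ≤ k * ∑ j, a j := by
      intro k
      have h2 : (fun _ : ι => k) ∈ B := ⟨fun _ => (k : ℂ) * I, adm_const C hC0.le k, fun j => by simp⟩
      have h3 := hf2 _ h2
      rw [hfa] at h3
      refine h3.trans (le_of_eq ?_)
      rw [Finset.mul_sum]
      exact Finset.sum_congr rfl fun j _ => mul_comm _ _
    by_contra hne
    have h4 := h1 ((u - 1) / ∑ j, a j)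
    rw [div_mul_cancel₀ _ hne] at h4
    linarith
  -- upper bound from the ball
  have hup : ∑ j, a j * y j + (π + ε) * ∑ j, |a j| ≤ u := by
    have h1 : ∀ s ∈ Ioo (0:ℝ) (π + ε), ∑ j, a j * y j + s * ∑ j, |a j| ≤ u := by
      intro s hs
      set v : ι → ℝ := fun j => y j + s * SignType.sign (a j) with hv
      have hvm : v ∈ ball y (π + ε) := by
        rw [mem_ball_iff_norm]
        refine lt_of_le_of_lt ((pi_norm_le_iff_of_nonneg hs.1.le).2 fun j => ?_) hs.2
        simp only [hv, Pi.sub_apply, add_sub_cancel_left, Real.norm_eq_abs, abs_mul,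
          abs_of_pos hs.1]
        rcases lt_trichotomy (a j) 0 with h | h | h
        · simp [h]
        · simp [h, hs.1.le]
        · simp [h]
      have h2 := (hf1 v hvm).le
      rw [hfa] at h2
      refine le_trans (le_of_eq ?_) h2
      rw [Finset.mul_sum, ← Finset.sum_add_distrib]
      refine Finset.sum_congr rfl fun j _ => ?_
      simp only [hv]
      have : a j * (SignType.sign (a j) : ℝ) = |a j| := by
        rw [mul_comm, sign_mul_self]
      rw [← this]; ring
    have hlim : Tendsto (fun s : ℝ => ∑ j, a j * y j + s * ∑ j, |a j|) (𝓝[<] (π + ε))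
        (𝓝 (∑ j, a j * y j + (π + ε) * ∑ j, |a j|)) := by
      have : Continuous (fun s : ℝ => ∑ j, a j * y j + s * ∑ j, |a j|) := by fun_prop
      exact (this.tendsto _).mono_left nhdsWithin_le_nhds
    refine le_of_tendsto hlim ?_
    filter_upwards [Ioo_mem_nhdsLT (by linarith : (0:ℝ) < π + ε)] with s hs
    exact h1 s hs
  -- lower bound from test functions
  have hkc := continuousOn_kk (a := a) hz
  set A := Real.circleAverage (fun ζ => |kk a z ζ|) 0 1 with hA
  have hlow : u ≤ -C * A := by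
    have h1 : ∀ δ : ℝ, 0 < δ → u ≤ -C * A + C * δ := by
      intro δ hδ
      set β : ℂ → ℝ := fun ζ => -(C * kk a z ζ) / (|kk a z ζ| + δ) with hβ
      have hβc : ContinuousOn β (sphere 0 1) := by
        refine ContinuousOn.div (continuousOn_const.mul hkc).neg (hkc.abs.add continuousOn_const) ?_
        intro ζ _
        positivity
      have hβb : ∀ ζ ∈ sphere (0:ℂ) 1, |β ζ| ≤ C := by
        intro ζ _
        simp only [hβ]
        rw [abs_div, abs_neg, abs_mul, abs_of_pos hC0,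
          abs_of_pos (by positivity : 0 < |kk a z ζ| + δ), div_le_iff₀ (by positivity)]
        nlinarith [abs_nonneg (kk a z ζ)]
      have h2 : (fun j => (hint β (z j)).im) ∈ B := ⟨hint β, adm_hint hβc hβb, fun j => rfl⟩
      have h3 := hf2 _ h2
      rw [hfa, sum_hint hβc hz] at h3
      refine h3.trans ?_
      have h4 : Real.circleAverage (fun ζ => kk a z ζ * β ζ) 0 1 ≤
          Real.circleAverage (fun ζ => (-C) • (|kk a z ζ| - δ)) 0 1 := by
        refine Real.circleAverage_mono (circleIntegrable_of_cont (hkc.mul hβc))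
          (circleIntegrable_of_cont (ContinuousOn.smul (continuousOn_const (c := -C))
            (hkc.abs.sub continuousOn_const))) ?_
        intro ζ _
        simp only [hβ, smul_eq_mul]
        have h5 : kk a z ζ * (-(C * kk a z ζ) / (|kk a z ζ| + δ)) =
            -C * (|kk a z ζ| ^ 2 / (|kk a z ζ| + δ)) := by
          rw [sq_abs]; ring
        rw [h5]
        have h6 : |kk a z ζ| - δ ≤ |kk a z ζ| ^ 2 / (|kk a z ζ| + δ) := by
          rw [le_div_iff₀ (by positivity)]
          nlinarith [sq_nonneg δ]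
        nlinarith
      refine h4.trans (le_of_eq ?_)
      rw [Real.circleAverage_fun_smul, smul_eq_mul,
        Real.circleAverage_fun_sub (f₁ := fun ζ => |kk a z ζ|) (f₂ := fun _ => δ)
        (circleIntegrable_of_cont hkc.abs) (circleIntegrable_of_cont continuousOn_const),
        Real.circleAverage_const]
      ring
    refine le_of_forall_pos_le_add fun δ hδ => ?_
    have := h1 (δ / C) (by positivity)
    rw [mul_div_cancel₀ _ hC0.ne'] at this
    exact this
  have hpair := pairing hR hL hinj hz hsum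
  have hy' : ∑ j, a j * (L (z j)).im = ∑ j, a j * y j := rfl
  rw [hy'] at hpair
  have hS : ∑ j, |a j| ≤ 0 := by
    have : ε * ∑ j, |a j| ≤ 0 := by nlinarith
    by_contra h
    rw [not_le] at h
    nlinarith [mul_pos hε h]
  have ha0 : ∀ j, a j = 0 := by
    intro j
    have h1 := Finset.single_le_sum (f := fun j => |a j|) (fun _ _ => abs_nonneg _)
      (Finset.mem_univ j)
    have h2 : |a j| ≤ 0 := h1.trans hS
    exact abs_eq_zero.1 (le_antisymm h2 (abs_nonneg _))
  have h1 := hf1 y (mem_ball_self (by linarith))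
  have h2 : (fun _ : ι => (0:ℝ)) ∈ B := ⟨fun _ => ((0:ℝ) : ℂ) * I, adm_const C hC0.le 0, fun j => by simp⟩
  have h3 := hf2 _ h2
  rw [hfa] at h1 h3
  simp [ha0] at h1 h3
  linarith

end

end Pool.Agent.H71UF
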