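import Mathlib
import Pool.Agent.H71UF.Dual

set_option autoImplicit false

/-!
Compactness: passing from finitely many conditions to all conditions.
-/

open MeasureTheory Set Metric Filter Complex
open scoped Real Topology ComplexConjugate

namespace Pool.Agent.H71UF

/-- coefficient bounds -/
noncomputable def KK (D : ℝ) (n : ℕ) : ℝ := D * (n + 2) * Real.exp 1

/-- admissible coefficient sequences -/
def XX (D : ℝ) : Set (ℕ → ℂ) := Set.pi univ fun n => closedBall (0:ℂ) (KK D n)

/-- power series -/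
noncomputable def ser (a : ℕ → ℂ) (z : ℂ) : ℂ := ∑' n, a n * z ^ n

lemma isCompact_XX (D : ℝ) : IsCompact (XX D) :=
  isCompact_univ_pi fun _ => isCompact_closedBall _ _

lemma summable_KK (D : ℝ) {r : ℝ} (hr0 : 0 ≤ r) (hr : r < 1) :
    Summable fun n : ℕ => KK D n * r ^ n := by
  have hn : ‖r‖ < 1 := by rwa [Real.norm_eq_abs, abs_of_nonneg hr0]
  have h1 := summable_pow_mul_geometric_of_norm_lt_one 1 hn
  have h2 := summable_geometric_of_norm_lt_one hn
  have h3 := (h1.add (h2.mul_left 2)).mul_left (D * Real.exp 1)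
  refine h3.congr fun n => ?_
  unfold KK
  ring

lemma norm_term_le {D : ℝ} {a : ℕ → ℂ} (ha : a ∈ XX D) {z : ℂ} {r : ℝ} (hz : ‖z‖ ≤ r) (n : ℕ) :
    ‖a n * z ^ n‖ ≤ KK D n * r ^ n := by
  have h1 : ‖a n‖ ≤ KK D n := by
    have := ha n (mem_univ n)
    rwa [mem_closedBall_zero_iff] at this
  rw [norm_mul, norm_pow]
  have h2 := norm_nonneg (a n)
  have h3 := norm_nonneg z
  gcongr
  linarith

lemma continuousOn_ser (D : ℝ) {z : ℂ} (hz : z ∈ ball (0:ℂ) 1) :
    ContinuousOn (fun a => ser a z) (XX D) := by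
  unfold ser
  refine continuousOn_tsum (u := fun n => KK D n * ‖z‖ ^ n) ?_
    (summable_KK D (norm_nonneg z) (mem_ball_zero_iff.1 hz)) ?_
  · intro n
    exact ((continuous_apply n).mul continuous_const).continuousOn
  · intro n a ha
    exact norm_term_le ha le_rfl n

lemma differentiableOn_ser {D : ℝ} {a : ℕ → ℂ} (ha : a ∈ XX D) :
    DifferentiableOn ℂ (ser a) (ball 0 1) := by
  intro z hz
  rw [mem_ball_zero_iff] at hz
  obtain ⟨r, hr1, hr2⟩ := exists_between hz
  have hr0 : 0 ≤ r := (norm_nonneg z).trans hr1.le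
  have h := Complex.differentiableOn_tsum_of_summable_norm (F := fun n (z : ℂ) => a n * z ^ n)
    (U := ball (0:ℂ) r) (summable_KK D hr0 hr2)
    (fun n => by fun_prop) isOpen_ball
    (fun n w hw => norm_term_le ha (mem_ball_zero_iff.1 hw).le n)
  have hzr : z ∈ ball (0:ℂ) r := mem_ball_zero_iff.2 hr1
  exact ((h z hzr).differentiableAt (isOpen_ball.mem_nhds hzr)).differentiableWithinAt

lemma exists_coeff {C B : ℝ} (hC : 0 < C) {b : ℂ → ℂ} (hb : Adm C b) (hB : ‖b 0‖ ≤ B) :
    ∃ a ∈ XX (2 * C + 2 * B), ∀ z ∈ ball (0:ℂ) 1, ser a z = b z := by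
  have hB0 : 0 ≤ B := (norm_nonneg _).trans hB
  refine ⟨fun n => ((n.factorial : ℂ))⁻¹ * iteratedDeriv n b 0, ?_, ?_⟩
  · intro n _
    rw [mem_closedBall_zero_iff]
    set r : ℝ := (n + 1) / (n + 2) with hr
    have hn2 : (0:ℝ) < (n:ℝ) + 2 := by positivity
    have hr0 : 0 < r := by positivity
    have hr1 : r < 1 := by rw [hr, div_lt_one hn2]; linarith
    have hr2 : 1 - r = 1 / (n + 2) := by rw [hr]; field_simp; ring
    have hcl : DiffContOnCl ℂ b (ball 0 r) := hb.1.diffContOnCl_ball (closedBall_subset_ball hr1)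
    have hbound : ∀ z ∈ sphere (0:ℂ) r, ‖b z‖ ≤ (2 * C + 2 * B) * (n + 2) := by
      intro z hz
      rw [mem_sphere_zero_iff_norm] at hz
      have hzb : z ∈ ball (0:ℂ) 1 := by rw [mem_ball_zero_iff, hz]; exact hr1
      have h1 := Complex.borelCaratheodory hC hb.1
        (fun w hw => (le_abs_self _).trans (hb.2 w hw)) one_pos hzb
      rw [hz, hr2] at h1
      refine h1.trans ?_
      rw [div_div_eq_mul_div, div_div_eq_mul_div, div_one, div_one]
      have e1 : 2 * C * r * (n + 2) ≤ 2 * C * (n + 2) := by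
        have : 2 * C * r ≤ 2 * C * 1 := by gcongr
        rw [mul_one] at this
        gcongr
      have e2 : ‖b 0‖ * (1 + r) * (n + 2) ≤ B * 2 * (n + 2) := by
        gcongr
        linarith
      linarith
    have h1 := norm_iteratedDeriv_le_of_forall_mem_sphere_norm_le n hr0 hcl hbound
    rw [norm_mul, norm_inv, Complex.norm_natCast]
    have hfac : (0:ℝ) < n.factorial := by exact_mod_cast n.factorial_pos
    rw [inv_mul_le_iff₀ hfac]
    refine h1.trans ?_
    unfold KK
    rw [mul_div_assoc]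
    refine mul_le_mul_of_nonneg_left ?_ hfac.le
    rw [div_le_iff₀ (by positivity), mul_assoc]
    refine le_mul_of_one_le_right (by positivity) ?_
    -- 1 ≤ e * r ^ n
    have h2 : (1 / r) ^ n ≤ Real.exp 1 := by
      have h3 : 1 / r ≤ Real.exp (1 / (n + 1)) := by
        have := Real.add_one_le_exp (1 / ((n:ℝ) + 1))
        refine le_trans (le_of_eq ?_) this
        rw [hr]; field_simp; ring
      calc (1 / r) ^ n ≤ (Real.exp (1 / (n + 1))) ^ n := by gcongr
        _ = Real.exp (n * (1 / (n + 1))) := by rw [← Real.exp_nat_mul]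
        _ ≤ Real.exp 1 := by
            rw [Real.exp_le_exp, mul_one_div, div_le_one (by positivity)]
            linarith
    rw [one_div, inv_pow, inv_le_iff_one_le_mul₀ (by positivity)] at h2
    exact h2
  · intro z hz
    have := Complex.taylorSeries_eq_on_ball' (c := 0) hz hb.1
    simp only [sub_zero] at this
    exact this

theorem compact_dual {y : ℂ → ℝ} {C P : ℝ} (hC : 0 < C)
    (h : ∀ F : Finset ℂ, (∀ z ∈ F, z ∈ ball (0:ℂ) 1) → ∀ ε : ℝ, 0 < ε →
      ∃ b, Adm C b ∧ ∀ z ∈ F, |(b z).im - y z| < P + ε) :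
    ∃ b, Adm C b ∧ ∀ z ∈ ball (0:ℂ) 1, |(b z).im - y z| ≤ P := by
  classical
  set B : ℝ := C + |y 0| + P + 1 with hB
  set D : ℝ := 2 * C + 2 * B with hD
  set T : (ball (0:ℂ) 1) × (Ioi (0:ℝ)) → Set (ℕ → ℂ) := fun i =>
    XX D ∩ (fun a => ser a i.1) ⁻¹' {v : ℂ | |v.im - y i.1| ≤ P + i.2 ∧ |v.re| ≤ C} with hT
  have hclosed : ∀ i, IsClosed (T i) := by
    intro i
    refine (continuousOn_ser D i.1.2).preimage_isClosed_of_isClosed (isCompact_XX D).isClosed ?_
    refine IsClosed.and ?_ ?_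
    · exact isClosed_le (by fun_prop) continuous_const
    · exact isClosed_le (by fun_prop) continuous_const
  obtain ⟨a, haX, haT⟩ := (isCompact_XX D).inter_iInter_nonempty T hclosed (by
    intro u
    -- choose epsilon
    obtain ⟨ε, hε0, hε1, hεu⟩ : ∃ ε : ℝ, 0 < ε ∧ ε ≤ 1 ∧ ∀ i ∈ u, ε ≤ i.2 := by
      induction u using Finset.induction_on with
      | empty => exact ⟨1, one_pos, le_rfl, by simp⟩
      | insert i s _ ih =>
        obtain ⟨ε, h0, h1, h2⟩ := ih
        refine ⟨min ε i.2, lt_min h0 i.2.2, (min_le_left _ _).trans h1, ?_⟩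
        intro j hj
        rw [Finset.mem_insert] at hj
        rcases hj with rfl | hj
        · exact min_le_right _ _
        · exact (min_le_left _ _).trans (h2 j hj)
    obtain ⟨b, hb, hbF⟩ := h (insert 0 (u.image fun i => (i.1 : ℂ))) (by
      intro z hz
      rw [Finset.mem_insert, Finset.mem_image] at hz
      rcases hz with rfl | ⟨i, _, rfl⟩
      · exact mem_ball_self one_pos
      · exact i.1.2) ε hε0
    have hb0 : ‖b 0‖ ≤ B := by
      have h1 := hbF 0 (Finset.mem_insert_self _ _)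
      have h2 := hb.2 0 (mem_ball_self one_pos)
      have h3 := Complex.norm_le_abs_re_add_abs_im (b 0)
      have h4 : |(b 0).im| ≤ |(b 0).im - y 0| + |y 0| := by
        have := abs_add_le ((b 0).im - y 0) (y 0)
        rwa [sub_add_cancel] at this
      rw [hB]
      linarith
    obtain ⟨a, ha, hab⟩ := exists_coeff hC hb hb0
    refine ⟨a, ha, ?_⟩
    simp only [mem_iInter]
    intro i hi
    refine ⟨ha, ?_⟩
    have hiF : (i.1 : ℂ) ∈ insert (0:ℂ) (u.image fun i => (i.1 : ℂ)) :=
      Finset.mem_insert_of_mem (Finset.mem_image_of_mem _ hi)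
    refine ⟨?_, ?_⟩
    · simp only [hab _ i.1.2]
      have := (hbF _ hiF).le
      have := hεu i hi
      linarith
    · simp only [hab _ i.1.2]
      exact hb.2 _ i.1.2)
  rw [mem_iInter] at haT
  refine ⟨ser a, ⟨differentiableOn_ser haX, ?_⟩, ?_⟩
  · intro w hw
    exact (haT (⟨w, hw⟩, ⟨1, mem_Ioi.2 one_pos⟩)).2.2
  · intro z hz
    refine le_of_forall_pos_le_add fun ε hε => ?_
    exact (haT (⟨z, hz⟩, ⟨ε, hε⟩)).2.1

end Pool.Agent.H71UF
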