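import Mathlib
import Pool.Agent.H71UF.Compact

set_option autoImplicit false

/-!
Final assembly: the factorisation.
-/

open MeasureTheory Set Metric Filter Complex
open scoped Real Topology ComplexConjugate

namespace Pool.Agent.H71UF

lemma exists_holo_log {f : ℂ → ℂ} (hf : DifferentiableOn ℂ f (ball 0 1))
    (h0 : ∀ z ∈ ball (0:ℂ) 1, f z ≠ 0) :
    ∃ L : ℂ → ℂ, DifferentiableOn ℂ L (ball 0 1) ∧ ∀ z ∈ ball (0:ℂ) 1, Complex.exp (L z) = f z := by
  have hq : DifferentiableOn ℂ (fun z => deriv f z / f z) (ball 0 1) :=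
    (hf.deriv isOpen_ball).div hf h0
  obtain ⟨g, hg⟩ := hq.isExactOn_ball.with_val_at 0 (Complex.log (f 0))
  have hgd : ∀ z ∈ ball (0:ℂ) 1, HasDerivAt g (deriv f z / f z) z := hg.2
  have hg0 : g 0 = Complex.log (f 0) := hg.1
  refine ⟨g, fun z hz => (hgd z hz).differentiableAt.differentiableWithinAt, ?_⟩
  have hfd : ∀ z ∈ ball (0:ℂ) 1, HasDerivAt f (deriv f z) z := fun z hz =>
    ((hf z hz).differentiableAt (isOpen_ball.mem_nhds hz)).hasDerivAt
  have hzero : ∀ z ∈ ball (0:ℂ) 1, HasDerivAt (fun z => f z * Complex.exp (-g z)) 0 z := by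
    intro z hz
    have h1 := (hfd z hz).mul ((hgd z hz).neg.cexp)
    refine h1.congr_deriv ?_
    have := h0 z hz
    field_simp
    ring
  have hconst : ∀ z ∈ ball (0:ℂ) 1, f z * Complex.exp (-g z) = f 0 * Complex.exp (-g 0) := by
    intro z hz
    have := (convex_ball (0:ℂ) 1).is_const_of_fderivWithin_eq_zero (𝕜 := ℂ)
      (f := fun z => f z * Complex.exp (-g z))
      (fun w hw => (hzero w hw).differentiableAt.differentiableWithinAt)
      (fun w hw => by
        rw [fderivWithin_of_isOpen isOpen_ball hw]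
        have := (hzero w hw).hasFDerivAt.fderiv
        rw [this]
        ext
        simp) hz (mem_ball_self one_pos)
    exact this
  intro z hz
  have h1 := hconst z hz
  rw [hg0, Complex.exp_neg (Complex.log (f 0)), Complex.exp_log (h0 0 (mem_ball_self one_pos)),
    mul_inv_cancel₀ (h0 0 (mem_ball_self one_pos)), Complex.exp_neg,
    mul_inv_eq_one₀ (Complex.exp_ne_zero _)] at h1
  exact h1.symm

theorem exists_b {f L : ℂ → ℂ} (hinj : InjOn f (ball 0 1))
    (hL : DifferentiableOn ℂ L (ball 0 1)) (hLf : ∀ z ∈ ball (0:ℂ) 1, Complex.exp (L z) = f z) :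
    ∃ b, Adm (18 * π) b ∧ ∀ z ∈ ball (0:ℂ) 1, |(b z).im - (L z).im| ≤ π := by
  refine compact_dual (by positivity) ?_
  intro F hF ε hε
  -- choose r
  have hLc : ContinuousOn L (ball 0 1) := hL.continuousOn
  have h1 : ∀ᶠ r : ℝ in 𝓝[<] 1, ∀ z ∈ F, |(L (r * z)).im - (L z).im| < ε / 2 := by
    rw [Finset.eventually_all]
    intro z hz
    have hzb := hF z hz
    have hcont : ContinuousAt (fun r : ℝ => (L (r * z)).im) 1 := by
      have e : (((1:ℝ) : ℂ) * z) = z := by simp
      have h2 : ContinuousAt L (((1:ℝ) : ℂ) * z) := by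
        rw [e]; exact hLc.continuousAt (isOpen_ball.mem_nhds hzb)
      have h3 : ContinuousAt (fun r : ℝ => (r : ℂ) * z) 1 := by fun_prop
      exact Complex.continuous_im.continuousAt.comp (ContinuousAt.comp (f := fun r : ℝ => (r : ℂ) * z) h2 h3)
    have h4 : Tendsto (fun r : ℝ => |(L (r * z)).im - (L z).im|) (𝓝 1) (𝓝 0) := by
      have := (hcont.sub_const (L z).im).abs
      simpa [ContinuousAt] using this
    exact (h4.mono_left nhdsWithin_le_nhds).eventually (gt_mem_nhds (by positivity))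
  obtain ⟨r, hr1, hr2⟩ := (h1.and (Ioo_mem_nhdsLT (zero_lt_one' ℝ))).exists
  have hr0 : 0 < r := hr2.1
  have hrlt : r < 1 := hr2.2
  set Lr : ℂ → ℂ := fun z => L (r * z) with hLr
  have hmaps : MapsTo (fun z : ℂ => (r : ℂ) * z) (ball 0 (1 / r)) (ball 0 1) := by
    intro z hz
    rw [mem_ball_zero_iff] at hz ⊢
    rw [norm_mul, Complex.norm_real, Real.norm_eq_abs, abs_of_pos hr0]
    calc r * ‖z‖ < r * (1 / r) := by gcongr
      _ = 1 := by field_simp
  have hLrd : DifferentiableOn ℂ Lr (ball 0 (1 / r)) :=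
    hL.comp (by fun_prop) hmaps
  have hsub : ball (0:ℂ) 1 ⊆ ball 0 (1 / r) := ball_subset_ball (by
    rw [le_div_iff₀ hr0]; linarith)
  have hinjr : InjOn (fun z => Complex.exp (Lr z)) (ball 0 1) := by
    intro z hz w hw hzw
    have hz' := hmaps (hsub hz)
    have hw' := hmaps (hsub hw)
    simp only [hLr] at hzw
    rw [hLf _ hz', hLf _ hw'] at hzw
    have := hinj hz' hw' hzw
    exact mul_left_cancel₀ (by exact_mod_cast hr0.ne') this
  obtain ⟨b, hb, hbF⟩ := finite_dual (ι := F) (z := fun i => (i : ℂ)) (R := 1 / r)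
    (by rw [lt_div_iff₀ hr0]; linarith) hLrd hinjr (fun i => hF i.1 i.2) (ε := ε / 2) (by positivity)
  refine ⟨b, hb, fun z hz => ?_⟩
  have h2 := hbF ⟨z, hz⟩
  have h3 := hr1 z hz
  simp only [hLr] at h2
  calc |(b z).im - (L z).im| = |((b z).im - (L (r * z)).im) + ((L (r * z)).im - (L z).im)| := by
        congr 1; ring
    _ ≤ |(b z).im - (L (r * z)).im| + |(L (r * z)).im - (L z).im| := abs_add_le _ _
    _ < π + ε := by linarith

theorem factor (f : ℂ → ℂ) (hf : DifferentiableOn ℂ f (ball (0:ℂ) 1))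
    (hinj : InjOn f (ball (0:ℂ) 1)) (h0 : ∀ z ∈ ball (0:ℂ) 1, f z ≠ 0) :
      ∃ B F : ℂ → ℂ,
        DifferentiableOn ℂ B (ball (0:ℂ) 1) ∧
        DifferentiableOn ℂ F (ball (0:ℂ) 1) ∧
        (∃ M : ℝ, ∀ z ∈ ball (0:ℂ) 1, ‖B z‖ ≤ M) ∧
        (∃ M : ℝ, ∀ z ∈ ball (0:ℂ) 1, B z ≠ 0 ∧ ‖(B z)⁻¹‖ ≤ M) ∧
        (∀ z ∈ ball (0:ℂ) 1, 0 < (F z).re) ∧
        (∀ z ∈ ball (0:ℂ) 1, f z = B z * F z ^ 2) := by
  obtain ⟨L, hL, hLf⟩ := exists_holo_log hf h0
  obtain ⟨b, hb, hbL⟩ := exists_b hinj hL hLf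
  set C : ℝ := 18 * π with hC
  set G : ℂ → ℂ := fun z => L z - b z with hG
  have hGd : DifferentiableOn ℂ G (ball 0 1) := hL.sub hb.1
  have hGim : ∀ z ∈ ball (0:ℂ) 1, |(G z).im| ≤ π := by
    intro z hz
    have := hbL z hz
    rw [hG, Complex.sub_im, abs_sub_comm]
    exact this
  have hGan : AnalyticOnNhd ℂ G (ball 0 1) := hGd.analyticOnNhd isOpen_ball
  rcases hGan.is_constant_or_isOpen (convex_ball (0:ℂ) 1).isPreconnected with ⟨w, hw⟩ | hopen
  · -- G is constant
    refine ⟨f, fun _ => 1, hf, differentiableOn_const _, ⟨Real.exp (C + w.re), ?_⟩,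
      ⟨Real.exp (C - w.re), ?_⟩, fun z _ => by simp, fun z _ => by simp⟩
    · intro z hz
      rw [← hLf z hz, Complex.norm_exp, Real.exp_le_exp]
      have h1 := hw z hz
      have h2 := (abs_le.1 (hb.2 z hz)).2
      have h3 : (L z).re = (b z).re + w.re := by
        rw [← h1]; simp [hG]
      linarith
    · intro z hz
      refine ⟨h0 z hz, ?_⟩
      rw [← hLf z hz, ← Complex.exp_neg, Complex.norm_exp, Real.exp_le_exp, Complex.neg_re]
      have h1 := hw z hz
      have h2 := (abs_le.1 (hb.2 z hz)).1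
      have h3 : (L z).re = (b z).re + w.re := by
        rw [← h1]; simp [hG]
      linarith
  · -- G is open
    have hlt : ∀ z ∈ ball (0:ℂ) 1, |(G z).im| < π := by
      intro z hz
      have ho := hopen (ball 0 1) Subset.rfl isOpen_ball
      obtain ⟨δ, hδ, hδs⟩ := Metric.isOpen_iff.1 ho (G z) ⟨z, hz, rfl⟩
      have hmem : ∀ s : ℝ, |s| < δ → |(G z).im + s| ≤ π := by
        intro s hs
        have h1 : G z + s * I ∈ G '' ball 0 1 := by
          apply hδs
          rw [mem_ball_iff_norm, add_sub_cancel_left, norm_mul, Complex.norm_I, mul_one,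
            Complex.norm_real, Real.norm_eq_abs]
          exact hs
        obtain ⟨u, hu, hu2⟩ := h1
        have h2 := hGim u hu
        rw [hu2] at h2
        simpa using h2
      have h1 := abs_le.1 (hmem (δ / 2) (by rw [abs_of_pos (by positivity)]; linarith))
      have h2 := abs_le.1 (hmem (-(δ / 2)) (by rw [abs_neg, abs_of_pos (by positivity)]; linarith))
      exact abs_lt.2 ⟨by linarith [h2.1], by linarith [h1.2]⟩
    refine ⟨fun z => Complex.exp (b z), fun z => Complex.exp (G z / 2), hb.1.cexp,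
      (hGd.div_const 2).cexp, ⟨Real.exp C, ?_⟩, ⟨Real.exp C, ?_⟩, ?_, ?_⟩
    · intro z hz
      rw [Complex.norm_exp, Real.exp_le_exp]
      exact (abs_le.1 (hb.2 z hz)).2
    · intro z hz
      refine ⟨Complex.exp_ne_zero _, ?_⟩
      rw [← Complex.exp_neg, Complex.norm_exp, Real.exp_le_exp, Complex.neg_re]
      linarith [(abs_le.1 (hb.2 z hz)).1]
    · intro z hz
      rw [Complex.exp_re]
      refine mul_pos (Real.exp_pos _) ?_
      have h1 := abs_lt.1 (hlt z hz)
      have h2 : (G z / 2).im = (G z).im / 2 := by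
        rw [show (2:ℂ) = ((2:ℝ) : ℂ) by norm_num, Complex.div_ofReal_im]
      rw [h2]
      exact Real.cos_pos_of_mem_Ioo ⟨by linarith [h1.1], by linarith [h1.2]⟩
    · intro z hz
      rw [← hLf z hz, ← Complex.exp_nat_mul, ← Complex.exp_add]
      congr 1
      simp only [hG]
      push_cast
      ring

end Pool.Agent.H71UF
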